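import Pool.Agent.TH214.RM.Crit
import Pool.Agent.H918R2.Quad.Trdeg

/-! The function field of a projective hypersurface. -/

set_option autoImplicit false
set_option linter.unusedSectionVars false
set_option linter.unusedVariables false

namespace Pool.Agent.TH214.RM

open MvPolynomial Cardinal

theorem not_dvd_of_degreeOf {K σ : Type} [Field K] (G P : MvPolynomial σ K) (j : σ)
    (hj : 0 < degreeOf j G) (hP : degreeOf j P = 0) (hP0 : P ≠ 0) : ¬ G ∣ P := by
  rintro ⟨H, rfl⟩
  have hG : G ≠ 0 := left_ne_zero_of_mul hP0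
  have hH : H ≠ 0 := right_ne_zero_of_mul hP0
  rw [degreeOf_mul_eq hG hH] at hP
  omega

theorem exists_degreeOf_pos {K σ : Type} [Field K] (G : MvPolynomial σ K)
    (hG : Irreducible G) : ∃ j, 0 < degreeOf j G := by
  classical
  by_contra hcon
  push Not at hcon
  have h1 : G = C (coeff 0 G) := by
    ext m
    by_cases hm : m = 0
    · rw [hm, coeff_C, if_pos rfl]
    · rw [coeff_C, if_neg (Ne.symm hm)]
      by_contra h
      have h2 : m ∈ G.support := mem_support_iff.2 h
      apply hm
      ext j
      have h3 := monomial_le_degreeOf j h2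
      have h4 := hcon j
      simp only [Finsupp.coe_zero, Pi.zero_apply]
      omega
  by_cases h0 : coeff 0 G = 0
  · exact hG.ne_zero (by rw [h1, h0, C_0])
  · apply hG.not_isUnit
    rw [h1]
    exact (Ne.isUnit h0).map C

/-- The function field of the hypersurface `G = 0`, its coordinates and a transcendence basis. -/
theorem exists_ff {K : Type} [Field K] {n : ℕ} (G : MvPolynomial (Fin (n + 2)) K)
    (hG : Irreducible G) (d : ℕ) (hGd : G.IsHomogeneous d) (hX : ¬ G ∣ X 0) :
    ∃ (F : Type) (_ : Field F) (_ : Algebra K F) (x : Fin (n + 2) → F) (b : Fin n → F),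
      x 0 = 1 ∧ aeval x G = 0 ∧ IntermediateField.adjoin K (Set.range x) = ⊤ ∧
      IsTranscendenceBasis K b := by
  classical
  let I : Ideal (MvPolynomial (Fin (n + 2)) K) := Ideal.span {G}
  have hI : I.IsPrime := (Ideal.span_singleton_prime hG.ne_zero).2 hG.prime
  let B := MvPolynomial (Fin (n + 2)) K ⧸ I
  let Ω := FractionRing B
  let w : Fin (n + 2) → Ω := fun i => algebraMap B Ω (Ideal.Quotient.mk I (X i))
  have hinj : Function.Injective (algebraMap B Ω) := IsFractionRing.injective B Ω
  have haw : ∀ P : MvPolynomial (Fin (n + 2)) K,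
      aeval w P = algebraMap B Ω (Ideal.Quotient.mk I P) := by
    intro P
    have h1 : (aeval w : MvPolynomial (Fin (n + 2)) K →ₐ[K] Ω) =
        (IsScalarTower.toAlgHom K B Ω).comp (Ideal.Quotient.mkₐ K I) := by
      apply MvPolynomial.algHom_ext
      intro j
      rw [aeval_X]
      rfl
    rw [h1]
    rfl
  have haw0 : ∀ P : MvPolynomial (Fin (n + 2)) K, aeval w P = 0 ↔ G ∣ P := by
    intro P
    rw [haw, map_eq_zero_iff _ hinj, Ideal.Quotient.eq_zero_iff_mem, Ideal.mem_span_singleton]
  have hw0 : w 0 ≠ 0 := by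
    intro h
    apply hX
    rw [← haw0, aeval_X, h]
  -- all but one of the coordinates are independent
  obtain ⟨j, hj⟩ := exists_degreeOf_pos G hG
  have hind : AlgebraicIndependent K (fun i : {i : Fin (n + 2) // i ≠ j} => w i) := by
    rw [algebraicIndependent_iff]
    intro P hP
    by_contra hP0
    have h1 : aeval w (rename (Subtype.val : {i : Fin (n + 2) // i ≠ j} → Fin (n + 2)) P) = 0 := by
      rw [aeval_rename]
      exact hP
    rw [haw0] at h1
    refine not_dvd_of_degreeOf G _ j hj ?_ ?_ h1
    · have h2 : j ∉ (rename (Subtype.val : {i : Fin (n + 2) // i ≠ j} → Fin (n + 2)) P).vars := by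
        intro h
        obtain ⟨i, _, hi⟩ := mem_vars_rename _ _ h
        exact i.2 hi
      by_contra h3
      apply h2
      rw [mem_vars_iff_mem_support]
      have h4 : 0 < degreeOf j (rename (Subtype.val : {i : Fin (n + 2) // i ≠ j} →
        Fin (n + 2)) P) := Nat.pos_of_ne_zero h3
      by_contra h5
      push Not at h5
      have h6 : degreeOf j (rename (Subtype.val : {i : Fin (n + 2) // i ≠ j} →
        Fin (n + 2)) P) ≤ 0 := by
        rw [degreeOf_le_iff]
        intro m hm
        have := h5 m hm
        rw [Finsupp.notMem_support_iff] at this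
        omega
      omega
    · intro h
      exact hP0 (rename_injective _ Subtype.val_injective (by rw [h, map_zero]))
  have htrΩ : ((n + 1 : ℕ) : Cardinal.{0}) ≤ Algebra.trdeg K Ω := by
    have h1 := hind.cardinalMk_le_trdeg
    have h2 : #{i : Fin (n + 2) // i ≠ j} = ((n + 1 : ℕ) : Cardinal.{0}) := by
      rw [Cardinal.mk_fintype, Fintype.card_subtype_compl, Fintype.card_subtype_eq,
        Fintype.card_fin]
      rfl
    rwa [h2] at h1
  -- the function field
  let z : Fin (n + 2) → Ω := fun i => w i * (w 0)⁻¹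
  let L : IntermediateField K Ω := IntermediateField.adjoin K (Set.range z)
  have hzL : ∀ i, z i ∈ L := fun i => IntermediateField.subset_adjoin K _ ⟨i, rfl⟩
  let x : Fin (n + 2) → L := fun i => ⟨z i, hzL i⟩
  have hx0 : x 0 = 1 := Subtype.ext (mul_inv_cancel₀ hw0)
  have hxG : aeval x G = 0 := by
    apply (algebraMap L Ω).injective
    rw [map_zero, ← MvPolynomial.aeval_algebraMap_apply]
    have h1 : (fun i => algebraMap L Ω (x i)) = fun i => w i * (w 0)⁻¹ := rfl
    change aeval (fun i => algebraMap L Ω (x i)) G = 0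
    rw [h1, aeval_scale w _ d G hGd, (haw0 G).2 dvd_rfl, zero_mul]
  have hgen : IntermediateField.adjoin K (Set.range x) = ⊤ := by
    have h1 : (IntermediateField.adjoin K (Set.range x)).map L.val = L := by
      rw [IntermediateField.adjoin_map]
      congr 1
      rw [← Set.range_comp]
      rfl
    rw [eq_top_iff]
    intro a _
    have h2 : (a : Ω) ∈ (IntermediateField.adjoin K (Set.range x)).map L.val := by
      rw [h1]
      exact a.2
    obtain ⟨a', ha', h3⟩ := (IntermediateField.mem_map _).1 h2
    have h4 : a' = a := Subtype.ext h3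
    rw [← h4]
    exact ha'
  -- the transcendence degree
  have htrL : Algebra.trdeg K L < ((n + 1 : ℕ) : Cardinal.{0}) := by
    by_contra hcon
    push Not at hcon
    let y : {i : Fin (n + 2) // i ≠ 0} → L := fun i => x i
    have hy : IntermediateField.adjoin K (Set.range y) = ⊤ := by
      rw [eq_top_iff, ← hgen, IntermediateField.adjoin_le_iff]
      rintro _ ⟨i, rfl⟩
      by_cases hi : i = 0
      · rw [hi, hx0]
        exact one_mem _
      · exact IntermediateField.subset_adjoin K _ ⟨⟨i, hi⟩, rfl⟩
    have halg := Pool.Agent.H918R2.Quad.isAlgebraic_of_adjoin_eq_top (Set.range y) hy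
    have hb := Algebra.IsAlgebraic.isTranscendenceBasis_of_le_trdeg_of_finite K y (by
      have h2 : #{i : Fin (n + 2) // i ≠ 0} = ((n + 1 : ℕ) : Cardinal.{0}) := by
        rw [Cardinal.mk_fintype, Fintype.card_subtype_compl, Fintype.card_subtype_eq,
          Fintype.card_fin]
        rfl
      rw [h2]
      exact hcon)
    have h3 : aeval y (deh 0 G) = 0 := by
      have h4 := aeval_deh (0 : Fin (n + 2)) x hx0 G
      rw [hxG] at h4
      exact h4
    exact deh_ne_zero 0 G hG.ne_zero d hGd (hb.1.eq_zero_of_aeval_eq_zero _ h3)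
  have htrΩL : Algebra.trdeg L Ω ≤ 1 := by
    have htop : IntermediateField.adjoin L ({w 0} : Set Ω) = ⊤ := by
      have hw : ∀ i, w i ∈ IntermediateField.adjoin L ({w 0} : Set Ω) := by
        intro i
        have h1 : w i = algebraMap L Ω (x i) * w 0 := by
          change w i = w i * (w 0)⁻¹ * w 0
          rw [mul_assoc, inv_mul_cancel₀ hw0, mul_one]
        rw [h1]
        exact mul_mem (IntermediateField.algebraMap_mem _ _)
          (IntermediateField.subset_adjoin L _ rfl)
      have hP : ∀ P : MvPolynomial (Fin (n + 2)) K,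
          aeval w P ∈ IntermediateField.adjoin L ({w 0} : Set Ω) := by
        intro P
        induction P using MvPolynomial.induction_on with
        | C a =>
          rw [aeval_C, IsScalarTower.algebraMap_apply K L Ω]
          exact IntermediateField.algebraMap_mem _ _
        | add p q hp hq => rw [map_add]; exact add_mem hp hq
        | mul_X p i hp => rw [map_mul, aeval_X]; exact mul_mem hp (hw i)
      rw [eq_top_iff]
      intro a _
      obtain ⟨b, c, hc, rfl⟩ := IsFractionRing.div_surjective (A := B) a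
      obtain ⟨b, rfl⟩ := Ideal.Quotient.mk_surjective b
      obtain ⟨c, rfl⟩ := Ideal.Quotient.mk_surjective c
      rw [← haw, ← haw]
      exact div_mem (hP b) (hP c)
    have halg := Pool.Agent.H918R2.Quad.isAlgebraic_of_adjoin_eq_top ({w 0} : Set Ω) htop
    have h1 := Algebra.IsAlgebraic.trdeg_le_cardinalMk L ({w 0} : Set Ω)
    simpa using h1
  have hadd : Algebra.trdeg K L + Algebra.trdeg L Ω = Algebra.trdeg K Ω := trdeg_add_eq K L
  have htr : Algebra.trdeg K L = (n : Cardinal.{0}) := by
    obtain ⟨m, hm⟩ := Cardinal.lt_aleph0.1 (htrL.trans (Cardinal.natCast_lt_aleph0))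
    rw [hm] at htrL hadd ⊢
    have h1 : m < n + 1 := by exact_mod_cast htrL
    have h2 : ((n + 1 : ℕ) : Cardinal.{0}) ≤ ((m + 1 : ℕ) : Cardinal.{0}) := by
      calc ((n + 1 : ℕ) : Cardinal.{0}) ≤ Algebra.trdeg K Ω := htrΩ
        _ = (m : Cardinal.{0}) + Algebra.trdeg L Ω := hadd.symm
        _ ≤ (m : Cardinal.{0}) + 1 := by gcongr
        _ = ((m + 1 : ℕ) : Cardinal.{0}) := by push_cast; rfl
    have h3 : n + 1 ≤ m + 1 := by exact_mod_cast h2
    have h4 : m = n := by omega
    rw [h4]
  obtain ⟨ι, b, hb⟩ := exists_isTranscendenceBasis' K L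
  have hι : #ι = (n : Cardinal.{0}) := by rw [hb.cardinalMk_eq_trdeg, htr]
  have hι' : #ι = #(Fin n) := by rw [hι, Cardinal.mk_fin]
  obtain ⟨e⟩ := Cardinal.eq.1 hι'
  exact ⟨L, inferInstance, inferInstance, x, b ∘ e.symm, hx0, hxG, hgen,
    hb.comp_equiv e.symm⟩

end Pool.Agent.TH214.RM
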