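import Pool.Agent.TH214.RM.Good

/-! Smooth projective hypersurfaces of positive dimension are irreducible. -/

set_option autoImplicit false
set_option linter.unusedSectionVars false
set_option linter.unusedVariables false

namespace Pool.Agent.TH214.RM

open MvPolynomial

theorem unit_of_const {K σ : Type} [Field K] (G A B : MvPolynomial σ K) (hG0 : G ≠ 0) (d : ℕ)
    (hGd : G.IsHomogeneous d) (hAB : A * B = G) (hB : constantCoeff B ≠ 0) : IsUnit B := by
  let φ : MvPolynomial σ K →ₐ[K] Polynomial (MvPolynomial σ K) :=
    aeval (fun j => Polynomial.C (X j) * Polynomial.X)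
  have hφG : φ G = Polynomial.C G * Polynomial.X ^ d := by
    change aeval (fun j => Polynomial.C (X j) * Polynomial.X) G = _
    rw [aeval_scale _ Polynomial.X d G hGd]
    congr 1
    have h1 : (aeval (fun j => (Polynomial.C (X j) : Polynomial (MvPolynomial σ K))) :
        MvPolynomial σ K →ₐ[K] Polynomial (MvPolynomial σ K)) =
        IsScalarTower.toAlgHom K (MvPolynomial σ K) (Polynomial (MvPolynomial σ K)) := by
      apply MvPolynomial.algHom_ext
      intro j
      rw [aeval_X]
      rfl
    rw [h1]
    rfl
  -- the value at `T = 0`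
  have h0 : ∀ P : MvPolynomial σ K, (φ P).eval 0 = C (constantCoeff P) := by
    intro P
    induction P using MvPolynomial.induction_on with
    | C a =>
      change ((aeval _ (C a) : Polynomial (MvPolynomial σ K))).eval 0 = _
      rw [aeval_C, constantCoeff_C]
      change (Polynomial.C (C a)).eval 0 = _
      rw [Polynomial.eval_C]
    | add p q hp hq => rw [map_add, Polynomial.eval_add, hp, hq, map_add, map_add]
    | mul_X p i hp =>
      rw [map_mul, Polynomial.eval_mul, hp, map_mul, map_mul, constantCoeff_X, map_zero, mul_zero]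
      change _ * ((aeval _ (X i) : Polynomial (MvPolynomial σ K))).eval 0 = _
      rw [aeval_X, Polynomial.eval_mul, Polynomial.eval_X, mul_zero, mul_zero]
  have h1 : ∀ P : MvPolynomial σ K, (φ P).eval 1 = P := by
    intro P
    induction P using MvPolynomial.induction_on with
    | C a =>
      change ((aeval _ (C a) : Polynomial (MvPolynomial σ K))).eval 1 = _
      rw [aeval_C]
      change (Polynomial.C (C a)).eval 1 = _
      rw [Polynomial.eval_C]
    | add p q hp hq => rw [map_add, Polynomial.eval_add, hp, hq]
    | mul_X p i hp =>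
      rw [map_mul, Polynomial.eval_mul, hp]
      change _ * ((aeval _ (X i) : Polynomial (MvPolynomial σ K))).eval 1 = _
      rw [aeval_X, Polynomial.eval_mul, Polynomial.eval_X, Polynomial.eval_C, mul_one]
  have hC : (C (constantCoeff B) : MvPolynomial σ K) ≠ 0 := by
    rwa [Ne, C_eq_zero]
  have hXB : ¬ Polynomial.X ∣ φ B := by
    rw [Polynomial.X_dvd_iff, Polynomial.coeff_zero_eq_eval_zero, h0]
    exact hC
  have hdvd : Polynomial.X ^ d ∣ φ A * φ B := by
    rw [← map_mul, hAB, hφG]
    exact Dvd.intro_left _ rfl
  have hdvd2 : Polynomial.X ^ d ∣ φ A :=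
    Polynomial.prime_X.pow_dvd_of_dvd_mul_right d hXB hdvd
  obtain ⟨A', hA'⟩ := hdvd2
  have h2 : A' * φ B = Polynomial.C G := by
    have h3 : Polynomial.X ^ d * (A' * φ B) = Polynomial.X ^ d * Polynomial.C G := by
      rw [← mul_assoc, ← hA', ← map_mul, hAB, hφG, mul_comm]
    exact mul_left_cancel₀ (pow_ne_zero d Polynomial.X_ne_zero) h3
  have h3 : A' ≠ 0 ∧ φ B ≠ 0 := by
    constructor
    · rintro rfl
      rw [zero_mul] at h2
      exact hG0 (Polynomial.C_eq_zero.1 h2.symm)
    · intro h
      rw [h, mul_zero] at h2
      exact hG0 (Polynomial.C_eq_zero.1 h2.symm)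
  have h4 := Polynomial.natDegree_mul h3.1 h3.2
  rw [h2, Polynomial.natDegree_C] at h4
  have h5 : (φ B).natDegree = 0 := by omega
  obtain ⟨c, hc⟩ := Polynomial.natDegree_eq_zero.1 h5
  have h6 := h0 B
  have h7 := h1 B
  rw [← hc, Polynomial.eval_C] at h6 h7
  rw [← h7, h6]
  exact (Ne.isUnit hB).map C

theorem irreducible_of_smooth {K : Type} [Field K] {n : ℕ} (hn : 1 ≤ n)
    (G : MvPolynomial (Fin (n + 2)) K) (d : ℕ) (hd : 1 ≤ d) (hGd : G.IsHomogeneous d)
    (hsm : ∀ i, X i ∈ (Ideal.span (Set.range fun j => pderiv j G)).radical) :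
    Irreducible G := by
  classical
  have hG0 : G ≠ 0 := by
    rintro rfl
    have h1 := hsm 0
    have h2 : (Ideal.span (Set.range fun j : Fin (n + 2) =>
        pderiv j (0 : MvPolynomial (Fin (n + 2)) K))) = ⊥ := by
      rw [Ideal.span_eq_bot]
      rintro _ ⟨j, rfl⟩
      exact map_zero _
    rw [h2] at h1
    obtain ⟨k, hk⟩ := h1
    exact pow_ne_zero k (X_ne_zero (R := K) (0 : Fin (n + 2))) (Ideal.mem_bot.1 hk)
  have hGc : constantCoeff G = 0 := by
    rw [constantCoeff_eq]
    by_contra h
    have h1 := hGd h
    simp only [map_zero] at h1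
    omega
  refine ⟨?_, ?_⟩
  · intro hu
    have h1 := hu.map (constantCoeff (σ := Fin (n + 2)) (R := K))
    rw [hGc] at h1
    exact not_isUnit_zero h1
  · intro A B hAB
    by_contra hcon
    push Not at hcon
    obtain ⟨hA, hB⟩ := hcon
    have hB0 : constantCoeff B = 0 := by
      by_contra h
      exact hB (unit_of_const G A B hG0 d hGd hAB.symm h)
    have hA0 : constantCoeff A = 0 := by
      by_contra h
      exact hA (unit_of_const G B A hG0 d hGd (by rw [mul_comm]; exact hAB.symm) h)
    let m : Ideal (MvPolynomial (Fin (n + 2)) K) :=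
      RingHom.ker (constantCoeff (σ := Fin (n + 2)) (R := K))
    have hm : m.IsPrime := RingHom.ker_isPrime _
    -- the chain of primes
    let φ : ℕ → (MvPolynomial (Fin (n + 2)) K →ₐ[K] MvPolynomial (Fin (n + 2)) K) := fun k =>
      aeval (fun j => if (j : ℕ) < k then 0 else X j)
    let J : ℕ → Ideal (MvPolynomial (Fin (n + 2)) K) := fun k => RingHom.ker (φ k)
    have hJp : ∀ k, (J k).IsPrime := fun k => RingHom.ker_isPrime _
    have hφX : ∀ k (j : Fin (n + 2)), φ k (X j) = if (j : ℕ) < k then 0 else X j :=
      fun k j => aeval_X _ j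
    have hcomp : ∀ k l, k ≤ l → (φ l).comp (φ k) = φ l := by
      intro k l hkl
      apply MvPolynomial.algHom_ext
      intro j
      rw [AlgHom.comp_apply, hφX]
      split_ifs with h
      · rw [map_zero, hφX, if_pos (by omega)]
      · rfl
    have hJle : ∀ k l, k ≤ l → J k ≤ J l := by
      intro k l hkl P hP
      have h1 : φ k P = 0 := hP
      change φ l P = 0
      rw [← hcomp k l hkl, AlgHom.comp_apply, h1, map_zero]
    have hJlt : ∀ k, (hk : k < n + 2) → J k < J (k + 1) := by
      intro k hk
      refine lt_of_le_of_ne (hJle _ _ (by omega)) ?_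
      intro h
      have h1 : (X ⟨k, hk⟩ : MvPolynomial (Fin (n + 2)) K) ∈ J (k + 1) := by
        change φ (k + 1) (X ⟨k, hk⟩) = 0
        rw [hφX, if_pos (by simp)]
      rw [← h] at h1
      have h2 : φ k (X ⟨k, hk⟩) = 0 := h1
      rw [hφX, if_neg (by simp)] at h2
      exact X_ne_zero _ h2
    have hJm : J 3 ≤ m := by
      intro P hP
      have h1 : φ 3 P = 0 := hP
      change constantCoeff P = 0
      have h2 : (constantCoeff (σ := Fin (n + 2)) (R := K)).comp (φ 3).toRingHom =
          constantCoeff := by
        apply MvPolynomial.ringHom_ext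
        · intro r
          rw [RingHom.comp_apply]
          change constantCoeff (φ 3 (C r)) = _
          change constantCoeff (aeval _ (C r)) = _
          rw [aeval_C]
          rfl
        · intro j
          rw [RingHom.comp_apply]
          change constantCoeff (φ 3 (X j)) = _
          rw [hφX]
          split_ifs
          · rw [map_zero, constantCoeff_X]
          · rfl
      rw [← h2, RingHom.comp_apply]
      change constantCoeff (φ 3 P) = 0
      rw [h1, map_zero]
    have hh : (3 : ℕ∞) ≤ m.height := by
      have h1 := Ideal.height_add_one_le_of_lt_of_isPrime (hJlt 0 (by omega))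
      have h2 := Ideal.height_add_one_le_of_lt_of_isPrime (hJlt 1 (by omega))
      have h3 := Ideal.height_add_one_le_of_lt_of_isPrime (hJlt 2 (by omega))
      have h4 := Ideal.height_mono hJm
      calc (3 : ℕ∞) = 0 + 1 + 1 + 1 := by norm_num
        _ ≤ (J 0).height + 1 + 1 + 1 := by gcongr; exact zero_le
        _ ≤ (J 1).height + 1 + 1 := by gcongr
        _ ≤ (J 2).height + 1 := by gcongr
        _ ≤ (J 3).height := h3
        _ ≤ m.height := h4
    -- `m` is minimal over `(A, B)`
    have hpd : Ideal.span (Set.range fun j => pderiv j G) ≤ Ideal.span {A, B} := by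
      rw [Ideal.span_le]
      rintro _ ⟨j, rfl⟩
      change pderiv j G ∈ _
      rw [hAB, Derivation.leibniz, smul_eq_mul, smul_eq_mul]
      exact Ideal.add_mem _ (Ideal.mul_mem_right _ _ (Ideal.subset_span (by simp)))
        (Ideal.mul_mem_right _ _ (Ideal.subset_span (by simp)))
    have hmle : m ≤ (Ideal.span {A, B}).radical := by
      have h1 : ∀ i, X i ∈ (Ideal.span {A, B}).radical := fun i =>
        Ideal.radical_mono hpd (hsm i)
      intro P hP
      have h2 : constantCoeff P = 0 := hP
      have h3 : ∀ P : MvPolynomial (Fin (n + 2)) K,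
          P - C (constantCoeff P) ∈ (Ideal.span {A, B}).radical := by
        intro P
        induction P using MvPolynomial.induction_on with
        | C a => simp
        | add p q hp hq =>
          rw [map_add, map_add]
          have h4 : p + q - (C (constantCoeff p) + C (constantCoeff q)) =
            (p - C (constantCoeff p)) + (q - C (constantCoeff q)) := by ring
          rw [h4]
          exact Ideal.add_mem _ hp hq
        | mul_X p i hp =>
          rw [map_mul, constantCoeff_X, mul_zero, map_zero, sub_zero]
          exact Ideal.mul_mem_left _ _ (h1 i)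
      have h4 := h3 P
      rwa [h2, map_zero, sub_zero] at h4
    have hmin : m ∈ (Ideal.span {A, B}).minimalPrimes := by
      refine ⟨⟨hm, ?_⟩, ?_⟩
      · rw [Ideal.span_le]
        rintro P (rfl | rfl)
        · exact hA0
        · exact hB0
      · rintro q ⟨hq, hqAB⟩ hqm
        exact hmle.trans ((Ideal.IsPrime.radical_le_iff hq).2 hqAB)
    have h5 := Ideal.height_le_card_of_mem_minimalPrimes_span (Set.toFinite {A, B}) hmin
    have h6 : ({A, B} : Set (MvPolynomial (Fin (n + 2)) K)).ncard ≤ 2 := by
      have := Set.ncard_insert_le A ({B} : Set (MvPolynomial (Fin (n + 2)) K))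
      rwa [Set.ncard_singleton] at this
    have h7 : (3 : ℕ∞) ≤ 2 := hh.trans (h5.trans (by exact_mod_cast h6))
    exact absurd h7 (by decide)

end Pool.Agent.TH214.RM
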