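import Pool.Agent.TH214.RM.Smooth
import Pool.Agent.TH214.RM.FF
import Pool.Agent.TH214.RM.Irr
import Pool.Agent.W418.Hyp2
import Pool.Agent.W418.Desc
import Pool.Agent.W418.GO.Fin

/-! Regular models of smooth hypersurfaces which are regular in suitable local coordinates. -/

set_option autoImplicit false
set_option linter.unusedSectionVars false
set_option linter.unusedVariables false

open AlgebraicGeometry CategoryTheory CategoryTheory.Limits MvPolynomial NumberField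
open scoped Pointwise

namespace Pool.Agent.TH214.RM

open Pool.Agent.H918R2.Quad Pool.Agent.W418

theorem hasRegularModel_of_goodModule {O : Type} [CommRing O] [IsDomain O] [Module.Finite ℤ O]
    {K F A : Type} [Field K] [CharZero K] [Algebra O K] [IsFractionRing O K] [Field F]
    [Algebra K F] [Algebra O F] [IsScalarTower O K F]
    [CommRing A] [Algebra K A]
    (𝒜 : ℕ → Submodule K A) [GradedAlgebra 𝒜] (ε : A →ₐ[K] F)
    (hε : ∀ d, ∀ a ∈ 𝒜 d, ε a = 0 → a = 0)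
    (hgen : ∀ d, (𝒜 d).map ε.toLinearMap = ((𝒜 1).map ε.toLinearMap) ^ d)
    {ι : Type} (x : ι → F) (hε1 : (𝒜 1).map ε.toLinearMap = Submodule.span K (Set.range x))
    (hM : GoodModule O x) (X : Scheme.{0}) (hX : Nonempty (X ≅ Proj 𝒜)) :
    HasRegularModel X := by
  obtain ⟨D, M, hD, hMfg, hM0, hMG, hGM, hreg⟩ := hM
  have hL : ((𝒜 1).map ε.toLinearMap) ^ D = Submodule.span K (Set.range x ^ D) := by
    rw [hε1, Submodule.span_pow]
  refine hasRegularModel_of_module' (O := O) 𝒜 ε hε hgen D (by omega) M ?_ ?_ hMfg hM0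
    hreg X hX
  · intro y hy
    rw [hL]
    exact Submodule.span_subset_span O K _ (hMG hy)
  · intro y hy
    rw [hL] at hy
    obtain ⟨s, hs, hsy⟩ := exists_smul_span (O := O) (Set.range x ^ D) y hy
    obtain ⟨t, ht, hty⟩ := hGM _ hsy
    exact ⟨t * s, mul_ne_zero ht hs, by rw [mul_smul]; exact hty⟩

theorem hasModel_of_goodModule {O K F A : Type} [CommRing O] [IsDedekindDomain O] [Field K]
    [Algebra O K] [IsFractionRing O K] [Field F] [Algebra K F] [Algebra O F]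
    [IsScalarTower O K F] [CommRing A] [Algebra K A]
    (𝒜 : ℕ → Submodule K A) [GradedAlgebra 𝒜] (ε : A →ₐ[K] F)
    (hε : ∀ d, ∀ a ∈ 𝒜 d, ε a = 0 → a = 0)
    (hgen : ∀ d, (𝒜 d).map ε.toLinearMap = ((𝒜 1).map ε.toLinearMap) ^ d)
    {ι : Type} (x : ι → F) (hε1 : (𝒜 1).map ε.toLinearMap = Submodule.span K (Set.range x))
    (hM : GoodModule O x) {X : Scheme.{0}} (f : X ⟶ Spec (CommRingCat.of K)) (i : X ≅ Proj 𝒜)
    (hi : i.hom ≫ GO.projStr 𝒜 = f) : GO.HasModel O K f := by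
  obtain ⟨D, M, hD, hMfg, hM0, hMG, hGM, hreg⟩ := hM
  have hL : ((𝒜 1).map ε.toLinearMap) ^ D = Submodule.span K (Set.range x ^ D) := by
    rw [hε1, Submodule.span_pow]
  refine GO.hasModel_of_module (O := O) 𝒜 ε hε hgen D (by omega) M ?_ ?_ hMfg hreg f i hi
  · intro y hy
    rw [hL]
    exact Submodule.span_subset_span O K _ (hMG hy)
  · intro y hy
    rw [hL] at hy
    obtain ⟨s, hs, hsy⟩ := exists_smul_span (O := O) (Set.range x ^ D) y hy
    obtain ⟨t, ht, hty⟩ := hGM _ hsy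
    exact ⟨t * s, mul_ne_zero ht hs, by rw [mul_smul]; exact hty⟩

theorem not_dvd_X {K : Type} [Field K] {n : ℕ} (G : MvPolynomial (Fin (n + 2)) K) (hG0 : G ≠ 0)
    (d : ℕ) (hd : 2 ≤ d) (hGd : G.IsHomogeneous d) : ¬ G ∣ X 0 := by
  intro h
  have h1 := totalDegree_le_of_dvd_of_isDomain h (X_ne_zero _)
  rw [totalDegree_X, hGd.totalDegree hG0] at h1
  omega

theorem model_Z {K : Type} [Field K] [NumberField K] {n : ℕ} (hn : 1 ≤ n)
    (G : MvPolynomial (Fin (n + 2)) K) (d : ℕ) (hd : 2 ≤ d) (hGd : G.IsHomogeneous d)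
    (hsm : Smooth G) (hloc : LocReg (𝓞 K) G) {A : Type} [CommRing A] [Algebra K A]
    (π : MvPolynomial (Fin (n + 2)) K →ₐ[K] A) (hπ : Function.Surjective π)
    (hker : RingHom.ker π = Ideal.span {G})
    (𝒜 : ℕ → Submodule K A) [GradedAlgebra 𝒜]
    (h𝒜 : ∀ d, 𝒜 d = (homogeneousSubmodule (Fin (n + 2)) K d).map π.toLinearMap)
    (Y : Scheme.{0}) (hY : Nonempty (Y ≅ Proj 𝒜)) : HasRegularModel Y := by
  have hirr := irreducible_of_smooth hn G d (by omega) hGd hsm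
  obtain ⟨F, _, _, x, b, hx0, hrel, hgen, htb⟩ := exists_ff G hirr d hGd
    (not_dvd_X G hirr.ne_zero d hd hGd)
  let _ : Algebra (𝓞 K) F := ((algebraMap K F).comp (algebraMap (𝓞 K) K)).toAlgebra
  have hst : IsScalarTower (𝓞 K) K F := IsScalarTower.of_algebraMap_eq fun _ => rfl
  have hM : GoodModule (𝓞 K) x :=
    goodModule_of_locReg (K := K) G hirr.ne_zero d hGd hsm hloc x hx0 hrel hgen b htb
  obtain ⟨ε, hε, hεgen, hε1⟩ := exists_eps x hx0 hgen _ htb G hirr.prime d hGd hrel π hπ hker 𝒜 h𝒜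
  exact hasRegularModel_of_goodModule (O := 𝓞 K) 𝒜 ε hε hεgen x hε1 hM Y hY

theorem model_O {K : Type} [Field K] [NumberField K] {n : ℕ} (hn : 1 ≤ n)
    (G : MvPolynomial (Fin (n + 2)) K) (d : ℕ) (hd : 2 ≤ d) (hGd : G.IsHomogeneous d)
    (hsm : Smooth G) (hloc : LocReg (𝓞 K) G) {A : Type} [CommRing A] [Algebra K A]
    (π : MvPolynomial (Fin (n + 2)) K →ₐ[K] A) (hπ : Function.Surjective π)
    (hker : RingHom.ker π = Ideal.span {G})
    (𝒜 : ℕ → Submodule K A) [GradedAlgebra 𝒜]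
    (h𝒜 : ∀ d, 𝒜 d = (homogeneousSubmodule (Fin (n + 2)) K d).map π.toLinearMap)
    {Y : Scheme.{0}} (f : Y ⟶ Spec (CommRingCat.of K)) (i : Y ≅ Proj 𝒜)
    (hi : i.hom ≫ GO.projStr 𝒜 = f) : GO.HasModel (𝓞 K) K f := by
  have hirr := irreducible_of_smooth hn G d (by omega) hGd hsm
  obtain ⟨F, _, _, x, b, hx0, hrel, hgen, htb⟩ := exists_ff G hirr d hGd
    (not_dvd_X G hirr.ne_zero d hd hGd)
  let _ : Algebra (𝓞 K) F := ((algebraMap K F).comp (algebraMap (𝓞 K) K)).toAlgebra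
  have hst : IsScalarTower (𝓞 K) K F := IsScalarTower.of_algebraMap_eq fun _ => rfl
  have hM : GoodModule (𝓞 K) x :=
    goodModule_of_locReg (K := K) G hirr.ne_zero d hGd hsm hloc x hx0 hrel hgen b htb
  obtain ⟨ε, hε, hεgen, hε1⟩ := exists_eps x hx0 hgen _ htb G hirr.prime d hGd hrel π hπ hker 𝒜 h𝒜
  exact hasModel_of_goodModule (O := 𝓞 K) 𝒜 ε hε hεgen x hε1 hM f i hi

end Pool.Agent.TH214.RM
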