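import Pool.Agent.TH214.RM.Tower
import Pool.Agent.TH214.RM.Fin

/-! Towers of regular hypersurfaces: closed form and models. -/

set_option autoImplicit false
set_option linter.unusedSectionVars false
set_option linter.unusedVariables false

namespace Pool.Agent.TH214.RM

open Pool.Agent.H918R2.Quad MvPolynomial NumberField

/-- The tower over `up d F`. -/
noncomputable def towr {O : Type} [CommRing O] (d : ℕ) {r : ℕ} (F : MvPolynomial (Fin (r + 1)) O) :
    (k : ℕ) → MvPolynomial (Fin (r + k + 2)) O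
  | 0 => up d F
  | k + 1 => up d (towr d F k)

/-- The closed form of the tower. -/
noncomputable def chain {O : Type} [CommRing O] (d : ℕ) {r : ℕ} (k : ℕ)
    (F : MvPolynomial (Fin (r + 1)) O) : MvPolynomial (Fin (r + k + 2)) O :=
  (∑ i ∈ Finset.range (k + 1),
    X (Fin.ofNat (r + k + 2) i) ^ (d - 1) * X (Fin.ofNat (r + k + 2) (i + 1))) +
  rename (fun j : Fin (r + 1) => Fin.ofNat (r + k + 2) (k + 1 + j)) F

theorem ofNat_succ (n i : ℕ) (h : i < n + 1) :
    Fin.ofNat (n + 2) (i + 1) = (Fin.ofNat (n + 1) i).succ := by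
  apply Fin.ext
  simp only [Fin.ofNat, Fin.val_succ]
  rw [Nat.mod_eq_of_lt (by omega), Nat.mod_eq_of_lt h]

theorem chain_eq {O : Type} [CommRing O] (d : ℕ) {r : ℕ} (F : MvPolynomial (Fin (r + 1)) O)
    (k : ℕ) : chain d k F = towr d F k := by
  induction k with
  | zero =>
    change chain d 0 F = X 0 ^ (d - 1) * X 1 + rename Fin.succ F
    unfold chain
    rw [zero_add, Finset.sum_range_one]
    congr 1
    congr 1
    congr 1
    funext j
    apply Fin.ext
    simp only [Fin.ofNat, Fin.val_succ]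
    rw [Nat.mod_eq_of_lt (by have := j.2; omega)]
    omega
  | succ k ih =>
    change chain d (k + 1) F = X 0 ^ (d - 1) * X 1 + rename Fin.succ (towr d F k)
    rw [← ih]
    unfold chain
    rw [Finset.sum_range_succ', map_add, map_sum, rename_rename]
    have h1 : ∀ i ∈ Finset.range (k + 1),
        rename (Fin.succ : Fin (r + k + 2) → Fin (r + k + 3))
          (X (Fin.ofNat (r + k + 2) i) ^ (d - 1) * X (Fin.ofNat (r + k + 2) (i + 1)) :
            MvPolynomial (Fin (r + k + 2)) O) =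
        X (Fin.ofNat (r + (k + 1) + 2) (i + 1)) ^ (d - 1) *
          X (Fin.ofNat (r + (k + 1) + 2) (i + 1 + 1)) := by
      intro i hi
      rw [Finset.mem_range] at hi
      rw [map_mul, map_pow, rename_X, rename_X]
      rw [show Fin.ofNat (r + (k + 1) + 2) (i + 1) = (Fin.ofNat (r + k + 2) i).succ from
        ofNat_succ (r + k + 1) i (by omega)]
      rw [show Fin.ofNat (r + (k + 1) + 2) (i + 1 + 1) = (Fin.ofNat (r + k + 2) (i + 1)).succ from
        ofNat_succ (r + k + 1) (i + 1) (by omega)]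
    rw [Finset.sum_congr rfl h1]
    have h2 : (Fin.succ ∘ fun j : Fin (r + 1) => Fin.ofNat (r + k + 2) (k + 1 + j)) =
        fun j : Fin (r + 1) => Fin.ofNat (r + (k + 1) + 2) (k + 1 + 1 + j) := by
      funext j
      have h3 : k + 1 + 1 + (j : ℕ) = (k + 1 + j) + 1 := by omega
      rw [h3]
      exact (ofNat_succ (r + k + 1) (k + 1 + j) (by have := j.2; omega)).symm
    rw [h2]
    have h3 : (Fin.ofNat (r + (k + 1) + 2) 0) = 0 := rfl
    have h4 : (Fin.ofNat (r + (k + 1) + 2) (0 + 1)) = 1 := rfl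
    rw [h3, h4]
    ring

theorem crit_towr {O : Type} [CommRing O] (𝔭 : Ideal O) (d : ℕ) (hd : 3 ≤ d) {r : ℕ}
    (F : MvPolynomial (Fin (r + 1)) O) (hF : F.IsHomogeneous d) (h : Crit 𝔭 (up d F)) (k : ℕ) :
    (towr d F k).IsHomogeneous d ∧ Crit 𝔭 (towr d F k) := by
  have key : ∀ k, ∃ F₀ : MvPolynomial (Fin (r + k + 1)) O, F₀.IsHomogeneous d ∧
      towr d F k = up d F₀ ∧ Crit 𝔭 (up d F₀) := by
    intro k
    induction k with
    | zero => exact ⟨F, hF, rfl, h⟩
    | succ k ih =>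
      obtain ⟨F₀, hF₀, h1, h2⟩ := ih
      refine ⟨up d F₀, isHomogeneous_up d (by omega) F₀ hF₀, ?_, crit_up 𝔭 d hd F₀ hF₀ h2⟩
      change up d (towr d F k) = _
      rw [h1]
  obtain ⟨F₀, hF₀, h1, h2⟩ := key k
  rw [h1]
  exact ⟨isHomogeneous_up d (by omega) F₀ hF₀, h2⟩

theorem smooth_towr {K : Type} [Field K] (d : ℕ) (hd : 3 ≤ d) {r : ℕ}
    (F : MvPolynomial (Fin (r + 1)) K) (h : Smooth (up d F)) (k : ℕ) :
    Smooth (towr d F k) := by
  have key : ∀ k, ∃ F₀ : MvPolynomial (Fin (r + k + 1)) K,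
      towr d F k = up d F₀ ∧ Smooth (up d F₀) := by
    intro k
    induction k with
    | zero => exact ⟨F, rfl, h⟩
    | succ k ih =>
      obtain ⟨F₀, h1, h2⟩ := ih
      refine ⟨up d F₀, ?_, smooth_up d hd F₀ h2⟩
      change up d (towr d F k) = _
      rw [h1]
  obtain ⟨F₀, h1, h2⟩ := key k
  rw [h1]
  exact h2

theorem map_up {O K : Type} [CommRing O] [CommRing K] (φ : O →+* K) (d : ℕ) {m : ℕ}
    (F : MvPolynomial (Fin (m + 1)) O) : map φ (up d F) = up d (map φ F) := by
  unfold up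
  rw [map_add, map_mul, map_pow, map_X, map_X, map_rename]

theorem map_towr {O K : Type} [CommRing O] [CommRing K] (φ : O →+* K) (d : ℕ) {r : ℕ}
    (F : MvPolynomial (Fin (r + 1)) O) (k : ℕ) :
    map φ (towr d F k) = towr d (map φ F) k := by
  induction k with
  | zero => exact map_up φ d F
  | succ k ih =>
    change map φ (up d (towr d F k)) = up d (towr d (map φ F) k)
    rw [map_up, ih]

theorem map_chain {O K : Type} [CommRing O] [CommRing K] (φ : O →+* K) (d : ℕ) {r : ℕ}
    (F : MvPolynomial (Fin (r + 1)) O) (k : ℕ) :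
    map φ (chain d k F) = chain d k (map φ F) := by
  rw [chain_eq, chain_eq, map_towr]

/-- An integral equation which is regular over each nonzero prime. -/
theorem locReg_of_crit {O K : Type} [CommRing O] [Field K] [Algebra O K] {n : ℕ}
    (H : MvPolynomial (Fin (n + 2)) O)
    (h : ∀ 𝔭 : Ideal O, 𝔭.IsPrime → 𝔭 ≠ ⊥ → Crit 𝔭 H) :
    LocReg O (map (algebraMap O K) H) := by
  intro 𝔭 hp h0
  refine ⟨H, 1, 1, 1, one_ne_zero, one_mul 1, ?_, h 𝔭 hp h0⟩
  rw [C_1, one_mul]
  have h1 : (aeval (fun i => ∑ j, C ((1 : Matrix (Fin (n + 2)) (Fin (n + 2)) K) i j) * X j) :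
      MvPolynomial (Fin (n + 2)) K →ₐ[K] MvPolynomial (Fin (n + 2)) K) = AlgHom.id K _ := by
    apply MvPolynomial.algHom_ext
    intro i
    rw [aeval_X, AlgHom.id_apply]
    simp [Matrix.one_apply]
  rw [h1, AlgHom.id_apply]

end Pool.Agent.TH214.RM
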