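import Pool.Agent.TH214.RM.Susp
import Pool.Agent.TH214.RM.Towr

/-! The form `b X ^ d` and the towers over it; assembly. -/

set_option autoImplicit false
set_option linter.unusedSectionVars false
set_option linter.unusedVariables false

open AlgebraicGeometry CategoryTheory CategoryTheory.Limits MvPolynomial NumberField

namespace Pool.Agent.TH214.RM

open Pool.Agent.H918R2.Quad Pool.Agent.W418

/-- The ideal-theoretic condition of regularity over `𝔭`. -/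
def Reg {O ι : Type} [CommRing O] [DecidableEq ι] (𝔭 : Ideal O) (G : MvPolynomial ι O) : Prop :=
  ∀ (s : ι) (Q : Ideal (MvPolynomial {j : ι // j ≠ s} O)), Q.IsPrime →
    (∀ r : O, C r ∈ Q ↔ r ∈ 𝔭) → deh s G ∈ Q → ∀ h, h ∉ Q → h * deh s G ∉ Q ^ 2

theorem Reg.crit {O ι : Type} [CommRing O] [DecidableEq ι] {𝔭 : Ideal O} {G : MvPolynomial ι O}
    (h : Reg 𝔭 G) : Crit 𝔭 G := fun s Q hQ hC hG => Or.inr (h s Q hQ hC hG)

theorem Crit.reg {O ι : Type} [CommRing O] [DecidableEq ι] {𝔭 : Ideal O} {G : MvPolynomial ι O}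
    (h : Crit 𝔭 G) : Reg 𝔭 G := by
  intro s Q hQ hC hG f hf hfG
  rcases h s Q hQ hC hG with ⟨j, hj⟩ | h1
  · have h2 : ∀ y ∈ Q ^ 2, pderiv j y ∈ Q := by
      intro y hy
      rw [pow_two] at hy
      refine Submodule.mul_induction_on hy ?_ ?_
      · intro a ha b hb
        rw [Derivation.leibniz, smul_eq_mul, smul_eq_mul]
        exact Q.add_mem (Q.mul_mem_right _ ha) (Q.mul_mem_right _ hb)
      · intro a b ha hb
        rw [map_add]
        exact Q.add_mem ha hb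
    have h3 := h2 _ hfG
    rw [Derivation.leibniz, smul_eq_mul, smul_eq_mul] at h3
    have h4 := Q.sub_mem h3 (Q.mul_mem_right (pderiv j f) hG)
    rw [add_sub_cancel_right] at h4
    exact (hQ.mem_or_mem h4).elim hf hj
  · exact h1 f hf hfG

theorem mem_sq_of_mul {O : Type} [CommRing O] (𝔭 : Ideal O) (hm : 𝔭.IsMaximal) (u b : O)
    (hu : u ∉ 𝔭) (h : u * b ∈ 𝔭 ^ 2) : b ∈ 𝔭 ^ 2 := by
  have hb : b ∈ 𝔭 := by
    have h1 : u * b ∈ 𝔭 := Ideal.pow_le_self (by norm_num) h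
    exact (hm.isPrime.mem_or_mem h1).resolve_left hu
  have h1 : 𝔭 ⊔ Ideal.span {u} = ⊤ := by
    refine hm.1.2 _ (lt_of_le_of_ne le_sup_left fun h => hu ?_)
    rw [h]
    exact Ideal.mem_sup_right (Ideal.mem_span_singleton_self u)
  have h2 : (1 : O) ∈ 𝔭 ⊔ Ideal.span {u} := by rw [h1]; trivial
  obtain ⟨c, hc, y, hy, hcy⟩ := Submodule.mem_sup.1 h2
  obtain ⟨v, rfl⟩ := Ideal.mem_span_singleton'.1 hy
  have h3 : b = c * b + v * (u * b) := by
    have h4 : b = (c + v * u) * b := by rw [hcy, one_mul]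
    nth_rewrite 1 [h4]
    ring
  rw [h3]
  refine Ideal.add_mem _ ?_ (Ideal.mul_mem_left _ _ h)
  rw [pow_two]
  exact Ideal.mul_mem_mul hc hb

section zero

variable {O : Type} [CommRing O]

theorem deh_zero_CX (d : ℕ) (b : O) :
    deh 0 (C b * X 0 ^ d : MvPolynomial (Fin 1) O) = C b := by
  rw [deh_mul, deh_pow, deh_X, tau_self, one_pow, mul_one]
  simp [deh]

theorem isEmpty_ne_zero : IsEmpty {j : Fin 1 // j ≠ 0} := ⟨fun j => j.2 (Subsingleton.elim _ _)⟩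

theorem eq_C_const (P : MvPolynomial {j : Fin 1 // j ≠ 0} O) : P = C (constantCoeff P) := by
  induction P using MvPolynomial.induction_on with
  | C a => rw [constantCoeff_C]
  | add p q hp hq => rw [map_add, map_add, ← hp, ← hq]
  | mul_X p i hp => exact (isEmpty_ne_zero.false i).elim

theorem const_mem_sq (𝔭 : Ideal O) (Q : Ideal (MvPolynomial {j : Fin 1 // j ≠ 0} O))
    (hC : ∀ r : O, C r ∈ Q ↔ r ∈ 𝔭) (y : MvPolynomial {j : Fin 1 // j ≠ 0} O) (hy : y ∈ Q ^ 2) :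
    constantCoeff y ∈ 𝔭 ^ 2 := by
  have h1 : (Q ^ 2).map (constantCoeff (σ := {j : Fin 1 // j ≠ 0}) (R := O)) ≤ 𝔭 ^ 2 := by
    rw [Ideal.map_pow]
    refine Ideal.pow_right_mono ?_ 2
    rw [Ideal.map_le_iff_le_comap]
    intro z hz
    rw [Ideal.mem_comap, ← hC, ← eq_C_const]
    exact hz
  exact h1 (Ideal.mem_map_of_mem _ hy)

theorem reg_zero (𝔭 : Ideal O) (hm : 𝔭.IsMaximal) (d : ℕ) (b : O) (hb : b ∉ 𝔭 ^ 2) :
    Reg 𝔭 (C b * X 0 ^ d : MvPolynomial (Fin 1) O) := by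
  intro s Q hQ hC hG h hh hcon
  have hs : s = 0 := Subsingleton.elim _ _
  subst hs
  rw [deh_zero_CX] at hcon
  have h1 := const_mem_sq 𝔭 Q hC _ hcon
  rw [map_mul, constantCoeff_C] at h1
  refine hb (mem_sq_of_mul 𝔭 hm _ b (fun h2 => hh ?_) h1)
  rw [eq_C_const h, hC]
  exact h2

theorem sec_zero (F : MvPolynomial (Fin (0 + 1)) O) : Sec F := by
  intro j
  have hj : j = 0 := Fin.ext (by have := j.2; omega)
  subst hj
  exact Ideal.le_radical (Ideal.subset_span (Or.inl rfl))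

theorem wild_zero (𝔭 : Ideal O) (hfin : Finite (O ⧸ 𝔭)) (d : ℕ) (b : O)
    (hb : ∀ p : ℕ, p.Prime → p ∣ d - 1 → (p : O) ∈ 𝔭 → ∀ c : O, b + c ^ p ∉ 𝔭 ^ 2) :
    Wild 𝔭 d (C b * X 0 ^ d : MvPolynomial (Fin (0 + 1)) O) := by
  intro p hp hpd hp𝔭 q hq hC hpj
  refine ⟨?_, ?_⟩
  · let φ : (O ⧸ 𝔭) →+* (MvPolynomial {j : Fin (0 + 1) // j ≠ 0} O ⧸ q) :=
      Ideal.Quotient.lift 𝔭 ((Ideal.Quotient.mk q).comp C) (fun a ha => by
        rw [RingHom.comp_apply, Ideal.Quotient.eq_zero_iff_mem]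
        exact (hC a).2 ha)
    refine Finite.of_surjective φ ?_
    intro y
    obtain ⟨P, rfl⟩ := Ideal.Quotient.mk_surjective y
    refine ⟨Ideal.Quotient.mk 𝔭 (constantCoeff P), ?_⟩
    change Ideal.Quotient.mk q (C (constantCoeff P)) = _
    rw [← eq_C_const P]
  · intro g hg
    have h1 : deh 0 (C b * X 0 ^ d : MvPolynomial (Fin (0 + 1)) O) = C b := deh_zero_CX d b
    rw [h1] at hg
    have h2 := const_mem_sq 𝔭 q hC _ hg
    rw [map_add, map_pow, constantCoeff_C] at h2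
    exact hb p hp hpd hp𝔭 _ h2

end zero

theorem smooth_zero {K : Type} [Field K] [CharZero K] (d : ℕ) (hd : 1 ≤ d) (b : K) (hb : b ≠ 0) :
    Smooth (C b * X 0 ^ d : MvPolynomial (Fin 1) K) := by
  intro j
  have hj : j = 0 := Subsingleton.elim _ _
  subst hj
  refine ⟨d - 1, ?_⟩
  have h1 : pderiv 0 (C b * X 0 ^ d : MvPolynomial (Fin 1) K) = C (b * d) * X 0 ^ (d - 1) := by
    rw [pderiv_C_mul, Derivation.leibniz_pow, pderiv_X_self, C_mul, map_natCast]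
    simp only [smul_eq_mul, nsmul_eq_mul, mul_one]
    ring
  have h2 : b * (d : K) ≠ 0 := by
    refine mul_ne_zero hb ?_
    rw [Nat.cast_ne_zero]
    omega
  have h3 : (X 0 ^ (d - 1) : MvPolynomial (Fin 1) K) = C (b * d)⁻¹ *
      pderiv 0 (C b * X 0 ^ d : MvPolynomial (Fin 1) K) := by
    rw [h1, ← mul_assoc, ← C_mul, inv_mul_cancel₀ h2, C_1, one_mul]
  rw [h3]
  exact Ideal.mul_mem_left _ _ (Ideal.subset_span ⟨0, rfl⟩)

theorem isHomogeneous_zero {O : Type} [CommRing O] (d : ℕ) (b : O) :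
    (C b * X 0 ^ d : MvPolynomial (Fin 1) O).IsHomogeneous d := by
  have h1 := (isHomogeneous_C (Fin 1) b).mul ((isHomogeneous_X O (0 : Fin 1)).pow d)
  rwa [zero_add, one_mul] at h1

section final

variable {K : Type} [Field K] [NumberField K]

theorem data_chain (d : ℕ) (hd : 3 ≤ d) {r : ℕ} (k : ℕ)
    (F : MvPolynomial (Fin (r + 1)) (𝓞 K)) (hF : F.IsHomogeneous d)
    (hsm : Smooth (map (algebraMap (𝓞 K) K) F)) (hsec : Sec F)
    (hreg : ∀ 𝔭 : Ideal (𝓞 K), 𝔭.IsPrime → 𝔭 ≠ ⊥ → Reg 𝔭 F ∧ Wild 𝔭 d F) :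
    (chain d k (map (algebraMap (𝓞 K) K) F)).IsHomogeneous d ∧
      Smooth (chain d k (map (algebraMap (𝓞 K) K) F)) ∧
      LocReg (𝓞 K) (chain d k (map (algebraMap (𝓞 K) K) F)) := by
  have hFK := hF.map (algebraMap (𝓞 K) K)
  refine ⟨?_, ?_, ?_⟩
  · rw [← map_chain, chain_eq]
    refine IsHomogeneous.map ?_ _
    have key : ∀ k, (towr d F k).IsHomogeneous d := by
      intro k
      induction k with
      | zero => exact isHomogeneous_up d (by omega) F hF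
      | succ k ih => exact isHomogeneous_up d (by omega) _ ih
    exact key k
  · rw [chain_eq]
    exact smooth_towr d hd _ (smooth_susp d hd _ hFK hsm (hsec.map' _)) k
  · rw [← map_chain, chain_eq]
    apply locReg_of_crit
    intro 𝔭 hp h0
    obtain ⟨h1, h2⟩ := hreg 𝔭 hp h0
    exact (crit_towr 𝔭 d hd F hF (crit_susp 𝔭 d hd F hF hsec h1.crit h2) k).2

theorem data_zero (d : ℕ) (hd : 3 ≤ d) (b : 𝓞 K) (hb : b ≠ 0)
    (hb2 : ∀ 𝔭 : Ideal (𝓞 K), 𝔭.IsPrime → 𝔭 ≠ ⊥ → b ∉ 𝔭 ^ 2 ∧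
      ∀ p : ℕ, p.Prime → p ∣ d - 1 → (p : 𝓞 K) ∈ 𝔭 → ∀ c : 𝓞 K, b + c ^ p ∉ 𝔭 ^ 2) :
    Smooth (map (algebraMap (𝓞 K) K) (C b * X 0 ^ d : MvPolynomial (Fin (0 + 1)) (𝓞 K))) ∧
      Sec (C b * X 0 ^ d : MvPolynomial (Fin (0 + 1)) (𝓞 K)) ∧
      ∀ 𝔭 : Ideal (𝓞 K), 𝔭.IsPrime → 𝔭 ≠ ⊥ →
        Reg 𝔭 (C b * X 0 ^ d : MvPolynomial (Fin (0 + 1)) (𝓞 K)) ∧
        Wild 𝔭 d (C b * X 0 ^ d : MvPolynomial (Fin (0 + 1)) (𝓞 K)) := by
  refine ⟨?_, sec_zero _, ?_⟩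
  · have h1 : map (algebraMap (𝓞 K) K) (C b * X 0 ^ d : MvPolynomial (Fin (0 + 1)) (𝓞 K)) =
        C (algebraMap (𝓞 K) K b) * X 0 ^ d := by
      rw [map_mul, map_C, map_pow, map_X]
    rw [h1]
    refine smooth_zero d (by omega) _ ?_
    intro h
    exact hb ((IsFractionRing.injective (𝓞 K) K) (by rw [h, map_zero]))
  · intro 𝔭 hp h0
    obtain ⟨h1, h2⟩ := hb2 𝔭 hp h0
    exact ⟨reg_zero 𝔭 (Ideal.IsPrime.isMaximal hp h0) d b h1,
      wild_zero 𝔭 (Ideal.finiteQuotientOfFreeOfNeBot 𝔭 h0) d b h2⟩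

end final

end Pool.Agent.TH214.RM
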