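import Pool.Agent.TH214.RM.LemL

/-! Squares of primes of a polynomial ring, general primes. -/

set_option autoImplicit false
set_option linter.unusedSectionVars false
set_option linter.unusedVariables false

namespace Pool.Agent.TH214.RM

attribute [local instance] Polynomial.algebra Polynomial.isLocalization in
theorem lemM {A : Type} [CommRing A] [IsNoetherianRing A] (q : Ideal A) (hq : q.IsPrime)
    (f : A) (hfq : f ∈ q) (hf : ∀ h, h ∉ q → h * f ∉ q ^ 2) (Q : Ideal (Polynomial A))
    (hQ : Q.IsPrime) (hQA : ∀ a, Polynomial.C a ∈ Q ↔ a ∈ q) (h : Polynomial A) (hh : h ∉ Q) :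
    h * Polynomial.C f ∉ Q ^ 2 := by
  intro hcon
  let L := Localization.AtPrime q
  let M : Submonoid (Polynomial A) := q.primeCompl.map (Polynomial.C : A →+* Polynomial A)
  have hloc : IsLocalization M (Polynomial L) := Polynomial.isLocalization q.primeCompl L
  have halg : algebraMap (Polynomial A) (Polynomial L) = Polynomial.mapRingHom (algebraMap A L) :=
    rfl
  have hdisj : Disjoint (M : Set (Polynomial A)) Q := by
    rw [Set.disjoint_left]
    rintro _ ⟨a, ha, rfl⟩ haQ
    exact ha ((hQA a).1 haQ)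
  let Q₁ : Ideal (Polynomial L) := Q.map (algebraMap (Polynomial A) (Polynomial L))
  have hQ₁ : Q₁.IsPrime := IsLocalization.isPrime_of_isPrime_disjoint M (Polynomial L) Q hQ hdisj
  have hcomap : Q₁.under (Polynomial A) = Q :=
    IsLocalization.under_map_of_isPrime_disjoint M (Polynomial L) hQ hdisj
  have hmem : ∀ w : Polynomial A, algebraMap (Polynomial A) (Polynomial L) w ∈ Q₁ ↔ w ∈ Q := by
    intro w
    conv_rhs => rw [← hcomap]
    rfl
  have hC : ∀ a : A, algebraMap (Polynomial A) (Polynomial L) (Polynomial.C a) =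
      Polynomial.C (algebraMap A L a) := by
    intro a
    rw [halg, Polynomial.coe_mapRingHom, Polynomial.map_C]
  have hL : ∀ a : L, Polynomial.C a ∈ Q₁ ↔ a ∈ IsLocalRing.maximalIdeal L := by
    intro a
    obtain ⟨⟨b, s⟩, hbs⟩ := IsLocalization.surj q.primeCompl a
    have hs : IsUnit (algebraMap A L s) := IsLocalization.map_units L s
    have h1 : Polynomial.C a ∈ Q₁ ↔ Polynomial.C (a * algebraMap A L s) ∈ Q₁ := by
      rw [Polynomial.C_mul, Ideal.mul_unit_mem_iff_mem _ (hs.map Polynomial.C)]
    have h2 : a ∈ IsLocalRing.maximalIdeal L ↔ a * algebraMap A L s ∈ IsLocalRing.maximalIdeal L := by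
      rw [Ideal.mul_unit_mem_iff_mem _ hs]
    have hbs' : a * algebraMap A L s = algebraMap A L b := hbs
    rw [h1, h2, hbs', ← hC, hmem, hQA]
    exact (IsLocalization.AtPrime.to_map_mem_maximal_iff L q b).symm
  have hf1 : algebraMap A L f ∈ IsLocalRing.maximalIdeal L :=
    (IsLocalization.AtPrime.to_map_mem_maximal_iff L q f).2 hfq
  have hf2 : algebraMap A L f ∉ IsLocalRing.maximalIdeal L ^ 2 := by
    intro h1
    rw [← Localization.AtPrime.map_eq_maximalIdeal, ← Ideal.map_pow] at h1
    obtain ⟨⟨y, s⟩, hys⟩ := (IsLocalization.mem_map_algebraMap_iff q.primeCompl L).1 h1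
    rw [← map_mul] at hys
    obtain ⟨c, hc⟩ := (IsLocalization.eq_iff_exists q.primeCompl L).1 hys
    refine hf (c * s) (fun h => ?_) ?_
    · rcases (hq.mem_or_mem h) with h | h
      · exact c.2 h
      · exact s.2 h
    · have h2 : (c : A) * s * f = c * y := by
        rw [← hc]
        ring
      rw [h2]
      exact Ideal.mul_mem_left _ _ y.2
  have hh1 : algebraMap (Polynomial A) (Polynomial L) h ∉ Q₁ := fun h1 => hh ((hmem h).1 h1)
  apply lemL (IsLocalRing.maximalIdeal L) inferInstance (algebraMap A L f) hf1 hf2 Q₁ hQ₁ hL _ hh1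
  rw [← hC, ← map_mul]
  have h1 := Ideal.mem_map_of_mem (algebraMap (Polynomial A) (Polynomial L)) hcon
  rwa [Ideal.map_pow] at h1

end Pool.Agent.TH214.RM
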