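import Pool.Agent.TH214.RM.Susp
import Pool.Agent.TH214.RM.LemM

/-! The hypersurface `x ^ (d - 1) * y_0 + F(y) = 0`, with a regular section `y_0 = 0`. -/

set_option autoImplicit false
set_option linter.unusedSectionVars false
set_option linter.unusedVariables false

namespace Pool.Agent.TH214.RM

open Pool.Agent.H918R2.Quad MvPolynomial

/-- The section `F(0, y_1, ..., y_r)`. -/
noncomputable def sect {O : Type} [CommRing O] {r : ℕ} (F : MvPolynomial (Fin (r + 1)) O) :
    MvPolynomial (Fin r) O :=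
  aeval (Fin.cases (motive := fun _ => MvPolynomial (Fin r) O) 0 (fun i => X i)) F

section

variable {O : Type} [CommRing O] {r : ℕ}

theorem sect_C (a : O) : sect (C a : MvPolynomial (Fin (r + 1)) O) = C a := by
  unfold sect
  rw [aeval_C]
  rfl

theorem sect_add (P Q : MvPolynomial (Fin (r + 1)) O) : sect (P + Q) = sect P + sect Q :=
  map_add _ _ _

theorem sect_mul (P Q : MvPolynomial (Fin (r + 1)) O) : sect (P * Q) = sect P * sect Q :=
  map_mul _ _ _

theorem sect_X_zero : sect (X 0 : MvPolynomial (Fin (r + 1)) O) = 0 := by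
  unfold sect
  rw [aeval_X]
  rfl

theorem sect_X_succ (i : Fin r) : sect (X i.succ : MvPolynomial (Fin (r + 1)) O) = X i := by
  unfold sect
  rw [aeval_X]
  rfl

theorem pderiv_sect (j : Fin r) (F : MvPolynomial (Fin (r + 1)) O) :
    pderiv j (sect F) = sect (pderiv j.succ F) := by
  induction F using MvPolynomial.induction_on with
  | C a => rw [sect_C, pderiv_C, pderiv_C]; exact (map_zero _).symm
  | add p q hp hq => rw [sect_add, map_add, hp, hq, map_add, sect_add]
  | mul_X p i hp =>
    rw [sect_mul, Derivation.leibniz, Derivation.leibniz, sect_add]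
    simp only [smul_eq_mul]
    rw [sect_mul, sect_mul, hp]
    congr 1
    congr 1
    refine Fin.cases ?_ (fun i => ?_) i
    · rw [sect_X_zero, map_zero, pderiv_X_of_ne (Fin.succ_ne_zero j).symm]
      exact (map_zero _).symm
    · rw [sect_X_succ]
      by_cases h : i = j
      · rw [h, pderiv_X_self, pderiv_X_self]
        exact (map_one _).symm
      · rw [pderiv_X_of_ne h, pderiv_X_of_ne (fun h2 => h (Fin.succ_injective _ h2))]
        exact (map_zero _).symm

theorem sub_sect_mem (I : Ideal (MvPolynomial (Fin (r + 1)) O)) (h0 : X 0 ∈ I)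
    (F : MvPolynomial (Fin (r + 1)) O) : F - rename Fin.succ (sect F) ∈ I := by
  induction F using MvPolynomial.induction_on with
  | C a => rw [sect_C, rename_C, sub_self]; exact I.zero_mem
  | add p q hp hq =>
    rw [sect_add, map_add]
    have h1 : p + q - (rename Fin.succ (sect p) + rename Fin.succ (sect q)) =
      (p - rename Fin.succ (sect p)) + (q - rename Fin.succ (sect q)) := by ring
    rw [h1]
    exact I.add_mem hp hq
  | mul_X p i hp =>
    rw [sect_mul, map_mul]
    refine Fin.cases ?_ (fun i => ?_) i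
    · rw [sect_X_zero, map_zero, mul_zero, sub_zero]
      exact I.mul_mem_left _ h0
    · rw [sect_X_succ, rename_X, ← sub_mul]
      exact I.mul_mem_right _ hp

theorem isHomogeneous_sect (d : ℕ) (F : MvPolynomial (Fin (r + 1)) O) (hF : F.IsHomogeneous d) :
    (sect F).IsHomogeneous d := by
  have h1 := hF.aeval (Fin.cases (motive := fun _ => MvPolynomial (Fin r) O) 0 (fun i => X i))
    (n := 1) (fun i => by
      refine Fin.cases ?_ (fun i => ?_) i
      · exact isHomogeneous_zero _ _ _
      · exact isHomogeneous_X _ _)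
  rwa [one_mul] at h1

end

theorem map_sect {O K : Type} [CommRing O] [CommRing K] (φ : O →+* K) {r : ℕ}
    (F : MvPolynomial (Fin (r + 1)) O) : map φ (sect F) = sect (map φ F) := by
  induction F using MvPolynomial.induction_on with
  | C a => rw [sect_C, map_C, map_C, sect_C]
  | add p q hp hq => rw [sect_add, map_add, hp, hq, map_add, sect_add]
  | mul_X p i hp =>
    rw [sect_mul, map_mul, hp, map_mul, sect_mul, map_X]
    congr 1
    refine Fin.cases ?_ (fun i => ?_) i
    · rw [sect_X_zero, sect_X_zero, map_zero]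
    · rw [sect_X_succ, sect_X_succ, map_X]

/-- At the points where `y_0 = 0` and another coordinate `y_t` is invertible. -/
theorem crit_section {O : Type} [CommRing O] [IsNoetherianRing O] (𝔭 : Ideal O)
    (d : ℕ) (hd : 3 ≤ d) {r : ℕ} (F : MvPolynomial (Fin (r + 1)) O)
    (hsec : Crit 𝔭 (sect F)) (t' : Fin r)
    (Q : Ideal (MvPolynomial {j // j ≠ t'.succ.succ} O)) (hQ : Q.IsPrime)
    (hCQ : ∀ r : O, C r ∈ Q ↔ r ∈ 𝔭) (hGQ : deh t'.succ.succ (up d F) ∈ Q)
    (hall : ∀ j, deh t'.succ.succ (pderiv j (up d F)) ∈ Q)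
    (h1Q : (tau t'.succ.succ 1 : MvPolynomial {i // i ≠ t'.succ.succ} O) ∈ Q)
    (h : MvPolynomial {i // i ≠ t'.succ.succ} O) (hh : h ∉ Q) :
    h * deh t'.succ.succ (up d F) ∉ Q ^ 2 := by
  intro hcon
  let t : Fin (r + 2) := t'.succ.succ
  let A := MvPolynomial {j : Fin r // j ≠ t'} O
  let B := MvPolynomial {j : Fin (r + 2) // j ≠ t} O
  have h0t : (0 : Fin (r + 2)) ≠ t := (Fin.succ_ne_zero _).symm
  have h1t : (1 : Fin (r + 2)) ≠ t := by
    intro h2
    have h3 : (Fin.succ (0 : Fin (r + 1))) = t'.succ.succ := h2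
    exact (Fin.succ_ne_zero t').symm (Fin.succ_injective _ h3)
  let κ : A →ₐ[O] B := rename (fun j => ⟨j.1.succ.succ, fun h2 =>
    j.2 (Fin.succ_injective _ (Fin.succ_injective _ h2))⟩)
  let ψ : Polynomial A →+* B := Polynomial.eval₂RingHom κ.toRingHom (tau t 0)
  let e : B →ₐ[O] Polynomial A :=
    aeval (fun j => Fin.cases (motive := fun _ => Polynomial A) Polynomial.X
      (fun i => Fin.cases (motive := fun _ => Polynomial A) 0
        (fun l => Polynomial.C (tau t' l)) i) j.1)
  have hψC : ∀ a : A, ψ (Polynomial.C a) = κ a := fun a => Polynomial.eval₂_C _ _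
  have hψX : ψ Polynomial.X = tau t 0 := Polynomial.eval₂_X _ _
  have he0 : e (tau t 0) = Polynomial.X := by
    rw [tau_ne t 0 h0t]
    change aeval _ (X _) = _
    rw [aeval_X]
    rfl
  have he1 : e (tau t 1) = 0 := by
    rw [tau_ne t 1 h1t]
    change aeval _ (X _) = _
    rw [aeval_X]
    rfl
  have he2 : ∀ l : Fin r, e (tau t l.succ.succ) = Polynomial.C (tau t' l) := by
    intro l
    by_cases hl : l = t'
    · subst hl
      rw [tau_self, tau_self, map_one, map_one]
    · rw [tau_ne t l.succ.succ (fun h2 => hl (Fin.succ_injective _ (Fin.succ_injective _ h2)))]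
      change aeval _ (X _) = _
      rw [aeval_X]
      rfl
  have hκ : ∀ l : Fin r, κ (tau t' l) = tau t l.succ.succ := by
    intro l
    by_cases hl : l = t'
    · subst hl
      rw [tau_self, tau_self, map_one]
    · rw [tau_ne t' l hl,
        tau_ne t l.succ.succ (fun h2 => hl (Fin.succ_injective _ (Fin.succ_injective _ h2)))]
      change rename _ (X _) = _
      rw [rename_X]
  have heC : ∀ a : O, e (C a) = Polynomial.C (C a) := by
    intro a
    change aeval _ (C a) = _
    rw [aeval_C]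
    rfl
  have hψe : ∀ w : B, w - ψ (e w) ∈ Q := by
    intro w
    induction w using MvPolynomial.induction_on with
    | C a =>
      rw [heC, hψC]
      have h2 : κ (C a) = C a := rename_C _ _
      rw [h2, sub_self]
      exact Q.zero_mem
    | add p q hp hq =>
      rw [map_add, map_add]
      have h2 : p + q - (ψ (e p) + ψ (e q)) = (p - ψ (e p)) + (q - ψ (e q)) := by ring
      rw [h2]
      exact Q.add_mem hp hq
    | mul_X p i hp =>
      rw [map_mul, map_mul]
      have h2 : p * X i - ψ (e p) * ψ (e (X i)) =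
          (p - ψ (e p)) * X i + ψ (e p) * (X i - ψ (e (X i))) := by ring
      rw [h2]
      refine Q.add_mem (Q.mul_mem_right _ hp) (Q.mul_mem_left _ ?_)
      obtain ⟨j, hj⟩ := i
      have h3 : (X ⟨j, hj⟩ : B) = tau t j := (tau_ne t j hj).symm
      rw [h3]
      refine Fin.cases ?_ (fun i => ?_) j
      · rw [he0, hψX, sub_self]
        exact Q.zero_mem
      · refine Fin.cases ?_ (fun l => ?_) i
        · change tau t 1 - ψ (e (tau t 1)) ∈ Q
          rw [he1, map_zero, sub_zero]
          exact h1Q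
        · rw [he2, hψC, hκ, sub_self]
          exact Q.zero_mem
  have hedeh : ∀ P : MvPolynomial (Fin (r + 1)) O,
      e (deh t (rename Fin.succ P)) = Polynomial.C (deh t' (sect P)) := by
    intro P
    induction P using MvPolynomial.induction_on with
    | C a =>
      rw [rename_C, sect_C]
      have h2 : deh t (C a : MvPolynomial (Fin (r + 2)) O) = C a := by simp [deh]
      have h3 : deh t' (C a : MvPolynomial (Fin r) O) = C a := by simp [deh]
      rw [h2, h3, heC]
    | add p q hp hq => rw [map_add, deh_add, map_add, hp, hq, sect_add, deh_add, map_add]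
    | mul_X p i hp =>
      rw [map_mul, deh_mul, map_mul, hp, sect_mul, deh_mul, map_mul, rename_X, deh_X]
      congr 1
      refine Fin.cases ?_ (fun l => ?_) i
      · rw [sect_X_zero]
        have h2 : deh t' (0 : MvPolynomial (Fin r) O) = 0 := map_zero _
        rw [h2, map_zero]
        exact he1
      · rw [sect_X_succ, deh_X, he2]
  let Q₁ : Ideal (Polynomial A) := Q.comap ψ
  have hQ₁ : Q₁.IsPrime := Ideal.comap_isPrime _ _
  let q : Ideal A := Q.comap κ.toRingHom
  have hq : q.IsPrime := Ideal.comap_isPrime _ _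
  have hA : ∀ a, Polynomial.C a ∈ Q₁ ↔ a ∈ q := by
    intro a
    rw [Ideal.mem_comap, hψC]
    rfl
  have hmem : ∀ w : B, e w ∈ Q₁ ↔ w ∈ Q := by
    intro w
    rw [Ideal.mem_comap]
    constructor
    · intro h2
      have h3 := Q.add_mem (hψe w) h2
      rwa [sub_add_cancel] at h3
    · intro h2
      have h3 := Q.sub_mem h2 (hψe w)
      rwa [sub_sub_cancel] at h3
  have heG : e (deh t (up d F)) = Polynomial.C (deh t' (sect F)) := by
    have h2 : deh t (up d F) = tau t 0 ^ (d - 1) * tau t 1 + deh t (rename Fin.succ F) := by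
      unfold up
      rw [deh_add, deh_mul, deh_pow, deh_X, deh_X]
    rw [h2, map_add, map_mul, he1, mul_zero, zero_add, hedeh]
  have hfq : deh t' (sect F) ∈ q := by
    rw [← hA, ← heG, hmem]
    exact hGQ
  have hCq : ∀ r : O, C r ∈ q ↔ r ∈ 𝔭 := by
    intro r
    rw [← hCQ]
    change κ (C r) ∈ Q ↔ _
    have h2 : κ (C r) = C r := rename_C _ _
    rw [h2]
  rcases hsec t' q hq hCq hfq with ⟨j, hj⟩ | h2
  · apply hj
    have hj1 : (j : Fin r).succ ≠ 0 := Fin.succ_ne_zero _
    rw [pderiv_deh, pderiv_sect, ← hA, ← hedeh, hmem, ← pderiv_succ_up d F _ hj1]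
    exact hall _
  · have hhe : e h ∉ Q₁ := fun h3 => hh ((hmem h).1 h3)
    apply lemM q hq (deh t' (sect F)) hfq h2 Q₁ hQ₁ hA (e h) hhe
    rw [← heG, ← map_mul]
    have h3 : (Q ^ 2).map e.toRingHom ≤ Q₁ ^ 2 := by
      rw [Ideal.map_pow]
      refine Ideal.pow_right_mono ?_ 2
      rw [Ideal.map_le_iff_le_comap]
      intro g hg
      exact (hmem g).2 hg
    exact h3 (Ideal.mem_map_of_mem _ hcon)

/-- Regularity of `x ^ (d - 1) * y_0 + F(y) = 0`. -/
theorem crit_susp2 {O : Type} [CommRing O] [IsNoetherianRing O] (𝔭 : Ideal O) [𝔭.IsPrime]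
    (d : ℕ) (hd : 3 ≤ d) {r : ℕ} (F : MvPolynomial (Fin (r + 1)) O) (hF : F.IsHomogeneous d)
    (hsec : Crit 𝔭 (sect F)) (hreg : Crit 𝔭 F) (hw : Wild 𝔭 d F) : Crit 𝔭 (up d F) := by
  intro s Q hQ hCQ hGQ
  by_contra hcon
  push Not at hcon
  obtain ⟨hpd, f, hf, hfG⟩ := hcon
  have hGh := isHomogeneous_up d (by omega) F hF
  have hall := all_pderiv_mem _ d hGh s Q hGQ hpd
  by_cases ha0 : (tau s 0 : MvPolynomial {i // i ≠ s} O) ∈ Q
  · exact crit_retract 𝔭 d hd F hreg s Q hQ hCQ hGQ hall ha0 f hf hfG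
  · by_cases ha1 : (tau s 1 : MvPolynomial {i // i ≠ s} O) ∈ Q
    · -- the coordinate `y_0` vanishes
      let ρ : MvPolynomial (Fin (r + 1)) O →ₐ[O] MvPolynomial {j // j ≠ s} O :=
        (aeval (tau s)).comp (rename Fin.succ)
      let P₀ : Ideal (MvPolynomial (Fin (r + 1)) O) := Q.comap ρ.toRingHom
      have hP₀ : P₀.IsPrime := Ideal.comap_isPrime _ _
      have hmem : ∀ P, P ∈ P₀ ↔ deh s (rename Fin.succ P) ∈ Q := fun P => Iff.rfl
      have hX0 : X 0 ∈ P₀ := by
        rw [hmem, rename_X, deh_X]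
        exact ha1
      have hex : ∃ j, X j ∉ P₀ := by
        by_contra hX
        push Not at hX
        apply ha0
        have h3 : pderiv 0 F ∈ P₀ :=
          mem_of_homog P₀ hX _ (d - 1) (by omega) hF.pderiv
        rw [hmem] at h3
        have h4 := hall 1
        rw [pderiv_one_up, deh_add, deh_pow, deh_X] at h4
        have h5 := Q.sub_mem h4 h3
        rw [add_sub_cancel_right] at h5
        exact hQ.mem_of_pow_mem _ h5
      obtain ⟨j, hj⟩ := hex
      have hj0 : j ≠ 0 := by
        rintro rfl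
        exact hj hX0
      obtain ⟨t', rfl⟩ := Fin.exists_succ_eq.2 hj0
      rw [hmem, rename_X, deh_X] at hj
      obtain ⟨Q', hQ', hCQ', hiff, hmain⟩ := chart_change 𝔭 s t'.succ.succ Q hQ hCQ hj
      refine hmain (up d F) d hGh ?_ f hf hfG
      intro h hh
      refine crit_section 𝔭 d hd F hsec t' Q' hQ' hCQ' ((hiff _ d hGh).2 hGQ)
        (fun j => (hiff _ (d - 1) hGh.pderiv).2 (hall j)) ?_ h hh
      have h6 := (hiff (X 1) 1 (isHomogeneous_X O 1)).2 (by rw [deh_X]; exact ha1)
      rwa [deh_X] at h6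
    · -- the coordinate `y_0` is invertible
      have hd1 : ((d - 1 : ℕ) : O) ∈ 𝔭 := by
        have h0 := hall 0
        rw [pderiv_zero_up, deh_mul, deh_mul, deh_pow, deh_natCast, deh_X, deh_X] at h0
        have h1 := (hQ.mem_or_mem h0).resolve_right ha1
        have h2 := (hQ.mem_or_mem h1).resolve_right (fun h => ha0 (hQ.mem_of_pow_mem _ h))
        rw [← hCQ, map_natCast]
        exact h2
      obtain ⟨p, hp, hpdvd, hp𝔭⟩ := exists_prime_mem 𝔭 (d - 1) (by omega) hd1
      obtain ⟨Q', hQ', hCQ', hiff, hmain⟩ := chart_change 𝔭 s (0 : Fin (r + 1)).succ Q hQ hCQ ha1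
      refine hmain (up d F) d hGh ?_ f hf hfG
      intro h hh
      refine crit_wild 𝔭 d hd F p hp hpdvd hp𝔭 (hw p hp hpdvd hp𝔭) Q' hQ' hCQ'
        ((hiff _ d hGh).2 hGQ) (fun j => (hiff _ (d - 1) hGh.pderiv).2 (hall j)) h hh

/-- Smoothness of `x ^ (d - 1) * y_0 + F(y) = 0` over a field of characteristic zero. -/
theorem smooth_susp2 {K : Type} [Field K] [CharZero K] (d : ℕ) (hd : 3 ≤ d) {r : ℕ}
    (F : MvPolynomial (Fin (r + 1)) K) (hF : F.IsHomogeneous d) (hsm : Smooth F)
    (hsec : Smooth (sect F)) : Smooth (up d F) := by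
  refine smooth_susp d hd F hF hsm ?_
  intro i
  rw [Ideal.radical_eq_sInf, Submodule.mem_sInf]
  rintro P ⟨hPle, hP⟩
  have hX0 : X 0 ∈ P := hPle (Ideal.subset_span (Or.inl rfl))
  have hpj : ∀ j, j ≠ 0 → pderiv j F ∈ P := fun j hj =>
    hPle (Ideal.subset_span (Or.inr (Or.inr ⟨j, hj, rfl⟩)))
  let P' : Ideal (MvPolynomial (Fin r) K) := Ideal.comap (rename Fin.succ :
    MvPolynomial (Fin r) K →ₐ[K] MvPolynomial (Fin (r + 1)) K).toRingHom P
  have hP' : P'.IsPrime := Ideal.comap_isPrime _ _
  have hmem' : ∀ f, f ∈ P' ↔ rename Fin.succ f ∈ P := fun f => Iff.rfl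
  have h1 : Ideal.span (Set.range fun j => pderiv j (sect F)) ≤ P' := by
    rw [Ideal.span_le]
    rintro _ ⟨j, rfl⟩
    change pderiv j (sect F) ∈ P'
    rw [hmem', pderiv_sect]
    have h2 := P.sub_mem (hpj j.succ (Fin.succ_ne_zero _)) (sub_sect_mem P hX0 (pderiv j.succ F))
    rwa [sub_sub_cancel] at h2
  refine Fin.cases hX0 (fun i => ?_) i
  have h2 := (Ideal.IsPrime.radical_le_iff hP').2 h1 (hsec i)
  rw [hmem', rename_X] at h2
  exact h2

end Pool.Agent.TH214.RM
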