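import Pool.Agent.TH214.RM.Base
import Pool.Agent.TH214.RM.Sect

/-! Assembly for the towers with a regular section. -/

set_option autoImplicit false
set_option linter.unusedSectionVars false
set_option linter.unusedVariables false

open AlgebraicGeometry CategoryTheory CategoryTheory.Limits MvPolynomial NumberField

namespace Pool.Agent.TH214.RM

open Pool.Agent.H918R2.Quad Pool.Agent.W418

section final

variable {K : Type} [Field K] [NumberField K]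

theorem data_chain2 (d : ℕ) (hd : 3 ≤ d) {r : ℕ} (k : ℕ)
    (F : MvPolynomial (Fin (r + 1)) (𝓞 K)) (hF : F.IsHomogeneous d)
    (hsm : Smooth (map (algebraMap (𝓞 K) K) F))
    (hsec : Smooth (map (algebraMap (𝓞 K) K) (sect F)))
    (hreg : ∀ 𝔭 : Ideal (𝓞 K), 𝔭.IsPrime → 𝔭 ≠ ⊥ → Reg 𝔭 F ∧ Reg 𝔭 (sect F) ∧ Wild 𝔭 d F) :
    (chain d k (map (algebraMap (𝓞 K) K) F)).IsHomogeneous d ∧
      Smooth (chain d k (map (algebraMap (𝓞 K) K) F)) ∧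
      LocReg (𝓞 K) (chain d k (map (algebraMap (𝓞 K) K) F)) := by
  have hFK := hF.map (algebraMap (𝓞 K) K)
  rw [map_sect] at hsec
  refine ⟨?_, ?_, ?_⟩
  · rw [← map_chain, chain_eq]
    refine IsHomogeneous.map ?_ _
    have key : ∀ k, (towr d F k).IsHomogeneous d := by
      intro k
      induction k with
      | zero => exact isHomogeneous_up d (by omega) F hF
      | succ k ih => exact isHomogeneous_up d (by omega) _ ih
    exact key k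
  · rw [chain_eq]
    exact smooth_towr d hd _ (smooth_susp2 d hd _ hFK hsm hsec) k
  · rw [← map_chain, chain_eq]
    apply locReg_of_crit
    intro 𝔭 hp h0
    obtain ⟨h1, h2, h3⟩ := hreg 𝔭 hp h0
    exact (crit_towr 𝔭 d hd F hF (crit_susp2 𝔭 d hd F hF h2.crit h1.crit h3) k).2

theorem data_zero2 (d : ℕ) (hd : 3 ≤ d) (b : 𝓞 K) (hb : b ≠ 0)
    (hb2 : ∀ 𝔭 : Ideal (𝓞 K), 𝔭.IsPrime → 𝔭 ≠ ⊥ → b ∉ 𝔭 ^ 2 ∧
      ∀ p : ℕ, p.Prime → p ∣ d - 1 → (p : 𝓞 K) ∈ 𝔭 → ∀ c : 𝓞 K, b + c ^ p ∉ 𝔭 ^ 2) :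
    Smooth (map (algebraMap (𝓞 K) K) (C b * X 0 ^ d : MvPolynomial (Fin (0 + 1)) (𝓞 K))) ∧
      Smooth (map (algebraMap (𝓞 K) K)
        (sect (C b * X 0 ^ d : MvPolynomial (Fin (0 + 1)) (𝓞 K)))) ∧
      ∀ 𝔭 : Ideal (𝓞 K), 𝔭.IsPrime → 𝔭 ≠ ⊥ →
        Reg 𝔭 (C b * X 0 ^ d : MvPolynomial (Fin (0 + 1)) (𝓞 K)) ∧
        Reg 𝔭 (sect (C b * X 0 ^ d : MvPolynomial (Fin (0 + 1)) (𝓞 K))) ∧
        Wild 𝔭 d (C b * X 0 ^ d : MvPolynomial (Fin (0 + 1)) (𝓞 K)) := by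
  obtain ⟨h1, h2, h3⟩ := data_zero d hd b hb hb2
  exact ⟨h1, fun i => i.elim0, fun 𝔭 hp h0 => ⟨(h3 𝔭 hp h0).1, fun s => s.elim0, (h3 𝔭 hp h0).2⟩⟩

end final

end Pool.Agent.TH214.RM
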