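import Pool.Agent.TH214.RM.Ell

/-! Towers over a regular hypersurface `x ^ (d - 1) y_0 + F(y) = 0`. -/

set_option autoImplicit false
set_option linter.unusedSectionVars false
set_option linter.unusedVariables false

open MvPolynomial NumberField

namespace Pool.Agent.TH214.RM

open Pool.Agent.H918R2.Quad

variable {K : Type} [Field K] [NumberField K]

theorem data_chain3 (d : ℕ) (hd : 3 ≤ d) {r : ℕ} (k : ℕ)
    (F : MvPolynomial (Fin (r + 1)) (𝓞 K)) (hF : F.IsHomogeneous d)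
    (hsm : Smooth (chain d 0 (map (algebraMap (𝓞 K) K) F)))
    (hreg : ∀ 𝔭 : Ideal (𝓞 K), 𝔭.IsPrime → 𝔭 ≠ ⊥ → Reg 𝔭 (chain d 0 F)) :
    (chain d k (map (algebraMap (𝓞 K) K) F)).IsHomogeneous d ∧
      Smooth (chain d k (map (algebraMap (𝓞 K) K) F)) ∧
      LocReg (𝓞 K) (chain d k (map (algebraMap (𝓞 K) K) F)) := by
  rw [chain_eq] at hsm
  refine ⟨?_, ?_, ?_⟩
  · rw [← map_chain, chain_eq]
    refine IsHomogeneous.map ?_ _
    have key : ∀ k, (towr d F k).IsHomogeneous d := by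
      intro k
      induction k with
      | zero => exact isHomogeneous_up d (by omega) F hF
      | succ k ih => exact isHomogeneous_up d (by omega) _ ih
    exact key k
  · rw [chain_eq]
    exact smooth_towr d hd _ hsm k
  · rw [← map_chain, chain_eq]
    apply locReg_of_crit
    intro 𝔭 hp h0
    have h1 := hreg 𝔭 hp h0
    rw [chain_eq] at h1
    exact (crit_towr 𝔭 d hd F hF h1.crit k).2

theorem base_of_adm (d : ℕ) (hd : 3 ≤ d) {r : ℕ}
    (F : MvPolynomial (Fin (r + 1)) (𝓞 K)) (hF : F.IsHomogeneous d)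
    (hsm : Smooth (map (algebraMap (𝓞 K) K) F))
    (hsec : Smooth (map (algebraMap (𝓞 K) K) (sect F)))
    (hreg : ∀ 𝔭 : Ideal (𝓞 K), 𝔭.IsPrime → 𝔭 ≠ ⊥ → Reg 𝔭 F ∧ Reg 𝔭 (sect F) ∧ Wild 𝔭 d F) :
    Smooth (chain d 0 (map (algebraMap (𝓞 K) K) F)) ∧
      ∀ 𝔭 : Ideal (𝓞 K), 𝔭.IsPrime → 𝔭 ≠ ⊥ → Reg 𝔭 (chain d 0 F) := by
  have hFK := hF.map (algebraMap (𝓞 K) K)
  rw [map_sect] at hsec
  refine ⟨?_, ?_⟩
  · rw [chain_eq]
    exact smooth_susp2 d hd _ hFK hsm hsec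
  · intro 𝔭 hp h0
    obtain ⟨h1, h2, h3⟩ := hreg 𝔭 hp h0
    rw [chain_eq]
    exact (crit_susp2 𝔭 d hd F hF h2.crit h1.crit h3).reg

end Pool.Agent.TH214.RM
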