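import Pool.Agent.TH214.RM.Base2

/-! The binary forms `b X ^ d + c Y ^ d`. -/

set_option autoImplicit false
set_option linter.unusedSectionVars false
set_option linter.unusedVariables false

namespace Pool.Agent.TH214.RM

open Pool.Agent.H918R2.Quad MvPolynomial

theorem uni {O : Type} [CommRing O] [IsNoetherianRing O] (𝔭 : Ideal O) (hm : 𝔭.IsMaximal)
    (hfin : Finite (O ⧸ 𝔭)) (d : ℕ) (hd : 2 ≤ d) (u v : O) (h1 : u ∉ 𝔭 ^ 2)
    (h2 : u ∉ 𝔭 ∨ v ∉ 𝔭)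
    (h3 : ∀ p : ℕ, p.Prime → p ∣ d → (p : O) ∈ 𝔭 → ∀ e : O, u + v * e ^ p ∉ 𝔭 ^ 2)
    (Q : Ideal (Polynomial O)) (hQ : Q.IsPrime) (hQ𝔭 : ∀ a, Polynomial.C a ∈ Q ↔ a ∈ 𝔭)
    (hE : Polynomial.C u + Polynomial.C v * Polynomial.X ^ d ∈ Q)
    (hpd : Polynomial.C (v * d) * Polynomial.X ^ (d - 1) ∈ Q) (h : Polynomial O) (hh : h ∉ Q) :
    h * (Polynomial.C u + Polynomial.C v * Polynomial.X ^ d) ∉ Q ^ 2 := by
  intro hcon
  have hp := hm.isPrime
  by_cases hX : (Polynomial.X : Polynomial O) ∈ Q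
  · have hX2 : Polynomial.C v * Polynomial.X ^ d ∈ Q ^ 2 :=
      Ideal.mul_mem_left _ _ (Ideal.pow_le_pow_right hd (Ideal.pow_mem_pow hX d))
    have hu : u ∈ 𝔭 := by
      rw [← hQ𝔭]
      have h4 := Q.sub_mem hE (Ideal.pow_le_self (by norm_num) hX2)
      rwa [add_sub_cancel_right] at h4
    apply lemL 𝔭 hm u hu h1 Q hQ hQ𝔭 h hh
    have h4 := (Q ^ 2).sub_mem hcon (Ideal.mul_mem_left _ h hX2)
    rwa [mul_add, add_sub_cancel_right] at h4
  · have h4 : v * d ∈ 𝔭 := by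
      rw [← hQ𝔭]
      exact (hQ.mem_or_mem hpd).resolve_right fun h5 => hX (hQ.mem_of_pow_mem _ h5)
    have hv : v ∉ 𝔭 := by
      intro hv
      have h5 : Polynomial.C v * Polynomial.X ^ d ∈ Q := Q.mul_mem_right _ ((hQ𝔭 v).2 hv)
      have h6 := Q.sub_mem hE h5
      rw [add_sub_cancel_right, hQ𝔭] at h6
      exact h2.elim (fun h7 => h7 h6) (fun h7 => h7 hv)
    have hd𝔭 : (d : O) ∈ 𝔭 := (hp.mem_or_mem h4).resolve_left hv
    obtain ⟨p, hpp, ⟨e', he'⟩, hp𝔭⟩ := exists_prime_mem 𝔭 d (by omega) hd𝔭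
    have hpQ : (p : Polynomial O) ∈ Q := by
      have h5 := (hQ𝔭 (p : O)).2 hp𝔭
      rwa [map_natCast] at h5
    obtain ⟨r, hr⟩ : ∃ r : O, u + v * r ^ p ∈ 𝔭 := by
      let _ : Field (O ⧸ 𝔭) := Ideal.Quotient.field 𝔭
      have : Fact p.Prime := ⟨hpp⟩
      have : CharP (O ⧸ 𝔭) p := by
        rw [CharP.charP_iff_prime_eq_zero hpp]
        have h1 := Ideal.Quotient.eq_zero_iff_mem.2 hp𝔭
        rwa [map_natCast] at h1
      have hs : Function.Surjective (frobenius (O ⧸ 𝔭) p) :=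
        Finite.injective_iff_surjective.1 (frobenius_inj (O ⧸ 𝔭) p)
      have hv0 : Ideal.Quotient.mk 𝔭 v ≠ 0 := fun h5 => hv (Ideal.Quotient.eq_zero_iff_mem.1 h5)
      obtain ⟨rb, hrb⟩ := hs (-(Ideal.Quotient.mk 𝔭 u) / Ideal.Quotient.mk 𝔭 v)
      obtain ⟨r, rfl⟩ := Ideal.Quotient.mk_surjective rb
      refine ⟨r, ?_⟩
      rw [frobenius_def] at hrb
      rw [← Ideal.Quotient.eq_zero_iff_mem, map_add, map_mul, map_pow, hrb,
        mul_div_cancel₀ _ hv0, add_neg_cancel]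
    set z : Polynomial O := Polynomial.X ^ e' with hz
    have hzp : (Polynomial.X : Polynomial O) ^ d = z ^ p := by
      rw [hz, he', mul_comm, pow_mul]
    set w := z - Polynomial.C r with hw
    obtain ⟨ρ, hρ⟩ := exists_add_pow_prime_eq hpp (Polynomial.C r) w
    have hzw : Polynomial.C r + w = z := by rw [hw]; ring
    rw [hzw] at hρ
    have hCr : Polynomial.C (u + v * r ^ p) =
        Polynomial.C u + Polynomial.C v * Polynomial.C r ^ p := by
      rw [map_add, map_mul, map_pow]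
    have hwQ : w ∈ Q := by
      have h5 : Polynomial.C v * w ^ p ∈ Q := by
        have h6 := (hQ𝔭 _).2 hr
        rw [hCr] at h6
        rw [hzp] at hE
        have h7 : Polynomial.C v * w ^ p = (Polynomial.C u + Polynomial.C v * z ^ p) -
            (Polynomial.C u + Polynomial.C v * Polynomial.C r ^ p) -
            (p : Polynomial O) * (Polynomial.C v * (Polynomial.C r * w * ρ)) := by
          rw [hρ]
          ring
        rw [h7]
        exact Q.sub_mem (Q.sub_mem hE h6) (Q.mul_mem_right _ hpQ)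
      have h6 := (hQ.mem_or_mem h5).resolve_left fun h7 => hv ((hQ𝔭 v).1 h7)
      exact hQ.mem_of_pow_mem _ h6
    apply lemL 𝔭 hm (u + v * r ^ p) hr (h3 p hpp ⟨e', he'⟩ hp𝔭 r) Q hQ hQ𝔭 h hh
    have hdiff : Polynomial.C u + Polynomial.C v * z ^ p - Polynomial.C (u + v * r ^ p) ∈ Q ^ 2 := by
      have h7 : Polynomial.C u + Polynomial.C v * z ^ p - Polynomial.C (u + v * r ^ p) =
          Polynomial.C v * w ^ p + (p : Polynomial O) * w * (Polynomial.C v * Polynomial.C r * ρ) := by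
        rw [hCr, hρ]
        ring
      rw [h7]
      refine Ideal.add_mem _ (Ideal.mul_mem_left _ _ ?_) (Ideal.mul_mem_right _ _ ?_)
      · exact Ideal.pow_le_pow_right hpp.two_le (Ideal.pow_mem_pow hwQ p)
      · rw [pow_two]
        exact Ideal.mul_mem_mul hpQ hwQ
    rw [hzp] at hcon
    have h8 : h * Polynomial.C (u + v * r ^ p) = h * (Polynomial.C u + Polynomial.C v * z ^ p) -
        h * (Polynomial.C u + Polynomial.C v * z ^ p - Polynomial.C (u + v * r ^ p)) := by ring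
    rw [h8]
    exact Ideal.sub_mem _ hcon (Ideal.mul_mem_left _ _ hdiff)

/-- The univariate case in a ring of polynomials with one variable. -/
theorem uni' {O ι : Type} [CommRing O] [IsNoetherianRing O] (𝔭 : Ideal O) (hm : 𝔭.IsMaximal)
    (hfin : Finite (O ⧸ 𝔭)) (d : ℕ) (hd : 2 ≤ d) (u v : O) (h1 : u ∉ 𝔭 ^ 2)
    (h2 : u ∉ 𝔭 ∨ v ∉ 𝔭)
    (h3 : ∀ p : ℕ, p.Prime → p ∣ d → (p : O) ∈ 𝔭 → ∀ e : O, u + v * e ^ p ∉ 𝔭 ^ 2)
    (y : ι) (hy : ∀ j, j = y)
    (Q : Ideal (MvPolynomial ι O)) (hQ : Q.IsPrime) (hQ𝔭 : ∀ a, C a ∈ Q ↔ a ∈ 𝔭)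
    (hE : C u + C v * X y ^ d ∈ Q)
    (hpd : pderiv y (C u + C v * X y ^ d) ∈ Q) (h : MvPolynomial ι O) (hh : h ∉ Q) :
    h * (C u + C v * X y ^ d) ∉ Q ^ 2 := by
  intro hcon
  let e : MvPolynomial ι O →ₐ[O] Polynomial O := aeval (fun _ => Polynomial.X)
  let ψ : Polynomial O →+* MvPolynomial ι O := Polynomial.eval₂RingHom C (X y)
  have hψC : ∀ a : O, ψ (Polynomial.C a) = C a := fun a => Polynomial.eval₂_C _ _
  have hψX : ψ Polynomial.X = X y := Polynomial.eval₂_X _ _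
  have heC : ∀ a : O, e (C a) = Polynomial.C a := fun a => aeval_C _ _
  have heX : ∀ j : ι, e (X j) = Polynomial.X := fun j => aeval_X _ _
  have hψe : ∀ w, ψ (e w) = w := by
    intro w
    induction w using MvPolynomial.induction_on with
    | C a => rw [heC, hψC]
    | add p q hp hq => rw [map_add, map_add, hp, hq]
    | mul_X p i hp => rw [map_mul, map_mul, hp, heX, hψX, hy i]
  let Qh : Ideal (Polynomial O) := Q.comap ψ
  have hQh : Qh.IsPrime := Ideal.comap_isPrime _ _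
  have hA : ∀ a, Polynomial.C a ∈ Qh ↔ a ∈ 𝔭 := by
    intro a
    rw [Ideal.mem_comap, hψC, hQ𝔭]
  have hmem : ∀ w, e w ∈ Qh ↔ w ∈ Q := by
    intro w
    rw [Ideal.mem_comap, hψe]
  have heE : e (C u + C v * X y ^ d) = Polynomial.C u + Polynomial.C v * Polynomial.X ^ d := by
    rw [map_add, map_mul, map_pow, heC, heC, heX]
  have hder : pderiv y (C u + C v * X y ^ d) = C (v * d) * X y ^ (d - 1) := by
    rw [map_add, pderiv_C, zero_add, pderiv_C_mul, Derivation.leibniz_pow, pderiv_X_self, C_mul,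
      map_natCast]
    simp only [smul_eq_mul, nsmul_eq_mul, mul_one]
    ring
  refine uni 𝔭 hm hfin d hd u v h1 h2 h3 Qh hQh hA ?_ ?_ (e h)
    (fun h4 => hh ((hmem h).1 h4)) ?_
  · rw [← heE, hmem]
    exact hE
  · rw [hder] at hpd
    have h4 := (hmem _).2 hpd
    rwa [map_mul, map_pow, heC, heX] at h4
  · rw [← heE, ← map_mul]
    have h3 : (Q ^ 2).map e.toRingHom ≤ Qh ^ 2 := by
      rw [Ideal.map_pow]
      refine Ideal.pow_right_mono ?_ 2
      rw [Ideal.map_le_iff_le_comap]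
      intro g hg
      exact (hmem g).2 hg
    exact h3 (Ideal.mem_map_of_mem _ hcon)

/-- The binary form `b X ^ d + c Y ^ d`. -/
noncomputable def bin {O : Type} [CommRing O] (d : ℕ) (b c : O) : MvPolynomial (Fin (1 + 1)) O :=
  C b * X 0 ^ d + C c * X 1 ^ d

theorem bin_deh0 {O : Type} [CommRing O] (d : ℕ) (b c : O) :
    ∃ y : {j : Fin (1 + 1) // j ≠ 0}, (∀ j, j = y) ∧ deh 0 (bin d b c) = C b + C c * X y ^ d := by
  have h01 : (1 : Fin (1 + 1)) ≠ 0 := by decide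
  refine ⟨⟨1, h01⟩, ?_, ?_⟩
  · rintro ⟨j, hj⟩
    apply Subtype.ext
    apply Fin.ext
    have h4 : (j : ℕ) ≠ 0 := fun h => hj (Fin.ext h)
    have := j.2
    simp only [Fin.val_one]
    omega
  · unfold bin
    rw [deh_add, deh_mul, deh_mul, deh_pow, deh_pow, deh_X, deh_X, tau_self, tau_ne 0 1 h01,
      one_pow, mul_one]
    simp [deh]

theorem bin_deh1 {O : Type} [CommRing O] (d : ℕ) (b c : O) :
    ∃ y : {j : Fin (1 + 1) // j ≠ 1}, (∀ j, j = y) ∧ deh 1 (bin d b c) = C c + C b * X y ^ d := by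
  have h01 : (0 : Fin (1 + 1)) ≠ 1 := by decide
  refine ⟨⟨0, h01⟩, ?_, ?_⟩
  · rintro ⟨j, hj⟩
    apply Subtype.ext
    apply Fin.ext
    have h4 : (j : ℕ) ≠ 1 := fun h => hj (Fin.ext (by simp only [Fin.val_one]; exact h))
    have := j.2
    simp only [Fin.val_zero]
    omega
  · unfold bin
    rw [deh_add, deh_mul, deh_mul, deh_pow, deh_pow, deh_X, deh_X, tau_self, tau_ne 1 0 h01,
      one_pow, mul_one]
    simp [deh, add_comm]

theorem crit_of_uni {O ι : Type} [CommRing O] [IsNoetherianRing O] (𝔭 : Ideal O)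
    (hm : 𝔭.IsMaximal) (hfin : Finite (O ⧸ 𝔭)) (d : ℕ) (hd : 2 ≤ d) (u v : O) (h1 : u ∉ 𝔭 ^ 2)
    (h2 : u ∉ 𝔭 ∨ v ∉ 𝔭)
    (h3 : ∀ p : ℕ, p.Prime → p ∣ d → (p : O) ∈ 𝔭 → ∀ e : O, u + v * e ^ p ∉ 𝔭 ^ 2)
    (y : ι) (hy : ∀ j, j = y) (E : MvPolynomial ι O) (hEe : E = C u + C v * X y ^ d)
    (Q : Ideal (MvPolynomial ι O)) (hQ : Q.IsPrime) (hQ𝔭 : ∀ a, C a ∈ Q ↔ a ∈ 𝔭)
    (hE : E ∈ Q) :
    (∃ j, pderiv j E ∉ Q) ∨ ∀ h, h ∉ Q → h * E ∉ Q ^ 2 := by
  subst hEe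
  by_contra hcon
  push Not at hcon
  obtain ⟨hpd, f, hf, hfG⟩ := hcon
  exact uni' 𝔭 hm hfin d hd u v h1 h2 h3 y hy Q hQ hQ𝔭 hE (hpd y) f hf hfG

theorem bin_crit {O : Type} [CommRing O] [IsNoetherianRing O] (𝔭 : Ideal O) (hm : 𝔭.IsMaximal)
    (hfin : Finite (O ⧸ 𝔭)) (d : ℕ) (hd : 2 ≤ d) (b c : O) (h1 : b * c ∉ 𝔭 ^ 2)
    (h3 : ∀ p : ℕ, p.Prime → p ∣ d → (p : O) ∈ 𝔭 → ∀ e : O, b + c * e ^ p ∉ 𝔭 ^ 2 ∧
      c + b * e ^ p ∉ 𝔭 ^ 2) : Crit 𝔭 (bin d b c) := by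
  have hb : b ∉ 𝔭 ^ 2 := fun h => h1 (Ideal.mul_mem_right _ _ h)
  have hc : c ∉ 𝔭 ^ 2 := fun h => h1 (Ideal.mul_mem_left _ _ h)
  have hbc : b ∉ 𝔭 ∨ c ∉ 𝔭 := by
    by_contra hcon
    push Not at hcon
    apply h1
    rw [pow_two]
    exact Ideal.mul_mem_mul hcon.1 hcon.2
  intro s Q hQ hCQ hG
  have hs : s = 0 ∨ s = 1 := by
    have := s.2
    rcases Nat.lt_or_ge (s : ℕ) 1 with h | h
    · left
      apply Fin.ext
      simp only [Fin.val_zero]
      omega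
    · right
      apply Fin.ext
      simp only [Fin.val_one]
      omega
  rcases hs with rfl | rfl
  · obtain ⟨y, hy, hE⟩ := bin_deh0 d b c
    exact crit_of_uni 𝔭 hm hfin d hd b c hb hbc (fun p hp hpd hp𝔭 e => (h3 p hp hpd hp𝔭 e).1)
      y hy _ hE Q hQ hCQ hG
  · obtain ⟨y, hy, hE⟩ := bin_deh1 d b c
    exact crit_of_uni 𝔭 hm hfin d hd c b hc hbc.symm
      (fun p hp hpd hp𝔭 e => (h3 p hp hpd hp𝔭 e).2) y hy _ hE Q hQ hCQ hG

theorem bin_wild {O : Type} [CommRing O] (𝔭 : Ideal O) [𝔭.IsPrime]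
    (hfin : Finite (O ⧸ 𝔭)) (d : ℕ) (hd : 2 ≤ d) (b c : O)
    (h3 : ∀ p : ℕ, p.Prime → p ∣ d - 1 → (p : O) ∈ 𝔭 → c ∉ 𝔭 ∧ ∀ e : O, b + e ^ p ∉ 𝔭 ^ 2) :
    Wild 𝔭 d (bin d b c) := by
  intro p hp hpd hp𝔭 q hq hC hpj
  obtain ⟨hc, hb⟩ := h3 p hp hpd hp𝔭
  obtain ⟨y, hy, hE⟩ := bin_deh0 d b c
  have hd𝔭 : (d : O) ∉ 𝔭 := by
    intro h4
    obtain ⟨m, hm⟩ := hpd
    have h5 : (d : O) = p * m + 1 := by
      have h6 : d = p * m + 1 := by omega
      rw [h6]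
      push_cast
      ring
    have h6 := 𝔭.sub_mem h4 (𝔭.mul_mem_right (m : O) hp𝔭)
    rw [h5, add_sub_cancel_left] at h6
    exact (Ideal.ne_top_iff_one 𝔭).1 Ideal.IsPrime.ne_top' h6
  have hX : ∀ j, X j ∈ q := by
    intro j
    rw [hy j]
    have h4 := hpj y
    have hder : pderiv y (C b + C c * X y ^ d : MvPolynomial {j : Fin (1 + 1) // j ≠ 0} O) =
        C (c * d) * X y ^ (d - 1) := by
      rw [map_add, pderiv_C, zero_add, pderiv_C_mul, Derivation.leibniz_pow, pderiv_X_self, C_mul,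
        map_natCast]
      simp only [smul_eq_mul, nsmul_eq_mul, mul_one]
      ring
    rw [hE, hder] at h4
    refine hq.mem_of_pow_mem (d - 1) ((hq.mem_or_mem h4).resolve_left fun h5 => ?_)
    rw [hC] at h5
    exact (Ideal.IsPrime.mem_or_mem ‹𝔭.IsPrime› h5).elim hc hd𝔭
  have hcc : ∀ P : MvPolynomial {j : Fin (1 + 1) // j ≠ 0} O, P - C (constantCoeff P) ∈ q := by
    intro P
    induction P using MvPolynomial.induction_on with
    | C a => simp
    | add p q hp hq =>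
      rw [map_add, map_add]
      have h4 : p + q - (C (constantCoeff p) + C (constantCoeff q)) =
        (p - C (constantCoeff p)) + (q - C (constantCoeff q)) := by ring
      rw [h4]
      exact Ideal.add_mem _ hp hq
    | mul_X p i hp =>
      rw [map_mul, constantCoeff_X, mul_zero, map_zero, sub_zero]
      exact Ideal.mul_mem_left _ _ (hX i)
  refine ⟨?_, ?_⟩
  · let φ : (O ⧸ 𝔭) →+* (MvPolynomial {j : Fin (1 + 1) // j ≠ 0} O ⧸ q) :=
      Ideal.Quotient.lift 𝔭 ((Ideal.Quotient.mk q).comp C) (fun a ha => by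
        rw [RingHom.comp_apply, Ideal.Quotient.eq_zero_iff_mem]
        exact (hC a).2 ha)
    refine Finite.of_surjective φ ?_
    intro y
    obtain ⟨P, rfl⟩ := Ideal.Quotient.mk_surjective y
    refine ⟨Ideal.Quotient.mk 𝔭 (constantCoeff P), ?_⟩
    change Ideal.Quotient.mk q (C (constantCoeff P)) = _
    exact (Ideal.Quotient.eq.2 (hcc P)).symm
  · intro g hg
    have h4 : (q ^ 2).map (constantCoeff (σ := {j : Fin (1 + 1) // j ≠ 0}) (R := O)) ≤ 𝔭 ^ 2 := by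
      rw [Ideal.map_pow]
      refine Ideal.pow_right_mono ?_ 2
      rw [Ideal.map_le_iff_le_comap]
      intro z hz
      rw [Ideal.mem_comap, ← hC]
      have h5 := q.sub_mem hz (hcc z)
      rwa [sub_sub_cancel] at h5
    have h5 := h4 (Ideal.mem_map_of_mem _ hg)
    rw [hE, map_add, map_add, map_mul, map_pow, map_pow, constantCoeff_X, zero_pow (by omega),
      mul_zero, add_zero, constantCoeff_C] at h5
    exact hb _ h5

theorem bin_smooth {K : Type} [Field K] [CharZero K] (d : ℕ) (hd : 1 ≤ d) (b c : K) (hb : b ≠ 0)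
    (hc : c ≠ 0) : Smooth (bin d b c) := by
  have hd0 : (d : K) ≠ 0 := by
    rw [Nat.cast_ne_zero]
    omega
  have h01 : (0 : Fin (1 + 1)) ≠ 1 := by decide
  have key : ∀ (i : Fin (1 + 1)) (a : K), a ≠ 0 → pderiv i (bin d b c) =
      C (a * d) * X i ^ (d - 1) → X i ∈ (Ideal.span (Set.range fun j =>
        pderiv j (bin d b c))).radical := by
    intro i a ha h1
    refine ⟨d - 1, ?_⟩
    have h2 : a * (d : K) ≠ 0 := mul_ne_zero ha hd0
    have h3 : (X i ^ (d - 1) : MvPolynomial (Fin (1 + 1)) K) = C (a * d)⁻¹ *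
        pderiv i (bin d b c) := by
      rw [h1, ← mul_assoc, ← C_mul, inv_mul_cancel₀ h2, C_1, one_mul]
    rw [h3]
    exact Ideal.mul_mem_left _ _ (Ideal.subset_span ⟨i, rfl⟩)
  intro i
  have hi : i = 0 ∨ i = 1 := by
    have := i.2
    rcases Nat.lt_or_ge (i : ℕ) 1 with h | h
    · left
      apply Fin.ext
      simp only [Fin.val_zero]
      omega
    · right
      apply Fin.ext
      simp only [Fin.val_one]
      omega
  rcases hi with rfl | rfl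
  · refine key 0 b hb ?_
    unfold bin
    rw [map_add, pderiv_C_mul, pderiv_C_mul, Derivation.leibniz_pow, Derivation.leibniz_pow,
      pderiv_X_self, pderiv_X_of_ne h01.symm, C_mul, map_natCast]
    simp only [smul_eq_mul, nsmul_eq_mul, mul_one, mul_zero, add_zero]
    ring
  · refine key 1 c hc ?_
    unfold bin
    rw [map_add, pderiv_C_mul, pderiv_C_mul, Derivation.leibniz_pow, Derivation.leibniz_pow,
      pderiv_X_self, pderiv_X_of_ne h01, C_mul, map_natCast]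
    simp only [smul_eq_mul, nsmul_eq_mul, mul_one, mul_zero, zero_add]
    ring

theorem bin_homog {O : Type} [CommRing O] (d : ℕ) (b c : O) : (bin d b c).IsHomogeneous d := by
  unfold bin
  refine IsHomogeneous.add ?_ ?_
  · have h1 := (isHomogeneous_C (Fin (1 + 1)) b).mul ((isHomogeneous_X O (0 : Fin (1 + 1))).pow d)
    rwa [zero_add, one_mul] at h1
  · have h1 := (isHomogeneous_C (Fin (1 + 1)) c).mul ((isHomogeneous_X O (1 : Fin (1 + 1))).pow d)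
    rwa [zero_add, one_mul] at h1

theorem bin_sect {O : Type} [CommRing O] (d : ℕ) (hd : 1 ≤ d) (b c : O) :
    sect (bin d b c) = (C c * X 0 ^ d : MvPolynomial (Fin 1) O) := by
  unfold bin
  have h1 : (1 : Fin (1 + 1)) = Fin.succ 0 := rfl
  have h2 : ∀ (P : MvPolynomial (Fin (1 + 1)) O) (k : ℕ), sect (P ^ k) = sect P ^ k :=
    fun P k => map_pow _ _ _
  rw [sect_add, sect_mul, sect_mul, h2, h2, h1, sect_X_zero, sect_X_succ, zero_pow (by omega),
    mul_zero, zero_add, sect_C]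

theorem bin_map {O K : Type} [CommRing O] [CommRing K] (φ : O →+* K) (d : ℕ) (b c : O) :
    map φ (bin d b c) = bin d (φ b) (φ c) := by
  unfold bin
  rw [map_add, map_mul, map_mul, map_C, map_C, map_pow, map_pow, map_X, map_X]

open NumberField in
theorem data_bin {K : Type} [Field K] [NumberField K] (d : ℕ) (hd : 3 ≤ d) (b c : 𝓞 K)
    (hb : b ≠ 0) (hc : c ≠ 0)
    (h : ∀ 𝔭 : Ideal (𝓞 K), 𝔭.IsPrime → 𝔭 ≠ ⊥ → b * c ∉ 𝔭 ^ 2 ∧
      (∀ p : ℕ, p.Prime → p ∣ d - 1 → (p : 𝓞 K) ∈ 𝔭 → c ∉ 𝔭 ∧ ∀ e : 𝓞 K, b + e ^ p ∉ 𝔭 ^ 2) ∧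
      (∀ p : ℕ, p.Prime → p ∣ d → (p : 𝓞 K) ∈ 𝔭 → ∀ e : 𝓞 K, b + c * e ^ p ∉ 𝔭 ^ 2 ∧
        c + b * e ^ p ∉ 𝔭 ^ 2)) :
    Smooth (map (algebraMap (𝓞 K) K) (bin d b c)) ∧
      Smooth (map (algebraMap (𝓞 K) K) (sect (bin d b c))) ∧
      ∀ 𝔭 : Ideal (𝓞 K), 𝔭.IsPrime → 𝔭 ≠ ⊥ →
        Reg 𝔭 (bin d b c) ∧ Reg 𝔭 (sect (bin d b c)) ∧ Wild 𝔭 d (bin d b c) := by
  have hinj : Function.Injective (algebraMap (𝓞 K) K) := IsFractionRing.injective (𝓞 K) K
  have hbK : algebraMap (𝓞 K) K b ≠ 0 := fun h => hb (hinj (by rw [h, map_zero]))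
  have hcK : algebraMap (𝓞 K) K c ≠ 0 := fun h => hc (hinj (by rw [h, map_zero]))
  refine ⟨?_, ?_, ?_⟩
  · rw [bin_map]
    exact bin_smooth d (by omega) _ _ hbK hcK
  · rw [bin_sect d (by omega), map_mul, map_C, map_pow, map_X]
    exact smooth_zero d (by omega) _ hcK
  · intro 𝔭 hp h0
    obtain ⟨h1, h2, h3⟩ := h 𝔭 hp h0
    have hm := Ideal.IsPrime.isMaximal hp h0
    have hfin := Ideal.finiteQuotientOfFreeOfNeBot 𝔭 h0
    refine ⟨(bin_crit 𝔭 hm hfin d (by omega) b c h1 h3).reg, ?_, bin_wild 𝔭 hfin d (by omega) b c h2⟩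
    rw [bin_sect d (by omega)]
    exact reg_zero 𝔭 hm d c fun h4 => h1 (Ideal.mul_mem_left _ _ h4)

end Pool.Agent.TH214.RM
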