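import Pool.Agent.TH214.RM.Tower

/-! Change of charts. -/

set_option autoImplicit false
set_option linter.unusedSectionVars false
set_option linter.unusedVariables false

namespace Pool.Agent.TH214.RM

open Pool.Agent.H918R2.Quad MvPolynomial

theorem exists_homog {O ι : Type} [CommRing O] [DecidableEq ι] (s : ι)
    (f : MvPolynomial {j // j ≠ s} O) :
    ∃ (N : ℕ) (P : MvPolynomial ι O), P.IsHomogeneous N ∧ deh s P = f := by
  induction f using MvPolynomial.induction_on with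
  | C a =>
    refine ⟨0, C a, isHomogeneous_C _ _, ?_⟩
    simp [deh]
  | add p q hp hq =>
    obtain ⟨N, P, hP, rfl⟩ := hp
    obtain ⟨M, Q, hQ, rfl⟩ := hq
    refine ⟨N + M, X s ^ M * P + X s ^ N * Q, ?_, ?_⟩
    · have h1 := ((isHomogeneous_X O s).pow M).mul hP
      have h2 := ((isHomogeneous_X O s).pow N).mul hQ
      rw [one_mul] at h1 h2
      refine IsHomogeneous.add ?_ h2
      rwa [add_comm M N] at h1
    · rw [deh_add, deh_mul, deh_mul, deh_pow, deh_pow, deh_X, tau_self, one_pow, one_pow, one_mul,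
        one_mul]
  | mul_X p i hp =>
    obtain ⟨N, P, hP, rfl⟩ := hp
    refine ⟨N + 1, P * X (i : ι), hP.mul (isHomogeneous_X O (i : ι)), ?_⟩
    rw [deh_mul, deh_X, tau_ne s i i.2]

/-- The ring homomorphism from one chart to a ring where the other coordinate is invertible. -/
theorem aeval_chart {O ι S : Type} [CommRing O] [CommRing S] [Algebra O S] [DecidableEq ι]
    (a : ι → S) (s : ι) (v : S) (hv : a s * v = 1) (P : MvPolynomial ι O) (N : ℕ)
    (hP : P.IsHomogeneous N) :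
    aeval (fun j : {j // j ≠ s} => a j * v) (deh s P) = aeval a P * v ^ N := by
  rw [← aeval_scale a v N P hP]
  exact aeval_deh s (fun j => a j * v) hv P

theorem exists_mul_mem_of_loc {A : Type} [CommRing A] (q : Ideal A) [q.IsPrime] (J : Ideal A)
    (x : A) (hx : algebraMap A (Localization.AtPrime q) x ∈
      J.map (algebraMap A (Localization.AtPrime q))) : ∃ h, h ∉ q ∧ h * x ∈ J := by
  obtain ⟨⟨y, s⟩, hys⟩ := (IsLocalization.mem_map_algebraMap_iff q.primeCompl
    (Localization.AtPrime q)).1 hx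
  rw [← map_mul] at hys
  obtain ⟨c, hc⟩ := (IsLocalization.eq_iff_exists q.primeCompl (Localization.AtPrime q)).1 hys
  refine ⟨c * s, fun h => ?_, ?_⟩
  · rcases (‹q.IsPrime›.mem_or_mem h) with h | h
    · exact c.2 h
    · exact s.2 h
  · have h1 : (c : A) * s * x = c * y := by
      rw [← hc]
      ring
    rw [h1]
    exact J.mul_mem_left _ y.2

/-- Change of charts. -/
theorem chart_change {O ι : Type} [CommRing O] [DecidableEq ι] (𝔭 : Ideal O) (s t : ι)
    (Q : Ideal (MvPolynomial {j // j ≠ s} O)) (hQ : Q.IsPrime) (hCQ : ∀ r : O, C r ∈ Q ↔ r ∈ 𝔭)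
    (ht : (tau s t : MvPolynomial {j // j ≠ s} O) ∉ Q) :
    ∃ Q' : Ideal (MvPolynomial {j // j ≠ t} O), Q'.IsPrime ∧ (∀ r : O, C r ∈ Q' ↔ r ∈ 𝔭) ∧
      (∀ (P : MvPolynomial ι O) (N : ℕ), P.IsHomogeneous N → (deh t P ∈ Q' ↔ deh s P ∈ Q)) ∧
      ∀ (G : MvPolynomial ι O) (d : ℕ), G.IsHomogeneous d →
        (∀ h, h ∉ Q' → h * deh t G ∉ Q' ^ 2) → ∀ h, h ∉ Q → h * deh s G ∉ Q ^ 2 := by
  let L := Localization.AtPrime Q
  let a : ι → L := fun j => algebraMap (MvPolynomial {j // j ≠ s} O) L (tau s j)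
  have hat : IsUnit (a t) :=
    (IsLocalization.AtPrime.isUnit_to_map_iff L Q _).2 ht
  obtain ⟨u, hu⟩ := hat
  let v : L := ((u⁻¹ : Lˣ) : L)
  have hv : a t * v = 1 := by rw [← hu]; exact Units.mul_inv u
  let θ : MvPolynomial {j // j ≠ t} O →ₐ[O] L := aeval (fun j => a j * v)
  let Q' : Ideal (MvPolynomial {j // j ≠ t} O) := (IsLocalRing.maximalIdeal L).comap θ.toRingHom
  have hQ' : Q'.IsPrime := Ideal.comap_isPrime _ _
  have hmem : ∀ f, f ∈ Q' ↔ θ f ∈ IsLocalRing.maximalIdeal L := fun f => Iff.rfl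
  have haP : ∀ P : MvPolynomial ι O, aeval a P = algebraMap _ L (deh s P) := by
    intro P
    have h1 : (aeval a : MvPolynomial ι O →ₐ[O] L) =
        (IsScalarTower.toAlgHom O (MvPolynomial {j // j ≠ s} O) L).comp (aeval (tau s)) := by
      apply MvPolynomial.algHom_ext
      intro j
      rw [aeval_X, AlgHom.comp_apply, aeval_X]
      rfl
    rw [h1]
    rfl
  have hθ : ∀ (P : MvPolynomial ι O) (N : ℕ), P.IsHomogeneous N →
      θ (deh t P) = algebraMap _ L (deh s P) * v ^ N := by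
    intro P N hP
    rw [← haP]
    exact aeval_chart a t v hv P N hP
  have hvu : IsUnit v := Units.isUnit _
  have hmax : ∀ f : MvPolynomial {j // j ≠ s} O,
      algebraMap _ L f ∈ IsLocalRing.maximalIdeal L ↔ f ∈ Q :=
    fun f => IsLocalization.AtPrime.to_map_mem_maximal_iff L Q f
  have hiff : ∀ (P : MvPolynomial ι O) (N : ℕ), P.IsHomogeneous N →
      (deh t P ∈ Q' ↔ deh s P ∈ Q) := by
    intro P N hP
    rw [hmem, hθ P N hP, Ideal.mul_unit_mem_iff_mem _ (hvu.pow N), hmax]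
  have hCQ' : ∀ r : O, C r ∈ Q' ↔ r ∈ 𝔭 := by
    intro r
    rw [← hCQ]
    have h1 := hiff (C r) 0 (isHomogeneous_C _ _)
    have h2 : deh t (C r : MvPolynomial ι O) = C r := by simp [deh]
    have h3 : deh s (C r : MvPolynomial ι O) = C r := by simp [deh]
    rwa [h2, h3] at h1
  refine ⟨Q', hQ', hCQ', hiff, ?_⟩
  intro G d hG hcrit h hh hhG
  -- the other direction
  have hs' : (tau t s : MvPolynomial {j // j ≠ t} O) ∉ Q' := by
    have h1 := hiff (X s) 1 (isHomogeneous_X O s)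
    rw [deh_X, deh_X, tau_self] at h1
    rw [h1]
    exact (Ideal.ne_top_iff_one Q).1 hQ.ne_top
  let L' := Localization.AtPrime Q'
  let a' : ι → L' := fun j => algebraMap (MvPolynomial {j // j ≠ t} O) L' (tau t j)
  have has' : IsUnit (a' s) := (IsLocalization.AtPrime.isUnit_to_map_iff L' Q' _).2 hs'
  obtain ⟨u', hu'⟩ := has'
  let v' : L' := ((u'⁻¹ : L'ˣ) : L')
  have hv' : a' s * v' = 1 := by rw [← hu']; exact Units.mul_inv u'
  have hvu' : IsUnit v' := Units.isUnit _
  let θ' : MvPolynomial {j // j ≠ s} O →ₐ[O] L' := aeval (fun j => a' j * v')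
  have haP' : ∀ P : MvPolynomial ι O, aeval a' P = algebraMap _ L' (deh t P) := by
    intro P
    have h1 : (aeval a' : MvPolynomial ι O →ₐ[O] L') =
        (IsScalarTower.toAlgHom O (MvPolynomial {j // j ≠ t} O) L').comp (aeval (tau t)) := by
      apply MvPolynomial.algHom_ext
      intro j
      rw [aeval_X, AlgHom.comp_apply, aeval_X]
      rfl
    rw [h1]
    rfl
  have hθ' : ∀ (P : MvPolynomial ι O) (N : ℕ), P.IsHomogeneous N →
      θ' (deh s P) = algebraMap _ L' (deh t P) * v' ^ N := by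
    intro P N hP
    rw [← haP']
    exact aeval_chart a' s v' hv' P N hP
  have hmax' : ∀ f : MvPolynomial {j // j ≠ t} O,
      algebraMap _ L' f ∈ IsLocalRing.maximalIdeal L' ↔ f ∈ Q' :=
    fun f => IsLocalization.AtPrime.to_map_mem_maximal_iff L' Q' f
  have hθQ : ∀ f, θ' f ∈ IsLocalRing.maximalIdeal L' ↔ f ∈ Q := by
    intro f
    obtain ⟨N, P, hP, rfl⟩ := exists_homog s f
    rw [hθ' P N hP, Ideal.mul_unit_mem_iff_mem _ (hvu'.pow N), hmax', hiff P N hP]
  have h1 : θ' (h * deh s G) ∈ IsLocalRing.maximalIdeal L' ^ 2 := by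
    have h2 : (Q ^ 2).map θ'.toRingHom ≤ IsLocalRing.maximalIdeal L' ^ 2 := by
      rw [Ideal.map_pow]
      refine Ideal.pow_right_mono ?_ 2
      rw [Ideal.map_le_iff_le_comap]
      intro g hg
      exact (hθQ g).2 hg
    exact h2 (Ideal.mem_map_of_mem _ hhG)
  have hunit : IsUnit (θ' h) := by
    by_contra hcon
    exact hh ((hθQ h).1 ((IsLocalRing.mem_maximalIdeal _).2 hcon))
  rw [map_mul, Ideal.unit_mul_mem_iff_mem _ hunit, hθ' G d hG,
    Ideal.mul_unit_mem_iff_mem _ (hvu'.pow d)] at h1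
  have h2 : algebraMap _ L' (deh t G) ∈ (Q' ^ 2).map (algebraMap _ L') := by
    rw [Ideal.map_pow, Localization.AtPrime.map_eq_maximalIdeal]
    exact h1
  obtain ⟨c, hc, hcG⟩ := exists_mul_mem_of_loc Q' (Q' ^ 2) _ h2
  exact hcrit c hc hcG

end Pool.Agent.TH214.RM
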