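import Pool.Agent.TH214.RM.Good

/-! The criterion for regularity over a Dedekind ring and its localizations. -/

set_option autoImplicit false
set_option linter.unusedSectionVars false
set_option linter.unusedVariables false

open scoped Pointwise

namespace Pool.Agent.TH214.RM

open Pool.Agent.H918R2.Quad Pool.Agent.H945R2.D MvPolynomial

/-- `G = 0` is regular at the points over `𝔭`. -/
def Crit {O ι : Type} [CommRing O] [DecidableEq ι] (𝔭 : Ideal O) (G : MvPolynomial ι O) : Prop :=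
  ∀ (s : ι) (Q : Ideal (MvPolynomial {j : ι // j ≠ s} O)), Q.IsPrime →
    (∀ r : O, C r ∈ Q ↔ r ∈ 𝔭) → deh s G ∈ Q → (∃ j, pderiv j (deh s G) ∉ Q) ∨
      ∀ h, h ∉ Q → h * deh s G ∉ Q ^ 2

theorem map_deh {O R ι : Type} [CommRing O] [CommRing R] [DecidableEq ι] (φ : O →+* R) (s : ι)
    (G : MvPolynomial ι O) : map φ (deh s G) = deh s (map φ G) := by
  induction G using MvPolynomial.induction_on with
  | C a => simp [deh]
  | add p q hp hq => simp only [deh, map_add] at hp hq ⊢; rw [hp, hq]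
  | mul_X p i hp =>
    simp only [deh, map_mul, aeval_X, map_X] at hp ⊢
    rw [hp]
    congr 1
    unfold tau
    split_ifs <;> simp

theorem pderiv_deh {R ι : Type} [CommRing R] [DecidableEq ι] (s : ι) (j : {j : ι // j ≠ s})
    (G : MvPolynomial ι R) : pderiv j (deh s G) = deh s (pderiv (j : ι) G) := by
  induction G using MvPolynomial.induction_on with
  | C a => simp [deh]
  | add p q hp hq => simp only [deh, map_add] at hp hq ⊢; rw [hp, hq]
  | mul_X p i hp =>
    simp only [deh, map_mul, aeval_X] at hp ⊢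
    rw [Derivation.leibniz, Derivation.leibniz, hp]
    simp only [smul_eq_mul, map_add, map_mul, aeval_X]
    congr 1
    by_cases h : i = (j : ι)
    · subst h
      rw [pderiv_X_self, map_one]
      unfold tau
      rw [dif_neg j.2]
      simp
    · rw [pderiv_X_of_ne h, map_zero]
      unfold tau
      split_ifs with h'
      · simp
      · rw [pderiv_X_of_ne]
        intro h2
        exact h (congrArg Subtype.val h2)

section loc

variable {O R σ : Type} [CommRing O] [CommRing R] [Algebra O R] (M : Submonoid O)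
  [IsLocalization M R]

theorem clear_poly (z : MvPolynomial σ R) :
    ∃ s ∈ M, ∃ y : MvPolynomial σ O, map (algebraMap O R) y = C (algebraMap O R s) * z := by
  induction z using MvPolynomial.induction_on with
  | C r =>
    obtain ⟨⟨a, s⟩, hs⟩ := IsLocalization.surj M r
    refine ⟨s, s.2, C a, ?_⟩
    rw [map_C, ← C_mul, mul_comm]
    exact congrArg C hs.symm
  | add p q hp hq =>
    obtain ⟨s, hs, y, hy⟩ := hp
    obtain ⟨t, ht, z, hz⟩ := hq
    refine ⟨s * t, M.mul_mem hs ht, C t * y + C s * z, ?_⟩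
    rw [map_add, map_mul, map_mul, map_C, map_C, hy, hz, map_mul, C_mul]
    ring
  | mul_X p i hp =>
    obtain ⟨s, hs, y, hy⟩ := hp
    refine ⟨s, hs, y * X i, ?_⟩
    rw [map_mul, hy, map_X, mul_assoc]

theorem clear_span (S : Set (MvPolynomial σ O)) (z : MvPolynomial σ R)
    (hz : z ∈ Ideal.span (map (algebraMap O R) '' S)) :
    ∃ s ∈ M, ∃ y ∈ Ideal.span S, map (algebraMap O R) y = C (algebraMap O R s) * z := by
  induction hz using Submodule.span_induction with
  | mem z hz =>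
    obtain ⟨y, hy, rfl⟩ := hz
    exact ⟨1, M.one_mem, y, Ideal.subset_span hy, by simp⟩
  | zero => exact ⟨1, M.one_mem, 0, Ideal.zero_mem _, by simp⟩
  | add p q _ _ hp hq =>
    obtain ⟨s, hs, y, hyS, hy⟩ := hp
    obtain ⟨t, ht, z, hzS, hz⟩ := hq
    refine ⟨s * t, M.mul_mem hs ht, C t * y + C s * z,
      Ideal.add_mem _ (Ideal.mul_mem_left _ _ hyS) (Ideal.mul_mem_left _ _ hzS), ?_⟩
    rw [map_add, map_mul, map_mul, map_C, map_C, hy, hz, map_mul, C_mul]
    ring
  | smul a p _ hp =>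
    obtain ⟨s, hs, y, hyS, hy⟩ := hp
    obtain ⟨t, ht, b, hb⟩ := clear_poly M a
    refine ⟨t * s, M.mul_mem ht hs, b * y, Ideal.mul_mem_left _ _ hyS, ?_⟩
    rw [map_mul, hy, hb, smul_eq_mul, map_mul, C_mul]
    ring

theorem clear_sq (Q : Ideal (MvPolynomial σ R)) (z : MvPolynomial σ R) (hz : z ∈ Q ^ 2) :
    ∃ s ∈ M, ∃ y ∈ (Q.comap (map (algebraMap O R))) ^ 2,
      map (algebraMap O R) y = C (algebraMap O R s) * z := by
  have key : ∀ z ∈ Q, ∃ s ∈ M, ∃ y ∈ Q.comap (map (algebraMap O R)),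
      map (algebraMap O R) y = C (algebraMap O R s) * z := by
    intro z hz
    obtain ⟨s, hs, y, hy⟩ := clear_poly M z
    refine ⟨s, hs, y, ?_, hy⟩
    rw [Ideal.mem_comap, hy]
    exact Q.mul_mem_left _ hz
  rw [pow_two] at hz ⊢
  refine Submodule.mul_induction_on hz ?_ ?_
  · intro a ha b hb
    obtain ⟨s, hs, y, hyQ, hy⟩ := key a ha
    obtain ⟨t, ht, z, hzQ, hz⟩ := key b hb
    refine ⟨s * t, M.mul_mem hs ht, y * z, Ideal.mul_mem_mul hyQ hzQ, ?_⟩
    rw [map_mul, hy, hz, map_mul, C_mul]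
    ring
  · rintro a b ⟨s, hs, y, hyQ, hy⟩ ⟨t, ht, z, hzQ, hz⟩
    refine ⟨s * t, M.mul_mem hs ht, C t * y + C s * z,
      Ideal.add_mem _ (Ideal.mul_mem_left _ _ hyQ) (Ideal.mul_mem_left _ _ hzQ), ?_⟩
    rw [map_add, map_mul, map_mul, map_C, map_C, hy, hz, map_mul, C_mul]
    ring

end loc

/-- The criterion over the localization. -/
theorem crit_loc {O R ι : Type} [CommRing O] [CommRing R] [Algebra O R] [DecidableEq ι]
    (𝔭 : Ideal O) [𝔭.IsPrime] [IsLocalization.AtPrime R 𝔭]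
    (hinj : Function.Injective (algebraMap O R)) (G : MvPolynomial ι O) (h : Crit 𝔭 G)
    (s : ι) (Q : Ideal (MvPolynomial {j : ι // j ≠ s} R)) (hQ : Q.IsPrime)
    (hG : deh s (map (algebraMap O R) G) ∈ Q) (hCQ : ∀ r : R, C r ∈ Q ↔ ¬ IsUnit r) :
    (∃ j, pderiv j (deh s (map (algebraMap O R) G)) ∉ Q) ∨
      ∀ h, h ∉ Q → h * deh s (map (algebraMap O R) G) ∉ Q ^ 2 := by
  set φ : MvPolynomial {j : ι // j ≠ s} O →+* MvPolynomial {j : ι // j ≠ s} R :=
    map (algebraMap O R) with hφ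
  have hφi : Function.Injective φ := map_injective _ hinj
  have hp : (Q.comap φ).IsPrime := Ideal.comap_isPrime _ _
  have hC : ∀ r : O, C r ∈ Q.comap φ ↔ r ∈ 𝔭 := by
    intro r
    rw [Ideal.mem_comap, hφ, map_C, hCQ, IsLocalization.AtPrime.isUnit_to_map_iff R 𝔭 r]
    simp
  have hs : ∀ r : O, r ∈ 𝔭.primeCompl → (C (algebraMap O R r) : MvPolynomial _ R) ∉ Q := by
    intro r hr h1
    rw [hCQ] at h1
    exact h1 (IsLocalization.map_units R (⟨r, hr⟩ : 𝔭.primeCompl))
  have hdeh : φ (deh s G) = deh s (map (algebraMap O R) G) := map_deh _ _ _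
  have hE : deh s G ∈ Q.comap φ := by
    rw [Ideal.mem_comap, hdeh]
    exact hG
  rcases h s (Q.comap φ) hp hC hE with ⟨j, hj⟩ | h1
  · left
    refine ⟨j, fun h2 => hj ?_⟩
    rw [Ideal.mem_comap, hφ, ← pderiv_map, ← hφ, hdeh]
    exact h2
  · right
    intro f hf hfQ
    obtain ⟨a, ha, y, hy⟩ := clear_poly 𝔭.primeCompl f
    obtain ⟨b, hb, z, hzQ, hz⟩ := clear_sq 𝔭.primeCompl Q _ hfQ
    have hyQ : y ∉ Q.comap φ := by
      rw [Ideal.mem_comap, hφ, hy]
      intro h2
      exact (hQ.mem_or_mem h2).elim (hs a ha) hf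
    have hbQ : C b ∉ Q.comap φ := by
      rw [hC]
      exact hb
    have h3 : C b * y ∉ Q.comap φ := fun h4 => (hp.mem_or_mem h4).elim hbQ hyQ
    apply h1 _ h3
    have h5 : C b * y * deh s G = C a * z := by
      apply hφi
      have hy' : φ y = C (algebraMap O R a) * f := hy
      have hz' : φ z = C (algebraMap O R b) * (f * deh s (map (algebraMap O R) G)) := hz
      have hCa : φ (C a) = C (algebraMap O R a) := map_C _ _
      have hCb : φ (C b) = C (algebraMap O R b) := map_C _ _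
      rw [map_mul, map_mul, map_mul, hdeh, hy', hz', hCa, hCb]
      ring
    rw [h5]
    exact Ideal.mul_mem_left _ _ hzQ

end Pool.Agent.TH214.RM
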