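import Pool.Agent.TH214.RM.Base3

/-! Cyclic coverings `x ^ d + F(y) = 0`. -/

set_option autoImplicit false
set_option linter.unusedSectionVars false
set_option linter.unusedVariables false

open MvPolynomial NumberField

namespace Pool.Agent.TH214.RM

open Pool.Agent.H918R2.Quad

section basic

variable {O : Type} [CommRing O]

/-- The form `x ^ d + F(y)`. -/
noncomputable def cyc (d : ℕ) {m : ℕ} (F : MvPolynomial (Fin (m + 1)) O) :
    MvPolynomial (Fin (m + 2)) O :=
  X 0 ^ d + rename Fin.succ F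

theorem pderiv_zero_cyc (d : ℕ) {m : ℕ} (F : MvPolynomial (Fin (m + 1)) O) :
    pderiv 0 (cyc d F) = (d : MvPolynomial (Fin (m + 2)) O) * X 0 ^ (d - 1) := by
  unfold cyc
  rw [map_add, pderiv_zero_rename_succ, add_zero, Derivation.leibniz_pow, pderiv_X_self]
  simp

theorem pderiv_succ_cyc (d : ℕ) {m : ℕ} (F : MvPolynomial (Fin (m + 1)) O) (j : Fin (m + 1)) :
    pderiv j.succ (cyc d F) = rename Fin.succ (pderiv j F) := by
  unfold cyc
  rw [map_add, pderiv_rename_succ, Derivation.leibniz_pow,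
    pderiv_X_of_ne (Fin.succ_ne_zero j).symm]
  simp

theorem isHomogeneous_cyc (d : ℕ) {m : ℕ} (F : MvPolynomial (Fin (m + 1)) O)
    (hF : F.IsHomogeneous d) : (cyc d F).IsHomogeneous d := by
  unfold cyc
  refine IsHomogeneous.add ?_ (hF.rename_isHomogeneous)
  have h1 := (isHomogeneous_X O (0 : Fin (m + 2))).pow d
  rwa [one_mul] at h1

theorem map_cyc {K : Type} [CommRing K] (φ : O →+* K) (d : ℕ) {m : ℕ}
    (F : MvPolynomial (Fin (m + 1)) O) : map φ (cyc d F) = cyc d (map φ F) := by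
  unfold cyc
  rw [map_add, map_pow, map_X, map_rename]

theorem deh_cyc (d : ℕ) {m : ℕ} (F : MvPolynomial (Fin (m + 1)) O) (s' : Fin (m + 1)) :
    deh s'.succ (cyc d F) = (tau s'.succ 0) ^ d + iot s' (deh s' F) := by
  unfold cyc
  rw [deh_add, deh_pow, deh_X, iot_deh]

end basic

/-- Where the first coordinate vanishes. -/
theorem cyc_retract {O : Type} [CommRing O] (𝔭 : Ideal O) (N : ℕ) (hN : 2 ≤ N) {m : ℕ}
    (s' : Fin (m + 1)) (f₀ : MvPolynomial {j // j ≠ s'} O)
    (Q : Ideal (MvPolynomial {j // j ≠ s'.succ} O)) (hQ : Q.IsPrime)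
    (hCQ : ∀ r : O, C r ∈ Q ↔ r ∈ 𝔭)
    (hGQ : (tau s'.succ 0 : MvPolynomial {j // j ≠ s'.succ} O) ^ N + iot s' f₀ ∈ Q)
    (ha0 : (tau s'.succ 0 : MvPolynomial {i // i ≠ s'.succ} O) ∈ Q)
    (h : ∀ q : Ideal (MvPolynomial {j // j ≠ s'} O), q.IsPrime → (∀ r, C r ∈ q ↔ r ∈ 𝔭) →
      f₀ ∈ q → (∀ a, iot s' a ∈ Q ↔ a ∈ q) → ∀ a, a ∉ q → a * f₀ ∉ q ^ 2)
    (f : MvPolynomial {i // i ≠ s'.succ} O) (hf : f ∉ Q) :
    f * ((tau s'.succ 0) ^ N + iot s' f₀) ∉ Q ^ 2 := by
  intro hfG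
  let ι : MvPolynomial {j // j ≠ s'} O →ₐ[O] MvPolynomial {j // j ≠ s'.succ} O := iot s'
  let σ : MvPolynomial {j // j ≠ s'.succ} O →ₐ[O] MvPolynomial {j // j ≠ s'} O :=
    aeval (fun j => Fin.cases (motive := fun _ => MvPolynomial {j // j ≠ s'} O) 0
      (fun i => tau s' i) j.1)
  have hσtau : ∀ i, σ (tau s'.succ i.succ) = tau s' i := by
    intro i
    by_cases hi : i = s'
    · subst hi
      rw [tau_self, tau_self, map_one]
    · rw [tau_ne s'.succ i.succ (fun h => hi (Fin.succ_injective _ h))]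
      change aeval _ (X _) = _
      rw [aeval_X]
      rfl
  have hιX : ∀ i : {j // j ≠ s'}, ι (X i) = tau s'.succ i.1.succ := by
    intro i
    change rename _ (X i) = _
    rw [rename_X, tau_ne s'.succ i.1.succ (fun h => i.2 (Fin.succ_injective _ h))]
  have hσι : ∀ a, σ (ι a) = a := by
    intro a
    induction a using MvPolynomial.induction_on with
    | C a =>
      change σ (rename _ (C a)) = _
      rw [rename_C]
      change aeval _ (C a) = _
      rw [aeval_C]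
      rfl
    | add p q hp hq => rw [map_add, map_add, hp, hq]
    | mul_X p i hp => rw [map_mul, map_mul, hp, hιX, hσtau, tau_ne s' i.1 i.2]
  have hσ0 : σ (tau s'.succ 0) = 0 := by
    rw [tau_ne s'.succ 0 (Fin.succ_ne_zero s').symm]
    change aeval _ (X _) = _
    rw [aeval_X]
    rfl
  have hισ : ∀ f, f - ι (σ f) ∈ Q := by
    intro f
    have h1 : ((Ideal.Quotient.mkₐ O Q).comp (ι.comp σ)) = Ideal.Quotient.mkₐ O Q := by
      apply MvPolynomial.algHom_ext
      rintro ⟨j, hj⟩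
      rw [AlgHom.comp_apply, AlgHom.comp_apply]
      have h2 : (X ⟨j, hj⟩ : MvPolynomial {j // j ≠ s'.succ} O) = tau s'.succ j :=
        (tau_ne s'.succ j hj).symm
      rw [h2]
      revert hj h2
      refine Fin.cases ?_ (fun i => ?_) j
      · intro hj h2
        rw [hσ0, map_zero, map_zero]
        exact (Ideal.Quotient.eq_zero_iff_mem.2 ha0).symm
      · intro hj h2
        rw [hσtau, tau_ne s' i (fun h => hj (by rw [h])), hιX]
    have h2 := congrArg (fun g => g f) h1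
    simp only [AlgHom.comp_apply] at h2
    exact Ideal.Quotient.eq.1 h2.symm
  let Q' : Ideal (MvPolynomial {j // j ≠ s'} O) := Q.comap ι.toRingHom
  have hQ' : Q'.IsPrime := Ideal.comap_isPrime _ _
  have hmem' : ∀ P, P ∈ Q' ↔ ι P ∈ Q := fun P => Iff.rfl
  have hσQ : ∀ f, f ∈ Q ↔ σ f ∈ Q' := by
    intro f
    rw [hmem']
    constructor
    · intro hfQ
      have h1 := Q.sub_mem hfQ (hισ f)
      rwa [sub_sub_cancel] at h1
    · intro hfQ
      have h1 := Q.add_mem (hισ f) hfQ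
      rwa [sub_add_cancel] at h1
  have hσQ2 : ∀ f ∈ Q ^ 2, σ f ∈ Q' ^ 2 := by
    intro f hf
    have h1 : (Q ^ 2).map σ.toRingHom ≤ Q' ^ 2 := by
      rw [Ideal.map_pow]
      refine Ideal.pow_right_mono ?_ 2
      rw [Ideal.map_le_iff_le_comap]
      intro g hg
      exact (hσQ g).1 hg
    exact h1 (Ideal.mem_map_of_mem _ hf)
  have hσG : σ ((tau s'.succ 0) ^ N + iot s' f₀) = f₀ := by
    rw [map_add, map_pow, hσ0, zero_pow (by omega), zero_add]
    exact hσι f₀
  have hC' : ∀ r : O, C r ∈ Q' ↔ r ∈ 𝔭 := by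
    intro r
    rw [hmem']
    change rename _ (C r) ∈ Q ↔ _
    rw [rename_C]
    exact hCQ r
  have hF' : f₀ ∈ Q' := by
    rw [← hσG]
    exact (hσQ _).1 hGQ
  refine h Q' hQ' hC' hF' (fun a => Iff.rfl) (σ f) (fun h3 => hf ((hσQ f).2 h3)) ?_
  have h4 := hσQ2 _ hfG
  rwa [map_mul, hσG] at h4

/-- The wild case, in the chart `y_(s') = 1`. -/
theorem cyc_wild {O : Type} [CommRing O] [IsNoetherianRing O] (𝔭 : Ideal O) [𝔭.IsPrime]
    (d : ℕ) {r : ℕ} (s' : Fin (r + 1)) (F : MvPolynomial (Fin (r + 1)) O) (p : ℕ) (hp : p.Prime)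
    (hpd : p ∣ d) (hp𝔭 : (p : O) ∈ 𝔭)
    (hw : ∀ q : Ideal (MvPolynomial {j : Fin (r + 1) // j ≠ s'} O), q.IsPrime →
      (∀ r, C r ∈ q ↔ r ∈ 𝔭) → (∀ j, pderiv j (deh s' F) ∈ q) →
      Finite (MvPolynomial {j : Fin (r + 1) // j ≠ s'} O ⧸ q) ∧ ∀ g, deh s' F + g ^ p ∉ q ^ 2)
    (Q : Ideal (MvPolynomial {j // j ≠ s'.succ} O)) (hQ : Q.IsPrime)
    (hCQ : ∀ r : O, C r ∈ Q ↔ r ∈ 𝔭) (hGQ : deh s'.succ (cyc d F) ∈ Q)
    (hall : ∀ j, deh s'.succ (pderiv j (cyc d F)) ∈ Q)
    (h : MvPolynomial {i // i ≠ s'.succ} O) (hh : h ∉ Q) :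
    h * deh s'.succ (cyc d F) ∉ Q ^ 2 := by
  intro hcon
  let t : Fin (r + 2) := s'.succ
  let A := MvPolynomial {j : Fin (r + 1) // j ≠ s'} O
  let ι : A →ₐ[O] MvPolynomial {j // j ≠ t} O := iot s'
  have h0t : (0 : Fin (r + 2)) ≠ t := (Fin.succ_ne_zero _).symm
  let x : MvPolynomial {j // j ≠ t} O := X ⟨0, h0t⟩
  let f : A := deh s' F
  have hG : deh t (cyc d F) = x ^ d + ι f := by
    change deh s'.succ (cyc d F) = _
    rw [deh_cyc, tau_ne s'.succ 0 h0t]
  let q : Ideal A := Q.comap ι.toRingHom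
  have hq : q.IsPrime := Ideal.comap_isPrime _ _
  have hmem : ∀ P, P ∈ q ↔ ι P ∈ Q := fun P => Iff.rfl
  have hCq : ∀ r : O, C r ∈ q ↔ r ∈ 𝔭 := by
    intro r
    rw [hmem]
    change rename _ (C r) ∈ Q ↔ _
    rw [rename_C]
    exact hCQ r
  have hpq : ∀ j, pderiv j (deh s' F) ∈ q := by
    intro j
    rw [pderiv_deh, hmem]
    change iot s' (deh s' _) ∈ Q
    rw [iot_deh, ← pderiv_succ_cyc d F j]
    exact hall _
  obtain ⟨hfin, hg⟩ := hw q hq hCq hpq
  have hpA : (p : A) ∈ q := by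
    have h1 := (hCq (p : O)).2 hp𝔭
    rwa [map_natCast] at h1
  have hpQ : (p : MvPolynomial {j // j ≠ t} O) ∈ Q := by
    have h1 := (hCQ (p : O)).2 hp𝔭
    rwa [map_natCast] at h1
  have hqmax : q.IsMaximal := by
    have : IsDomain (A ⧸ q) := Ideal.Quotient.isDomain q
    exact Ideal.Quotient.maximal_of_isField q (Finite.isField_of_domain (A ⧸ q))
  -- `-f` is a `p`-th power modulo `q`
  obtain ⟨g, hgq⟩ : ∃ g : A, f + g ^ p ∈ q := by
    have : IsDomain (A ⧸ q) := Ideal.Quotient.isDomain q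
    have : Fact p.Prime := ⟨hp⟩
    have : CharP (A ⧸ q) p := by
      rw [CharP.charP_iff_prime_eq_zero hp]
      have h1 := Ideal.Quotient.eq_zero_iff_mem.2 hpA
      rwa [map_natCast] at h1
    have hs : Function.Surjective (frobenius (A ⧸ q) p) :=
      Finite.injective_iff_surjective.1 (frobenius_inj (A ⧸ q) p)
    obtain ⟨gb, hgb⟩ := hs (Ideal.Quotient.mk q (-f))
    obtain ⟨g, rfl⟩ := Ideal.Quotient.mk_surjective gb
    refine ⟨g, ?_⟩
    rw [← Ideal.Quotient.eq_zero_iff_mem, map_add, map_pow]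
    rw [frobenius_def] at hgb
    rw [hgb, map_neg, add_neg_cancel]
  obtain ⟨e', he'⟩ := hpd
  let z : MvPolynomial {j // j ≠ t} O := x ^ e'
  have hz : x ^ d = z ^ p := by
    rw [he', mul_comm, pow_mul]
  set w := z - ι g with hw'
  obtain ⟨ρ, hρ⟩ := exists_add_pow_prime_eq hp (ι g) w
  have hzw : ι g + w = z := by rw [hw']; ring
  rw [hzw] at hρ
  have hwQ : w ∈ Q := by
    apply hQ.mem_of_pow_mem p
    have h1 : z ^ p + ι f ∈ Q := by rw [← hz, ← hG]; exact hGQ
    have h2 : ι (f + g ^ p) ∈ Q := hgq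
    rw [map_add, map_pow] at h2
    have h3 : w ^ p = (z ^ p + ι f) - (ι f + ι g ^ p) - (p : MvPolynomial {j // j ≠ t} O) *
        ι g * w * ρ := by
      rw [hρ]
      ring
    rw [h3]
    refine Q.sub_mem (Q.sub_mem h1 h2) ?_
    rw [mul_assoc, mul_assoc]
    exact Q.mul_mem_right _ hpQ
  have hdiff : z ^ p + ι f - ι (f + g ^ p) ∈ Q ^ 2 := by
    have h3 : z ^ p + ι f - ι (f + g ^ p) = w ^ p + (p : MvPolynomial {j // j ≠ t} O) *
        w * (ι g * ρ) := by
      rw [hρ, map_add, map_pow]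
      ring
    rw [h3]
    refine Ideal.add_mem _ ?_ (Ideal.mul_mem_right _ _ ?_)
    · exact Ideal.pow_le_pow_right hp.two_le (Ideal.pow_mem_pow hwQ p)
    · rw [pow_two]
      exact Ideal.mul_mem_mul hpQ hwQ
  have hcon2 : h * ι (f + g ^ p) ∈ Q ^ 2 := by
    change h * deh t (cyc d F) ∈ Q ^ 2 at hcon
    rw [hG, hz] at hcon
    have h3 : h * ι (f + g ^ p) = h * (z ^ p + ι f) - h * (z ^ p + ι f - ι (f + g ^ p)) := by
      ring
    rw [h3]
    exact Ideal.sub_mem _ hcon (Ideal.mul_mem_left _ _ hdiff)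
  -- transport to the polynomial ring over `A`
  let e : MvPolynomial {j // j ≠ t} O →ₐ[O] Polynomial A :=
    aeval (fun j => Fin.cases (motive := fun _ => Polynomial A) Polynomial.X
      (fun i => Polynomial.C (tau s' i)) j.1)
  let ψ : Polynomial A →+* MvPolynomial {j // j ≠ t} O := Polynomial.eval₂RingHom ι.toRingHom x
  have hψC : ∀ a : A, ψ (Polynomial.C a) = ι a := fun a => Polynomial.eval₂_C _ _
  have hψX : ψ Polynomial.X = x := Polynomial.eval₂_X _ _
  have hψe : ∀ w, ψ (e w) = w := by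
    intro w
    induction w using MvPolynomial.induction_on with
    | C a =>
      change ψ (aeval _ (C a)) = _
      rw [aeval_C]
      change ψ (Polynomial.C (C a)) = _
      rw [hψC]
      change rename _ (C a) = _
      rw [rename_C]
    | add p q hp hq => rw [map_add, map_add, hp, hq]
    | mul_X p i hp =>
      rw [map_mul, map_mul, hp]
      congr 1
      change ψ (aeval _ (X i)) = _
      rw [aeval_X]
      obtain ⟨j, hj⟩ := i
      revert hj
      refine Fin.cases ?_ (fun i => ?_) j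
      · intro hj
        exact hψX
      · intro hj
        have hi : i ≠ s' := fun h2 => hj (by rw [h2])
        change ψ (Polynomial.C (tau s' i)) = _
        rw [hψC, tau_ne s' i hi]
        change rename _ (X _) = _
        rw [rename_X]
  have heι : ∀ a : A, e (ι a) = Polynomial.C a := by
    intro a
    induction a using MvPolynomial.induction_on with
    | C a =>
      change e (rename _ (C a)) = _
      rw [rename_C]
      change aeval _ (C a) = _
      rw [aeval_C]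
      rfl
    | add p q hp hq => rw [map_add, map_add, hp, hq, map_add]
    | mul_X p i hp =>
      rw [map_mul, map_mul, hp, map_mul]
      congr 1
      change e (rename _ (X i)) = _
      rw [rename_X]
      change aeval _ (X _) = _
      rw [aeval_X]
      change Polynomial.C (tau s' (i : Fin (r + 1))) = _
      rw [tau_ne s' (i : Fin (r + 1)) i.2]
  let Qh : Ideal (Polynomial A) := Q.comap ψ
  have hQh : Qh.IsPrime := Ideal.comap_isPrime _ _
  have hA : ∀ a, Polynomial.C a ∈ Qh ↔ a ∈ q := by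
    intro a
    rw [Ideal.mem_comap, hψC, hmem]
  have heh : e h ∉ Qh := by
    rw [Ideal.mem_comap, hψe]
    exact hh
  apply lemL q hqmax (f + g ^ p) hgq (hg g) Qh hQh hA (e h) heh
  rw [← heι, ← map_mul]
  have h2 : (Q ^ 2).map e.toRingHom ≤ Qh ^ 2 := by
    rw [Ideal.map_pow]
    refine Ideal.pow_right_mono ?_ 2
    rw [Ideal.map_le_iff_le_comap]
    intro g hg
    change ψ (e g) ∈ Q
    rw [hψe]
    exact hg
  exact h2 (Ideal.mem_map_of_mem _ hcon2)

/-- The wild condition of cyclic coverings at `𝔭`. -/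
def WildCyc {O : Type} [CommRing O] (𝔭 : Ideal O) (d : ℕ) {m : ℕ}
    (F : MvPolynomial (Fin m) O) : Prop :=
  ∀ p : ℕ, p.Prime → p ∣ d → (p : O) ∈ 𝔭 →
    ∀ (s : Fin m) (q : Ideal (MvPolynomial {j // j ≠ s} O)), q.IsPrime →
      (∀ r, C r ∈ q ↔ r ∈ 𝔭) → (∀ j, pderiv j (deh s F) ∈ q) →
      Finite (MvPolynomial {j // j ≠ s} O ⧸ q) ∧ ∀ g, deh s F + g ^ p ∉ q ^ 2

/-- Regularity of `x ^ d + F(y) = 0`. -/
theorem crit_cyc {O : Type} [CommRing O] [IsNoetherianRing O] (𝔭 : Ideal O) [𝔭.IsPrime]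
    (d : ℕ) (hd : 2 ≤ d) {r : ℕ} (F : MvPolynomial (Fin (r + 1)) O) (hF : F.IsHomogeneous d)
    (hreg : Crit 𝔭 F) (hw : WildCyc 𝔭 d F) : Crit 𝔭 (cyc d F) := by
  intro s Q hQ hCQ hGQ
  by_contra hcon
  push Not at hcon
  obtain ⟨hpd, f, hf, hfG⟩ := hcon
  have hGh := isHomogeneous_cyc d F hF
  have hall := all_pderiv_mem _ d hGh s Q hGQ hpd
  obtain ⟨j, hj⟩ : ∃ j : Fin (r + 1), (tau s j.succ : MvPolynomial {i // i ≠ s} O) ∉ Q := by
    by_contra hcon2
    push Not at hcon2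
    let ρ : MvPolynomial (Fin (r + 1)) O →ₐ[O] MvPolynomial {j // j ≠ s} O :=
      (aeval (tau s)).comp (rename Fin.succ)
    have h1 : F ∈ Q.comap ρ.toRingHom := by
      refine mem_of_homog _ ?_ F d (by omega) hF
      intro j
      change aeval (tau s) (rename Fin.succ (X j)) ∈ Q
      rw [rename_X, aeval_X]
      exact hcon2 j
    have h2 : deh s (rename Fin.succ F) ∈ Q := h1
    have h3 : (tau s 0 : MvPolynomial {i // i ≠ s} O) ∈ Q := by
      apply hQ.mem_of_pow_mem d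
      unfold cyc at hGQ
      rw [deh_add, deh_pow, deh_X] at hGQ
      have h4 := Q.sub_mem hGQ h2
      rwa [add_sub_cancel_right] at h4
    have h5 : ∀ i : Fin (r + 2), (tau s i : MvPolynomial {i // i ≠ s} O) ∈ Q :=
      fun i => Fin.cases h3 hcon2 i
    have h6 := h5 s
    rw [tau_self] at h6
    exact hQ.ne_top ((Ideal.eq_top_iff_one _).2 h6)
  obtain ⟨Q', hQ', hCQ', hiff, hmain⟩ := chart_change 𝔭 s j.succ Q hQ hCQ hj
  refine hmain (cyc d F) d hGh ?_ f hf hfG
  intro h hh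
  have hG' := (hiff _ d hGh).2 hGQ
  have hall' := fun i => (hiff _ (d - 1) (hGh.pderiv (i := i))).2 (hall i)
  by_cases ha0 : (tau j.succ 0 : MvPolynomial {i // i ≠ j.succ} O) ∈ Q'
  · rw [deh_cyc] at hG' ⊢
    refine cyc_retract 𝔭 d hd j (deh j F) Q' hQ' hCQ' hG' ha0 ?_ h hh
    intro q hq hCq hfq hιq
    rcases hreg j q hq hCq hfq with ⟨i, hi⟩ | h2
    · exfalso
      apply hi
      rw [pderiv_deh, ← hιq, iot_deh, ← pderiv_succ_cyc d F]
      exact hall' _
    · exact h2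
  · have hd1 : (d : O) ∈ 𝔭 := by
      have h0 := hall' 0
      rw [pderiv_zero_cyc, deh_mul, deh_pow, deh_natCast, deh_X] at h0
      have h1 := (hQ'.mem_or_mem h0).resolve_right (fun h => ha0 (hQ'.mem_of_pow_mem _ h))
      rw [← hCQ', map_natCast]
      exact h1
    obtain ⟨p, hp, hpdvd, hp𝔭⟩ := exists_prime_mem 𝔭 d (by omega) hd1
    exact cyc_wild 𝔭 d j F p hp hpdvd hp𝔭 (hw p hp hpdvd hp𝔭 j) Q' hQ' hCQ' hG' hall' h hh

/-- Smoothness of `x ^ d + F(y) = 0` over a field of characteristic zero. -/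
theorem smooth_cyc {K : Type} [Field K] [CharZero K] (d : ℕ) (hd : 2 ≤ d) {r : ℕ}
    (F : MvPolynomial (Fin (r + 1)) K) (hsm : Smooth F) : Smooth (cyc d F) := by
  have key : ∀ P : Ideal (MvPolynomial (Fin (r + 2)) K), P.IsPrime →
      (∀ j, pderiv j (cyc d F) ∈ P) → ∀ i, X i ∈ P := by
    intro P hP hall i
    refine Fin.cases ?_ (fun i => ?_) i
    · have h0 := hall 0
      rw [pderiv_zero_cyc] at h0
      have hd0 : ((d : ℕ) : MvPolynomial (Fin (r + 2)) K) ∉ P := by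
        intro h
        have h2 : IsUnit ((d : ℕ) : MvPolynomial (Fin (r + 2)) K) := by
          have h3 : ((d : ℕ) : K) ≠ 0 := by
            rw [Nat.cast_ne_zero]
            omega
          have h4 := (Ne.isUnit h3).map (C : K →+* MvPolynomial (Fin (r + 2)) K)
          rwa [map_natCast] at h4
        exact hP.ne_top (Ideal.eq_top_of_isUnit_mem _ h h2)
      exact hP.mem_of_pow_mem _ ((hP.mem_or_mem h0).resolve_left hd0)
    · let P' : Ideal (MvPolynomial (Fin (r + 1)) K) := P.comap (rename Fin.succ :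
        MvPolynomial (Fin (r + 1)) K →ₐ[K] MvPolynomial (Fin (r + 2)) K).toRingHom
      have hP' : P'.IsPrime := Ideal.comap_isPrime _ _
      have hmem' : ∀ f, f ∈ P' ↔ rename Fin.succ f ∈ P := fun f => Iff.rfl
      have h2 : Ideal.span (Set.range fun j => pderiv j F) ≤ P' := by
        rw [Ideal.span_le]
        rintro _ ⟨j, rfl⟩
        change pderiv j F ∈ P'
        rw [hmem', ← pderiv_succ_cyc d F]
        exact hall _
      have h3 := (Ideal.IsPrime.radical_le_iff hP').2 h2 (hsm i)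
      rw [hmem', rename_X] at h3
      exact h3
  intro i
  rw [Ideal.radical_eq_sInf, Submodule.mem_sInf]
  rintro P ⟨hPle, hP⟩
  exact key P hP (fun j => hPle (Ideal.subset_span ⟨j, rfl⟩)) i

end Pool.Agent.TH214.RM
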