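import Pool.Agent.TH214.RM.Cyc

/-! Cyclic coverings of towers. -/

set_option autoImplicit false
set_option linter.unusedSectionVars false
set_option linter.unusedVariables false

open MvPolynomial NumberField

namespace Pool.Agent.TH214.RM

open Pool.Agent.H918R2.Quad

section retr

variable {O : Type} [CommRing O] {m : ℕ} (s' : Fin (m + 1))

theorem retract_data (Q : Ideal (MvPolynomial {j // j ≠ s'.succ} O))
    (ha0 : (tau s'.succ 0 : MvPolynomial {i // i ≠ s'.succ} O) ∈ Q) :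
    ∃ σ : MvPolynomial {j // j ≠ s'.succ} O →ₐ[O] MvPolynomial {j // j ≠ s'} O,
      (∀ a, σ (iot s' a) = a) ∧ σ (tau s'.succ 0) = 0 ∧ (∀ f, f - iot s' (σ f) ∈ Q) ∧
      ∀ f ∈ Q ^ 2, σ f ∈ (Q.comap (iot s').toRingHom) ^ 2 := by
  let ι : MvPolynomial {j // j ≠ s'} O →ₐ[O] MvPolynomial {j // j ≠ s'.succ} O := iot s'
  let σ : MvPolynomial {j // j ≠ s'.succ} O →ₐ[O] MvPolynomial {j // j ≠ s'} O :=
    aeval (fun j => Fin.cases (motive := fun _ => MvPolynomial {j // j ≠ s'} O) 0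
      (fun i => tau s' i) j.1)
  have hσtau : ∀ i, σ (tau s'.succ i.succ) = tau s' i := by
    intro i
    by_cases hi : i = s'
    · subst hi
      rw [tau_self, tau_self, map_one]
    · rw [tau_ne s'.succ i.succ (fun h => hi (Fin.succ_injective _ h))]
      change aeval _ (X _) = _
      rw [aeval_X]
      rfl
  have hιX : ∀ i : {j // j ≠ s'}, ι (X i) = tau s'.succ i.1.succ := by
    intro i
    change rename _ (X i) = _
    rw [rename_X, tau_ne s'.succ i.1.succ (fun h => i.2 (Fin.succ_injective _ h))]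
  have hσι : ∀ a, σ (ι a) = a := by
    intro a
    induction a using MvPolynomial.induction_on with
    | C a =>
      change σ (rename _ (C a)) = _
      rw [rename_C]
      change aeval _ (C a) = _
      rw [aeval_C]
      rfl
    | add p q hp hq => rw [map_add, map_add, hp, hq]
    | mul_X p i hp => rw [map_mul, map_mul, hp, hιX, hσtau, tau_ne s' i.1 i.2]
  have hσ0 : σ (tau s'.succ 0) = 0 := by
    rw [tau_ne s'.succ 0 (Fin.succ_ne_zero s').symm]
    change aeval _ (X _) = _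
    rw [aeval_X]
    rfl
  have hισ : ∀ f, f - ι (σ f) ∈ Q := by
    intro f
    have h1 : ((Ideal.Quotient.mkₐ O Q).comp (ι.comp σ)) = Ideal.Quotient.mkₐ O Q := by
      apply MvPolynomial.algHom_ext
      rintro ⟨j, hj⟩
      rw [AlgHom.comp_apply, AlgHom.comp_apply]
      have h2 : (X ⟨j, hj⟩ : MvPolynomial {j // j ≠ s'.succ} O) = tau s'.succ j :=
        (tau_ne s'.succ j hj).symm
      rw [h2]
      revert hj h2
      refine Fin.cases ?_ (fun i => ?_) j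
      · intro hj h2
        rw [hσ0, map_zero, map_zero]
        exact (Ideal.Quotient.eq_zero_iff_mem.2 ha0).symm
      · intro hj h2
        rw [hσtau, tau_ne s' i (fun h => hj (by rw [h])), hιX]
    have h2 := congrArg (fun g => g f) h1
    simp only [AlgHom.comp_apply] at h2
    exact Ideal.Quotient.eq.1 h2.symm
  refine ⟨σ, hσι, hσ0, hισ, ?_⟩
  intro f hf
  have h1 : (Q ^ 2).map σ.toRingHom ≤ (Q.comap (iot s').toRingHom) ^ 2 := by
    rw [Ideal.map_pow]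
    refine Ideal.pow_right_mono ?_ 2
    rw [Ideal.map_le_iff_le_comap]
    intro g hg
    change ι (σ g) ∈ Q
    have h2 := Q.sub_mem hg (hισ g)
    rwa [sub_sub_cancel] at h2
  exact h1 (Ideal.mem_map_of_mem _ hf)

theorem wild_lift (Q : Ideal (MvPolynomial {j // j ≠ s'.succ} O))
    (ha0 : (tau s'.succ 0 : MvPolynomial {i // i ≠ s'.succ} O) ∈ Q)
    (H c : MvPolynomial {j // j ≠ s'.succ} O) (f₀ : MvPolynomial {j // j ≠ s'} O)
    (hH : H = tau s'.succ 0 * c + iot s' f₀) (p : ℕ)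
    (hfin : Finite (MvPolynomial {j // j ≠ s'} O ⧸ Q.comap (iot s').toRingHom))
    (hg : ∀ g, f₀ + g ^ p ∉ (Q.comap (iot s').toRingHom) ^ 2) :
    Finite (MvPolynomial {j // j ≠ s'.succ} O ⧸ Q) ∧ ∀ g, H + g ^ p ∉ Q ^ 2 := by
  obtain ⟨σ, h1, h2, h3, h4⟩ := retract_data s' Q ha0
  refine ⟨?_, ?_⟩
  · let φ := Ideal.quotientMap (I := Q.comap (iot s').toRingHom) Q (iot s').toRingHom le_rfl
    refine Finite.of_surjective φ ?_
    intro y
    obtain ⟨f, rfl⟩ := Ideal.Quotient.mk_surjective y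
    refine ⟨Ideal.Quotient.mk _ (σ f), ?_⟩
    change Ideal.Quotient.mk Q (iot s' (σ f)) = _
    rw [Ideal.Quotient.eq]
    have h5 := Q.neg_mem (h3 f)
    rwa [neg_sub] at h5
  · intro g hgQ
    have h5 := h4 _ hgQ
    rw [hH, map_add, map_add, map_mul, h2, zero_mul, zero_add, h1, map_pow] at h5
    exact hg _ h5

end retr

theorem all_pderiv_mem' {O ι : Type} [CommRing O] [Fintype ι] [DecidableEq ι]
    (G : MvPolynomial ι O) (d : ℕ) (hG : G.IsHomogeneous d) (s : ι)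
    (Q : Ideal (MvPolynomial {j : ι // j ≠ s} O))
    (hdQ : (d : MvPolynomial {j : ι // j ≠ s} O) ∈ Q)
    (h : ∀ j : {j : ι // j ≠ s}, pderiv j (deh s G) ∈ Q) (j : ι) : deh s (pderiv j G) ∈ Q := by
  by_cases hj : j = s
  · subst hj
    have h1 := congrArg (aeval (tau j) : MvPolynomial ι O →ₐ[O] MvPolynomial _ O)
      hG.sum_X_mul_pderiv
    rw [map_sum, map_nsmul] at h1
    rw [Finset.sum_eq_add_sum_sdiff_singleton_of_mem (Finset.mem_univ j)] at h1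
    simp only [map_mul, aeval_X] at h1
    have h2 : (tau j j : MvPolynomial {i : ι // i ≠ j} O) = 1 := by
      unfold tau
      rw [dif_pos rfl]
    rw [h2, one_mul] at h1
    have h3 : deh j (pderiv j G) = d • deh j G -
        ∑ i ∈ Finset.univ \ {j}, tau j i * deh j (pderiv i G) := by
      rw [eq_sub_iff_add_eq]
      exact h1
    rw [h3]
    refine Ideal.sub_mem _ ?_ (Ideal.sum_mem _ fun i hi => ?_)
    · rw [nsmul_eq_mul]
      exact Q.mul_mem_right _ hdQ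
    refine Ideal.mul_mem_left _ _ ?_
    have hij : i ≠ j := by
      intro h4
      rw [h4] at hi
      simp at hi
    have h5 := h ⟨i, hij⟩
    rwa [pderiv_deh] at h5
  · have h5 := h ⟨j, hj⟩
    rwa [pderiv_deh] at h5

theorem natCast_mem {O σ : Type} [CommRing O] {𝔭 : Ideal O} {d p : ℕ} (hpd : p ∣ d)
    (hp𝔭 : (p : O) ∈ 𝔭) (Q : Ideal (MvPolynomial σ O)) (hCQ : ∀ r : O, C r ∈ Q ↔ r ∈ 𝔭) :
    (d : MvPolynomial σ O) ∈ Q := by
  obtain ⟨e, rfl⟩ := hpd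
  rw [Nat.cast_mul]
  have h1 := (hCQ (p : O)).2 hp𝔭
  rw [map_natCast] at h1
  exact Q.mul_mem_right _ h1

theorem wildCyc_up {O : Type} [CommRing O] (𝔭 : Ideal O) (d : ℕ) (hd : 3 ≤ d) {m : ℕ}
    (F₀ : MvPolynomial (Fin (m + 1)) O) (hF₀ : F₀.IsHomogeneous d)
    (h : WildCyc 𝔭 d (up d F₀)) : WildCyc 𝔭 d (up d (up d F₀)) := by
  intro p hp hpd hp𝔭 s Q hQ hCQ hpart
  have hGh := isHomogeneous_up d (by omega) _ (isHomogeneous_up d (by omega) F₀ hF₀)
  have hdQ := natCast_mem hpd hp𝔭 Q hCQ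
  have hall := all_pderiv_mem' _ d hGh s Q hdQ hpart
  set F := up d F₀ with hFdef
  have ha0 : (tau s 0 : MvPolynomial {i // i ≠ s} O) ∈ Q := by
    have h0 := hall 0
    have h1 := hall 1
    rw [pderiv_zero_up, deh_mul, deh_mul, deh_pow, deh_natCast, deh_X, deh_X] at h0
    rw [pderiv_one_up, hFdef, pderiv_zero_up, map_mul, map_mul, map_pow, map_natCast, rename_X,
      rename_X, deh_add, deh_mul, deh_mul, deh_pow, deh_pow, deh_natCast, deh_X, deh_X,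
      deh_X] at h1
    exact zero_mem Q d hd _ _ _ h0 h1
  have hs0 : s ≠ 0 := by
    rintro rfl
    rw [tau_self] at ha0
    exact hQ.ne_top ((Ideal.eq_top_iff_one _).2 ha0)
  obtain ⟨s', rfl⟩ := Fin.exists_succ_eq.2 hs0
  have hq : (Q.comap (iot (O := O) s').toRingHom).IsPrime := Ideal.comap_isPrime _ _
  have hCq : ∀ r : O, C r ∈ Q.comap (iot (O := O) s').toRingHom ↔ r ∈ 𝔭 := by
    intro r
    change rename _ (C r) ∈ Q ↔ _
    rw [rename_C]
    exact hCQ r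
  have hpq : ∀ j, pderiv j (deh s' F) ∈ Q.comap (iot (O := O) s').toRingHom := by
    intro j
    rw [pderiv_deh]
    change iot s' (deh s' _) ∈ Q
    rw [iot_deh]
    by_cases hj0 : (j : Fin (m + 2)) = 0
    · rw [hj0]
      have h3 := hall 1
      rw [pderiv_one_up, deh_add, deh_pow, deh_X] at h3
      have h4 : tau s'.succ 0 ^ (d - 1) ∈ Q := Ideal.pow_mem_of_mem _ ha0 _ (by omega)
      have h5 := Q.sub_mem h3 h4
      rwa [add_sub_cancel_left] at h5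
    · rw [← pderiv_succ_up d F j hj0]
      exact hall _
  obtain ⟨hfin, hg⟩ := h p hp hpd hp𝔭 s' _ hq hCq hpq
  refine wild_lift s' Q ha0 _ (tau s'.succ 0 ^ (d - 2) * tau s'.succ 1) (deh s' F) ?_ p hfin hg
  rw [iot_deh]
  unfold up
  rw [deh_add, deh_mul, deh_pow, deh_X, deh_X]
  congr 1
  have h1 : d - 1 = (d - 2) + 1 := by omega
  rw [h1, pow_succ]
  ring

theorem wild_const {O : Type} [CommRing O] (𝔭 : Ideal O) (hfin : Finite (O ⧸ 𝔭)) (p : ℕ) (b : O)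
    (hb : ∀ c : O, b + c ^ p ∉ 𝔭 ^ 2) (q : Ideal (MvPolynomial {j : Fin (0 + 1) // j ≠ 0} O))
    (hC : ∀ r : O, C r ∈ q ↔ r ∈ 𝔭) :
    Finite (MvPolynomial {j : Fin (0 + 1) // j ≠ 0} O ⧸ q) ∧ ∀ g, C b + g ^ p ∉ q ^ 2 := by
  refine ⟨?_, ?_⟩
  · let φ : (O ⧸ 𝔭) →+* (MvPolynomial {j : Fin (0 + 1) // j ≠ 0} O ⧸ q) :=
      Ideal.Quotient.lift 𝔭 ((Ideal.Quotient.mk q).comp C) (fun a ha => by
        rw [RingHom.comp_apply, Ideal.Quotient.eq_zero_iff_mem]
        exact (hC a).2 ha)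
    refine Finite.of_surjective φ ?_
    intro y
    obtain ⟨P, rfl⟩ := Ideal.Quotient.mk_surjective y
    refine ⟨Ideal.Quotient.mk 𝔭 (constantCoeff P), ?_⟩
    change Ideal.Quotient.mk q (C (constantCoeff P)) = _
    rw [← eq_C_const P]
  · intro g hg
    have h2 := const_mem_sq 𝔭 q hC _ hg
    rw [map_add, map_pow, constantCoeff_C] at h2
    exact hb _ h2

theorem wildCyc_zero {O : Type} [CommRing O] (𝔭 : Ideal O) (hfin : Finite (O ⧸ 𝔭)) (d : ℕ)
    (hd : 3 ≤ d) (b : O)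
    (hb : ∀ p : ℕ, p.Prime → p ∣ d → (p : O) ∈ 𝔭 → ∀ c : O, b + c ^ p ∉ 𝔭 ^ 2) :
    WildCyc 𝔭 d (up d (C b * X 0 ^ d : MvPolynomial (Fin (0 + 1)) O)) := by
  intro p hp hpd hp𝔭 s Q hQ hCQ hpart
  have hGh := isHomogeneous_up d (by omega) _ (isHomogeneous_zero d b)
  have hdQ := natCast_mem hpd hp𝔭 Q hCQ
  have hall := all_pderiv_mem' _ d hGh s Q hdQ hpart
  have ha0 : (tau s 0 : MvPolynomial {i // i ≠ s} O) ∈ Q := by
    have h1 := hall 1
    have h2 : pderiv 0 (C b * X 0 ^ d : MvPolynomial (Fin (0 + 1)) O) =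
        (d : MvPolynomial (Fin (0 + 1)) O) * (C b * X 0 ^ (d - 1)) := by
      rw [pderiv_C_mul, Derivation.leibniz_pow, pderiv_X_self]
      simp only [smul_eq_mul, nsmul_eq_mul, mul_one]
      ring
    rw [pderiv_one_up, h2, map_mul, map_natCast, deh_add, deh_mul, deh_natCast, deh_pow,
      deh_X] at h1
    have h3 := Q.sub_mem h1 (Q.mul_mem_right
      (deh s (rename Fin.succ (C b * X 0 ^ (d - 1) : MvPolynomial (Fin (0 + 1)) O))) hdQ)
    rw [add_sub_cancel_right] at h3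
    exact hQ.mem_of_pow_mem _ h3
  have hs0 : s ≠ 0 := by
    rintro rfl
    rw [tau_self] at ha0
    exact hQ.ne_top ((Ideal.eq_top_iff_one _).2 ha0)
  obtain ⟨s', rfl⟩ := Fin.exists_succ_eq.2 hs0
  have hs' : s' = 0 := Fin.ext (by omega)
  subst hs'
  have hCq : ∀ r : O, C r ∈ Q.comap (iot (O := O) (0 : Fin (0 + 1))).toRingHom ↔ r ∈ 𝔭 := by
    intro r
    change rename _ (C r) ∈ Q ↔ _
    rw [rename_C]
    exact hCQ r
  obtain ⟨hfin', hg⟩ := wild_const 𝔭 hfin p b (hb p hp hpd hp𝔭) _ hCq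
  refine wild_lift 0 Q ha0 _ (tau (0 : Fin (0 + 1)).succ 0 ^ (d - 2) * tau (0 : Fin (0 + 1)).succ 1)
    (C b) ?_ p hfin' hg
  rw [← deh_zero_CX d b, iot_deh]
  unfold up
  rw [deh_add, deh_mul, deh_pow, deh_X, deh_X]
  congr 1
  have h1 : d - 1 = (d - 2) + 1 := by omega
  rw [h1, pow_succ]
  ring

theorem wildCyc_towr {O : Type} [CommRing O] (𝔭 : Ideal O) (d : ℕ) (hd : 3 ≤ d) {r : ℕ}
    (F : MvPolynomial (Fin (r + 1)) O) (hF : F.IsHomogeneous d) (h : WildCyc 𝔭 d (up d F))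
    (k : ℕ) : WildCyc 𝔭 d (towr d F k) := by
  have key : ∀ k, ∃ F₀ : MvPolynomial (Fin (r + k + 1)) O, F₀.IsHomogeneous d ∧
      towr d F k = up d F₀ ∧ WildCyc 𝔭 d (up d F₀) := by
    intro k
    induction k with
    | zero => exact ⟨F, hF, rfl, h⟩
    | succ k ih =>
      obtain ⟨F₀, hF₀, h1, h2⟩ := ih
      refine ⟨up d F₀, isHomogeneous_up d (by omega) F₀ hF₀, ?_, wildCyc_up 𝔭 d hd F₀ hF₀ h2⟩
      change up d (towr d F k) = _
      rw [h1]
  obtain ⟨F₀, hF₀, h1, h2⟩ := key k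
  rw [h1]
  exact h2

section final

variable {K : Type} [Field K] [NumberField K]

theorem data_cyc (d : ℕ) (hd : 2 ≤ d) {r : ℕ}
    (F : MvPolynomial (Fin (r + 1)) (𝓞 K)) (hF : F.IsHomogeneous d)
    (hsm : Smooth (map (algebraMap (𝓞 K) K) F))
    (hreg : ∀ 𝔭 : Ideal (𝓞 K), 𝔭.IsPrime → 𝔭 ≠ ⊥ → Crit 𝔭 F ∧ WildCyc 𝔭 d F) :
    (cyc d (map (algebraMap (𝓞 K) K) F)).IsHomogeneous d ∧
      Smooth (cyc d (map (algebraMap (𝓞 K) K) F)) ∧
      LocReg (𝓞 K) (cyc d (map (algebraMap (𝓞 K) K) F)) := by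
  refine ⟨isHomogeneous_cyc d _ (hF.map _), smooth_cyc d hd _ hsm, ?_⟩
  rw [← map_cyc]
  apply locReg_of_crit
  intro 𝔭 hp h0
  obtain ⟨h1, h2⟩ := hreg 𝔭 hp h0
  exact crit_cyc 𝔭 d hd F hF h1 h2

theorem data_cyc_chain (d : ℕ) (hd : 3 ≤ d) {r : ℕ} (k : ℕ)
    (F : MvPolynomial (Fin (r + 1)) (𝓞 K)) (hF : F.IsHomogeneous d)
    (hsm : Smooth (chain d 0 (map (algebraMap (𝓞 K) K) F)))
    (hreg : ∀ 𝔭 : Ideal (𝓞 K), 𝔭.IsPrime → 𝔭 ≠ ⊥ →
      Reg 𝔭 (chain d 0 F) ∧ WildCyc 𝔭 d (chain d 0 F)) :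
    (cyc d (chain d k (map (algebraMap (𝓞 K) K) F))).IsHomogeneous d ∧
      Smooth (cyc d (chain d k (map (algebraMap (𝓞 K) K) F))) ∧
      LocReg (𝓞 K) (cyc d (chain d k (map (algebraMap (𝓞 K) K) F))) := by
  rw [chain_eq] at hsm
  have h1 : (chain d k F).IsHomogeneous d := by
    rw [chain_eq]
    have key : ∀ k, (towr d F k).IsHomogeneous d := by
      intro k
      induction k with
      | zero => exact isHomogeneous_up d (by omega) F hF
      | succ k ih => exact isHomogeneous_up d (by omega) _ ih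
    exact key k
  have h2 : Smooth (map (algebraMap (𝓞 K) K) (chain d k F)) := by
    rw [map_chain, chain_eq]
    exact smooth_towr d hd _ hsm k
  have h3 := data_cyc d (by omega) (chain d k F) h1 h2 (fun 𝔭 hp h0 => by
    obtain ⟨h4, h5⟩ := hreg 𝔭 hp h0
    rw [chain_eq] at h4 h5
    rw [chain_eq]
    exact ⟨(crit_towr 𝔭 d hd F hF h4.crit k).2, wildCyc_towr 𝔭 d hd F hF h5 k⟩)
  rw [map_chain] at h3
  exact h3

theorem wildCyc_chain_zero (𝔭 : Ideal (𝓞 K)) (hp : 𝔭.IsPrime) (h0 : 𝔭 ≠ ⊥) (d : ℕ) (hd : 3 ≤ d)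
    (b : 𝓞 K)
    (hb : ∀ p : ℕ, p.Prime → p ∣ d → (p : 𝓞 K) ∈ 𝔭 → ∀ c : 𝓞 K, b + c ^ p ∉ 𝔭 ^ 2) :
    WildCyc 𝔭 d (chain d 0 (C b * X 0 ^ d : MvPolynomial (Fin (0 + 1)) (𝓞 K))) := by
  have hfin : Finite (𝓞 K ⧸ 𝔭) := Ideal.finiteQuotientOfFreeOfNeBot 𝔭 h0
  rw [chain_eq]
  exact wildCyc_zero 𝔭 hfin d hd b hb

end final

end Pool.Agent.TH214.RM
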