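import Pool.Agent.TH214.RM.Bin

/-! The binary cubic forms of Weierstrass equations. -/

set_option autoImplicit false
set_option linter.unusedSectionVars false
set_option linter.unusedVariables false

namespace Pool.Agent.TH214.RM

open Pool.Agent.H918R2.Quad MvPolynomial

theorem frob {O : Type} [CommRing O] (𝔭 : Ideal O) (hm : 𝔭.IsMaximal)
    (hfin : Finite (O ⧸ 𝔭)) (p : ℕ) (hpp : p.Prime) (hp𝔭 : (p : O) ∈ 𝔭) (v : O) :
    ∃ r : O, v + r ^ p ∈ 𝔭 := by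
  have := hm.isPrime
  have : IsDomain (O ⧸ 𝔭) := Ideal.Quotient.isDomain 𝔭
  have : Fact p.Prime := ⟨hpp⟩
  have : CharP (O ⧸ 𝔭) p := by
    rw [CharP.charP_iff_prime_eq_zero hpp]
    have h1 := Ideal.Quotient.eq_zero_iff_mem.2 hp𝔭
    rwa [map_natCast] at h1
  have hs : Function.Surjective (frobenius (O ⧸ 𝔭) p) :=
    Finite.injective_iff_surjective.1 (frobenius_inj (O ⧸ 𝔭) p)
  obtain ⟨rb, hrb⟩ := hs (-(Ideal.Quotient.mk 𝔭 v))
  obtain ⟨r, rfl⟩ := Ideal.Quotient.mk_surjective rb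
  refine ⟨r, ?_⟩
  rw [frobenius_def] at hrb
  rw [← Ideal.Quotient.eq_zero_iff_mem, map_add, map_pow, hrb, add_neg_cancel]

section uni

variable {O ι : Type} [CommRing O] (𝔭 : Ideal O) (hm : 𝔭.IsMaximal) (hfin : Finite (O ⧸ 𝔭))
  (a b : O) (y : ι) (hy : ∀ j, j = y) (Q : Ideal (MvPolynomial ι O)) (hQ : Q.IsPrime)
  (hQ𝔭 : ∀ r, C r ∈ Q ↔ r ∈ 𝔭)

include hm hfin hQ hQ𝔭

theorem ell_two (h2 : (2 : O) ∈ 𝔭) (hE' : C 3 * X y ^ 2 + C a ∈ Q) :
    ∃ t : O, X y - C t ∈ Q := by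
  obtain ⟨t, ht⟩ := frob 𝔭 hm hfin 2 Nat.prime_two (by exact_mod_cast h2) a
  refine ⟨t, hQ.mem_of_pow_mem 2 ?_⟩
  have h3 : (C 2 : MvPolynomial ι O) ∈ Q := (hQ𝔭 2).2 h2
  have h4 : (C (a + t ^ 2) : MvPolynomial ι O) ∈ Q := (hQ𝔭 _).2 ht
  have h5 : (X y - C t) ^ 2 = (C 3 * X y ^ 2 + C a) + C (a + t ^ 2) -
      C 2 * (X y ^ 2 + C a + X y * C t) := by
    have h6 : (C 3 : MvPolynomial ι O) = C 2 + 1 := by
      rw [← C_1, ← C_add]
      norm_num
    have h7 : (C 2 : MvPolynomial ι O) = 2 := by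
      rw [show (2 : O) = ((2 : ℕ) : O) by norm_num, map_natCast]
      norm_num
    rw [h6, h7, C_add, C_pow]
    ring
  rw [h5]
  exact Q.sub_mem (Q.add_mem hE' h4) (Q.mul_mem_right _ h3)

theorem ell_root (hE : X y ^ 3 + C a * X y + C b ∈ Q) (hE' : C 3 * X y ^ 2 + C a ∈ Q) :
    ∃ t : O, X y - C t ∈ Q := by
  have hp := hm.isPrime
  have hlin : C (2 * a) * X y + C (3 * b) ∈ Q := by
    have h1 : C (2 * a) * X y + C (3 * b) =
        C 3 * (X y ^ 3 + C a * X y + C b) - X y * (C 3 * X y ^ 2 + C a) := by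
      have h6 : (C 3 : MvPolynomial ι O) = 3 := by
        rw [show (3 : O) = ((3 : ℕ) : O) by norm_num, map_natCast]
        norm_num
      have h7 : (C 2 : MvPolynomial ι O) = 2 := by
        rw [show (2 : O) = ((2 : ℕ) : O) by norm_num, map_natCast]
        norm_num
      rw [C_mul, C_mul, h6, h7]
      ring
    rw [h1]
    exact Q.sub_mem (Q.mul_mem_left _ hE) (Q.mul_mem_left _ hE')
  by_cases h2a : 2 * a ∈ 𝔭
  · have h3b : 3 * b ∈ 𝔭 := by
      rw [← hQ𝔭]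
      have h1 := Q.sub_mem hlin (Q.mul_mem_right (X y) ((hQ𝔭 _).2 h2a))
      rwa [add_sub_cancel_left] at h1
    by_cases h3 : (3 : O) ∈ 𝔭
    · have h2 : (2 : O) ∉ 𝔭 := by
        intro h2
        have h4 := 𝔭.sub_mem h3 h2
        have h5 : (3 : O) - 2 = 1 := by norm_num
        rw [h5] at h4
        exact (Ideal.ne_top_iff_one 𝔭).1 hm.ne_top h4
      have ha : a ∈ 𝔭 := (hp.mem_or_mem h2a).resolve_left h2
      obtain ⟨t, ht⟩ := frob 𝔭 hm hfin 3 Nat.prime_three (by exact_mod_cast h3) b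
      refine ⟨t, ?_⟩
      have h4 : -t ∈ (⊤ : Ideal O) := trivial
      have h5 : X y ^ 3 + C b ∈ Q := by
        have h6 := Q.sub_mem hE (Q.mul_mem_right (X y) ((hQ𝔭 a).2 ha))
        have h7 : X y ^ 3 + C a * X y + C b - C a * X y = X y ^ 3 + C b := by ring
        rwa [h7] at h6
      apply hQ.mem_of_pow_mem 3
      have h8 : (C 3 : MvPolynomial ι O) ∈ Q := (hQ𝔭 3).2 h3
      have h9 : (C (b + t ^ 3) : MvPolynomial ι O) ∈ Q := (hQ𝔭 _).2 ht
      have h10 : (X y - C t) ^ 3 = (X y ^ 3 + C b) - C (b + t ^ 3) -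
          C 3 * (X y ^ 2 * C t - X y * C t ^ 2) := by
        have h6 : (C 3 : MvPolynomial ι O) = 3 := by
          rw [show (3 : O) = ((3 : ℕ) : O) by norm_num, map_natCast]
          norm_num
        rw [h6, C_add, C_pow]
        ring
      rw [h10]
      exact Q.sub_mem (Q.sub_mem h5 h9) (Q.mul_mem_right _ h8)
    · by_cases ha : a ∈ 𝔭
      · refine ⟨0, ?_⟩
        rw [C_0, sub_zero]
        have h4 : C 3 * X y ^ 2 ∈ Q := by
          have h5 := Q.sub_mem hE' ((hQ𝔭 a).2 ha)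
          rwa [add_sub_cancel_right] at h5
        have h5 := (hQ.mem_or_mem h4).resolve_left fun h6 => h3 ((hQ𝔭 3).1 h6)
        exact hQ.mem_of_pow_mem _ h5
      · have h2 : (2 : O) ∈ 𝔭 := (hp.mem_or_mem h2a).resolve_right ha
        exact ell_two 𝔭 hm hfin a y Q hQ hQ𝔭 h2 hE'
  · have h1 : 𝔭 ⊔ Ideal.span {2 * a} = ⊤ := by
      refine hm.1.2 _ (lt_of_le_of_ne le_sup_left fun h => h2a ?_)
      rw [h]
      exact Ideal.mem_sup_right (Ideal.mem_span_singleton_self _)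
    have h2 : (1 : O) ∈ 𝔭 ⊔ Ideal.span {2 * a} := by rw [h1]; trivial
    obtain ⟨m, hm', z, hz, hmz⟩ := Submodule.mem_sup.1 h2
    obtain ⟨c, rfl⟩ := Ideal.mem_span_singleton'.1 hz
    refine ⟨-(c * (3 * b)), ?_⟩
    have h3 : X y - C (-(c * (3 * b))) = C c * (C (2 * a) * X y + C (3 * b)) + C m * X y := by
      have h4 : (C (m + c * (2 * a)) : MvPolynomial ι O) = 1 := by rw [hmz, C_1]
      rw [C_add, C_mul] at h4
      have h5 : X y = (C m + C c * C (2 * a)) * X y := by rw [h4, one_mul]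
      nth_rewrite 1 [h5]
      simp only [C_neg, C_mul]
      ring
    rw [h3]
    exact Q.add_mem (Q.mul_mem_left _ hlin) (Q.mul_mem_right _ ((hQ𝔭 m).2 hm'))

include hy

/-- Evaluation at a rational point. -/
theorem ell_eval (t : O) (ht : X y - C t ∈ Q) (w : MvPolynomial ι O) :
    w - C (aeval (fun _ => t) w) ∈ Q := by
  induction w using MvPolynomial.induction_on with
  | C r =>
    rw [aeval_C]
    rw [Algebra.algebraMap_self, RingHom.id_apply, sub_self]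
    exact Q.zero_mem
  | add p q hp hq =>
    rw [map_add, C_add]
    have h2 : p + q - (C (aeval (fun _ => t) p) + C (aeval (fun _ => t) q)) =
      (p - C (aeval (fun _ => t) p)) + (q - C (aeval (fun _ => t) q)) := by ring
    rw [h2]
    exact Q.add_mem hp hq
  | mul_X p i hp =>
    rw [map_mul, aeval_X, C_mul, hy i]
    have h2 : p * X y - C (aeval (fun _ => t) p) * C t =
      (p - C (aeval (fun _ => t) p)) * X y + C (aeval (fun _ => t) p) * (X y - C t) := by ring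
    rw [h2]
    exact Q.add_mem (Q.mul_mem_right _ hp) (Q.mul_mem_left _ ht)

theorem ell_eval_sq (t : O) (ht : X y - C t ∈ Q) (w : MvPolynomial ι O) (hw : w ∈ Q ^ 2) :
    aeval (fun _ => t) w ∈ 𝔭 ^ 2 := by
  let χ : MvPolynomial ι O →ₐ[O] O := aeval (fun _ => t)
  have h1 : (Q ^ 2).map χ.toRingHom ≤ 𝔭 ^ 2 := by
    rw [Ideal.map_pow]
    refine Ideal.pow_right_mono ?_ 2
    rw [Ideal.map_le_iff_le_comap]
    intro z hz
    change χ z ∈ 𝔭
    rw [← hQ𝔭]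
    have h2 := Q.sub_mem hz (ell_eval 𝔭 hm hfin y hy Q hQ hQ𝔭 t ht z)
    rwa [sub_sub_cancel] at h2
  exact h1 (Ideal.mem_map_of_mem _ hw)

theorem ell_der (t : O) (ht : X y - C t ∈ Q) (hE' : C 3 * X y ^ 2 + C a ∈ Q) :
    3 * t ^ 2 + a ∈ 𝔭 := by
  rw [← hQ𝔭]
  have h1 := ell_eval 𝔭 hm hfin y hy Q hQ hQ𝔭 t ht (C 3 * X y ^ 2 + C a)
  have h2 := Q.sub_mem hE' h1
  rw [sub_sub_cancel, map_add, map_mul, map_pow, aeval_X, aeval_C, aeval_C] at h2
  exact h2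

theorem ell_reg (h : ∀ t : O, 3 * t ^ 2 + a ∈ 𝔭 → t ^ 3 + a * t + b ∉ 𝔭 ^ 2)
    (hE : X y ^ 3 + C a * X y + C b ∈ Q) (hE' : C 3 * X y ^ 2 + C a ∈ Q)
    (f : MvPolynomial ι O) (hf : f ∉ Q) : f * (X y ^ 3 + C a * X y + C b) ∉ Q ^ 2 := by
  intro hcon
  obtain ⟨t, ht⟩ := ell_root 𝔭 hm hfin a b y Q hQ hQ𝔭 hE hE'
  have h1 := ell_eval_sq 𝔭 hm hfin y hy Q hQ hQ𝔭 t ht _ hcon
  rw [map_mul, map_add, map_add, map_mul, map_pow, aeval_X, aeval_C, aeval_C] at h1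
  refine h t (ell_der 𝔭 hm hfin a y hy Q hQ hQ𝔭 t ht hE')
    (mem_sq_of_mul 𝔭 hm (aeval (fun _ => t) f) _ (fun h2 => hf ?_) h1)
  have h3 := Q.add_mem (ell_eval 𝔭 hm hfin y hy Q hQ hQ𝔭 t ht f) ((hQ𝔭 _).2 h2)
  rwa [sub_add_cancel] at h3

theorem ell_wild' (h2 : (2 : O) ∈ 𝔭)
    (h : ∀ t : O, 3 * t ^ 2 + a ∈ 𝔭 → ∀ e : O, t ^ 3 + a * t + b + e ^ 2 ∉ 𝔭 ^ 2)
    (hE' : C 3 * X y ^ 2 + C a ∈ Q) :
    Finite (MvPolynomial ι O ⧸ Q) ∧ ∀ g, X y ^ 3 + C a * X y + C b + g ^ 2 ∉ Q ^ 2 := by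
  obtain ⟨t, ht⟩ := ell_two 𝔭 hm hfin a y Q hQ hQ𝔭 h2 hE'
  refine ⟨?_, ?_⟩
  · let φ : (O ⧸ 𝔭) →+* (MvPolynomial ι O ⧸ Q) :=
      Ideal.Quotient.lift 𝔭 ((Ideal.Quotient.mk Q).comp C) (fun a ha => by
        rw [RingHom.comp_apply, Ideal.Quotient.eq_zero_iff_mem]
        exact (hQ𝔭 a).2 ha)
    refine Finite.of_surjective φ ?_
    intro z
    obtain ⟨P, rfl⟩ := Ideal.Quotient.mk_surjective z
    refine ⟨Ideal.Quotient.mk 𝔭 (aeval (fun _ => t) P), ?_⟩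
    change Ideal.Quotient.mk Q (C (aeval (fun _ => t) P)) = _
    exact (Ideal.Quotient.eq.2 (ell_eval 𝔭 hm hfin y hy Q hQ hQ𝔭 t ht P)).symm
  · intro g hg
    have h1 := ell_eval_sq 𝔭 hm hfin y hy Q hQ hQ𝔭 t ht _ hg
    rw [map_add, map_add, map_add, map_mul, map_pow, map_pow, aeval_X, aeval_C, aeval_C] at h1
    exact h t (ell_der 𝔭 hm hfin a y hy Q hQ hQ𝔭 t ht hE') _ h1

end uni

/-- The form `y_1 ^ 3 + a y_1 y_0 ^ 2 + b y_0 ^ 3`. -/
noncomputable def ell {O : Type} [CommRing O] (a b : O) : MvPolynomial (Fin (1 + 1)) O :=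
  X 1 ^ 3 + C a * X 1 * X 0 ^ 2 + C b * X 0 ^ 3

theorem ell_homog {O : Type} [CommRing O] (a b : O) : (ell a b).IsHomogeneous 3 := by
  unfold ell
  have hX0 := isHomogeneous_X O (0 : Fin (1 + 1))
  have hX1 := isHomogeneous_X O (1 : Fin (1 + 1))
  refine IsHomogeneous.add (IsHomogeneous.add ?_ ?_) ?_
  · have h1 := hX1.pow 3
    rwa [one_mul] at h1
  · have h1 := ((isHomogeneous_C (Fin (1 + 1)) a).mul hX1).mul (hX0.pow 2)
    exact h1
  · have h1 := (isHomogeneous_C (Fin (1 + 1)) b).mul (hX0.pow 3)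
    rwa [zero_add, one_mul] at h1

theorem ell_pd0 {O : Type} [CommRing O] (a b : O) :
    pderiv 0 (ell a b) = C 2 * C a * X 1 * X 0 + C 3 * C b * X 0 ^ 2 := by
  have h01 : (1 : Fin (1 + 1)) ≠ 0 := by decide
  unfold ell
  rw [map_add, map_add, Derivation.leibniz_pow, pderiv_X_of_ne h01, mul_assoc, pderiv_C_mul,
    Derivation.leibniz, Derivation.leibniz_pow, pderiv_X_of_ne h01, pderiv_X_self, pderiv_C_mul,
    Derivation.leibniz_pow, pderiv_X_self]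
  have h6 : (C 3 : MvPolynomial (Fin (1 + 1)) O) = 3 := by
    rw [show (3 : O) = ((3 : ℕ) : O) by norm_num, map_natCast]
    norm_num
  have h7 : (C 2 : MvPolynomial (Fin (1 + 1)) O) = 2 := by
    rw [show (2 : O) = ((2 : ℕ) : O) by norm_num, map_natCast]
    norm_num
  rw [h6, h7]
  simp only [smul_eq_mul, nsmul_eq_mul, mul_one, mul_zero, smul_zero, zero_add, add_zero,
    Nat.cast_ofNat]
  ring

theorem ell_pd1 {O : Type} [CommRing O] (a b : O) :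
    pderiv 1 (ell a b) = C 3 * X 1 ^ 2 + C a * X 0 ^ 2 := by
  have h01 : (0 : Fin (1 + 1)) ≠ 1 := by decide
  unfold ell
  rw [map_add, map_add, Derivation.leibniz_pow, pderiv_X_self, mul_assoc, pderiv_C_mul,
    Derivation.leibniz, Derivation.leibniz_pow, pderiv_X_of_ne h01, pderiv_X_self, pderiv_C_mul,
    Derivation.leibniz_pow, pderiv_X_of_ne h01]
  have h6 : (C 3 : MvPolynomial (Fin (1 + 1)) O) = 3 := by
    rw [show (3 : O) = ((3 : ℕ) : O) by norm_num, map_natCast]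
    norm_num
  rw [h6]
  simp only [smul_eq_mul, nsmul_eq_mul, mul_one, mul_zero, smul_zero, zero_add, add_zero,
    Nat.cast_ofNat]

theorem ell_deh0 {O : Type} [CommRing O] (a b : O) :
    ∃ y : {j : Fin (1 + 1) // j ≠ 0}, (∀ j, j = y) ∧
      deh 0 (ell a b) = X y ^ 3 + C a * X y + C b ∧
      deh 0 (pderiv 1 (ell a b)) = C 3 * X y ^ 2 + C a ∧
      pderiv y (deh 0 (ell a b)) = C 3 * X y ^ 2 + C a := by
  have h01 : (1 : Fin (1 + 1)) ≠ 0 := by decide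
  have hC : ∀ r : O, deh (0 : Fin (1 + 1)) (C r : MvPolynomial (Fin (1 + 1)) O) = C r := by
    intro r
    simp [deh]
  have h1 : deh 0 (pderiv 1 (ell a b)) = C 3 * X ⟨1, h01⟩ ^ 2 + C a := by
    rw [ell_pd1, deh_add, deh_mul, deh_mul, deh_pow, deh_pow, deh_X, deh_X, tau_self,
      tau_ne 0 1 h01, one_pow, mul_one, hC, hC]
  refine ⟨⟨1, h01⟩, ?_, ?_, h1, ?_⟩
  · rintro ⟨j, hj⟩
    apply Subtype.ext
    apply Fin.ext
    have h4 : (j : ℕ) ≠ 0 := fun h => hj (Fin.ext h)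
    have := j.2
    simp only [Fin.val_one]
    omega
  · unfold ell
    rw [deh_add, deh_add, deh_mul, deh_mul, deh_mul, deh_pow, deh_pow, deh_pow, deh_X, deh_X,
      tau_self, tau_ne 0 1 h01, one_pow, one_pow, mul_one, mul_one, hC, hC]
  · rw [pderiv_deh]
    exact h1

theorem ell_crit {O : Type} [CommRing O] (𝔭 : Ideal O) (hm : 𝔭.IsMaximal)
    (hfin : Finite (O ⧸ 𝔭)) (a b : O)
    (h : ∀ t : O, 3 * t ^ 2 + a ∈ 𝔭 → t ^ 3 + a * t + b ∉ 𝔭 ^ 2) : Crit 𝔭 (ell a b) := by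
  intro s Q hQ hCQ hG
  by_contra hcon
  push Not at hcon
  obtain ⟨hpd, f, hf, hfG⟩ := hcon
  have hh := ell_homog a b
  have hall := all_pderiv_mem _ 3 hh s Q hG hpd
  have ht : (tau s 0 : MvPolynomial {j // j ≠ s} O) ∉ Q := by
    intro h0
    have h1 : (tau s 1 : MvPolynomial {j // j ≠ s} O) ∈ Q := by
      have h2 := hG
      unfold ell at h2
      rw [deh_add, deh_add, deh_mul, deh_mul, deh_mul, deh_pow, deh_pow, deh_pow, deh_X,
        deh_X] at h2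
      have h3 : (tau s 1 : MvPolynomial {j // j ≠ s} O) ^ 3 ∈ Q := by
        have h4 := Q.sub_mem (Q.sub_mem h2
          (Q.mul_mem_left (deh s (C b)) (Ideal.pow_mem_of_mem _ h0 3 (by norm_num))))
          (Q.mul_mem_left (deh s (C a) * tau s 1) (Ideal.pow_mem_of_mem _ h0 2 (by norm_num)))
        have h5 : (tau s 1 : MvPolynomial {j // j ≠ s} O) ^ 3 + deh s (C a) * tau s 1 *
          tau s 0 ^ 2 + deh s (C b) * tau s 0 ^ 3 - deh s (C b) * tau s 0 ^ 3 -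
          deh s (C a) * tau s 1 * tau s 0 ^ 2 = tau s 1 ^ 3 := by ring
        rwa [h5] at h4
      exact hQ.mem_of_pow_mem _ h3
    have hs : s = 0 ∨ s = 1 := by
      have := s.2
      rcases Nat.lt_or_ge (s : ℕ) 1 with h | h
      · left
        apply Fin.ext
        simp only [Fin.val_zero]
        omega
      · right
        apply Fin.ext
        simp only [Fin.val_one]
        omega
    rcases hs with rfl | rfl
    · rw [tau_self] at h0
      exact hQ.ne_top ((Ideal.eq_top_iff_one _).2 h0)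
    · rw [tau_self] at h1
      exact hQ.ne_top ((Ideal.eq_top_iff_one _).2 h1)
  obtain ⟨Q', hQ', hCQ', hiff, hmain⟩ := chart_change 𝔭 s 0 Q hQ hCQ ht
  refine hmain _ 3 hh ?_ f hf hfG
  intro h' hh'
  obtain ⟨y, hy, hE, hE', -⟩ := ell_deh0 a b
  have h1 := (hiff _ 3 hh).2 hG
  have h2 := (hiff _ 2 hh.pderiv).2 (hall 1)
  rw [hE] at h1 ⊢
  rw [hE'] at h2
  exact ell_reg 𝔭 hm hfin a b y hy Q' hQ' hCQ' h h1 h2 h' hh'

theorem ell_wild {O : Type} [CommRing O] (𝔭 : Ideal O) (hm : 𝔭.IsMaximal)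
    (hfin : Finite (O ⧸ 𝔭)) (a b : O)
    (h : (2 : O) ∈ 𝔭 → ∀ t : O, 3 * t ^ 2 + a ∈ 𝔭 → ∀ e : O, t ^ 3 + a * t + b + e ^ 2 ∉ 𝔭 ^ 2) :
    Wild 𝔭 3 (ell a b) := by
  intro p hp hpd hp𝔭 q hq hC hpj
  have hp2 : p = 2 := by
    have h1 : p ∣ 2 := hpd
    exact (Nat.prime_dvd_prime_iff_eq hp Nat.prime_two).1 h1
  subst hp2
  obtain ⟨y, hy, hE, -, hE'⟩ := ell_deh0 a b
  have h1 := hpj y
  rw [hE'] at h1
  rw [hE]
  have h2 : (2 : O) ∈ 𝔭 := by exact_mod_cast hp𝔭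
  exact ell_wild' 𝔭 hm hfin a b y hy q hq hC h2 (h h2) h1

theorem ell_smooth {K : Type} [Field K] [CharZero K] (a b : K)
    (hd : 4 * a ^ 3 + 27 * b ^ 2 ≠ 0) : Smooth (ell a b) := by
  have key : ∀ P : Ideal (MvPolynomial (Fin (1 + 1)) K), P.IsPrime →
      (∀ j, pderiv j (ell a b) ∈ P) → X 0 ∈ P ∧ X 1 ∈ P := by
    intro P hP hall
    have hunit : ∀ r : K, r ≠ 0 → (C r : MvPolynomial (Fin (1 + 1)) K) ∉ P := by
      intro r hr h
      exact hP.ne_top (Ideal.eq_top_of_isUnit_mem _ h ((Ne.isUnit hr).map C))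
    have h0 := hall 0
    have h1 := hall 1
    rw [ell_pd0] at h0
    rw [ell_pd1] at h1
    have h6 : (C 3 : MvPolynomial (Fin (1 + 1)) K) = 3 := by
      rw [show (3 : K) = ((3 : ℕ) : K) by norm_num, map_natCast]
      norm_num
    have h7 : (C 2 : MvPolynomial (Fin (1 + 1)) K) = 2 := by
      rw [show (2 : K) = ((2 : ℕ) : K) by norm_num, map_natCast]
      norm_num
    by_cases hX0 : (X 0 : MvPolynomial (Fin (1 + 1)) K) ∈ P
    · refine ⟨hX0, ?_⟩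
      have h2 : (C 3 : MvPolynomial (Fin (1 + 1)) K) * X 1 ^ 2 ∈ P := by
        have h3 := P.sub_mem h1 (P.mul_mem_left (C a) (Ideal.pow_mem_of_mem _ hX0 2 (by norm_num)))
        rwa [add_sub_cancel_right] at h3
      exact hP.mem_of_pow_mem _ ((hP.mem_or_mem h2).resolve_left (hunit 3 (by norm_num)))
    · exfalso
      have h2 : (C 2 * C a * X 1 + C 3 * C b * X 0 : MvPolynomial (Fin (1 + 1)) K) ∈ P := by
        have h3 : (C 2 * C a * X 1 * X 0 + C 3 * C b * X 0 ^ 2 : MvPolynomial (Fin (1 + 1)) K) =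
            (C 2 * C a * X 1 + C 3 * C b * X 0) * X 0 := by ring
        rw [h3] at h0
        exact (hP.mem_or_mem h0).resolve_right hX0
      have h3 : (C (4 * a ^ 3 + 27 * b ^ 2) * X 0 ^ 2 : MvPolynomial (Fin (1 + 1)) K) ∈ P := by
        have h4 : (C (4 * a ^ 3 + 27 * b ^ 2) * X 0 ^ 2 : MvPolynomial (Fin (1 + 1)) K) =
            4 * C a ^ 2 * (C 3 * X 1 ^ 2 + C a * X 0 ^ 2) -
            3 * (C 2 * C a * X 1 - C 3 * C b * X 0) * (C 2 * C a * X 1 + C 3 * C b * X 0) := by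
          have h8 : (C 4 : MvPolynomial (Fin (1 + 1)) K) = 4 := by
            rw [show (4 : K) = ((4 : ℕ) : K) by norm_num, map_natCast]
            norm_num
          have h9 : (C 27 : MvPolynomial (Fin (1 + 1)) K) = 27 := by
            rw [show (27 : K) = ((27 : ℕ) : K) by norm_num, map_natCast]
            norm_num
          rw [C_add, C_mul, C_mul, C_pow, C_pow, h6, h7, h8, h9]
          ring
        rw [h4]
        exact P.sub_mem (P.mul_mem_left _ h1) (P.mul_mem_left _ h2)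
      rcases hP.mem_or_mem h3 with h4 | h4
      · exact hunit _ hd h4
      · exact hX0 (hP.mem_of_pow_mem _ h4)
  intro i
  rw [Ideal.radical_eq_sInf, Submodule.mem_sInf]
  rintro P ⟨hPle, hP⟩
  obtain ⟨h0, h1⟩ := key P hP (fun j => hPle (Ideal.subset_span ⟨j, rfl⟩))
  have hi : i = 0 ∨ i = 1 := by
    have := i.2
    rcases Nat.lt_or_ge (i : ℕ) 1 with h | h
    · left
      apply Fin.ext
      simp only [Fin.val_zero]
      omega
    · right
      apply Fin.ext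
      simp only [Fin.val_one]
      omega
  rcases hi with rfl | rfl
  · exact h0
  · exact h1

theorem ell_map {O K : Type} [CommRing O] [CommRing K] (φ : O →+* K) (a b : O) :
    map φ (ell a b) = ell (φ a) (φ b) := by
  unfold ell
  rw [map_add, map_add, map_mul, map_mul, map_mul, map_C, map_C, map_pow, map_pow, map_pow, map_X,
    map_X]

theorem ell_sect {O : Type} [CommRing O] (a b : O) :
    sect (ell a b) = (C 1 * X 0 ^ 3 : MvPolynomial (Fin 1) O) := by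
  unfold ell
  have h1 : (1 : Fin (1 + 1)) = Fin.succ 0 := rfl
  have h2 : ∀ (P : MvPolynomial (Fin (1 + 1)) O) (k : ℕ), sect (P ^ k) = sect P ^ k :=
    fun P k => map_pow _ _ _
  rw [sect_add, sect_add, sect_mul, sect_mul, sect_mul, h2, h2, h2, h1, sect_X_zero, sect_X_succ,
    zero_pow (by norm_num), zero_pow (by norm_num), mul_zero, mul_zero, add_zero, add_zero, C_1,
    one_mul]

open NumberField in
theorem data_ell {K : Type} [Field K] [NumberField K] (a b : 𝓞 K)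
    (hd : 4 * a ^ 3 + 27 * b ^ 2 ≠ 0)
    (h : ∀ 𝔭 : Ideal (𝓞 K), 𝔭.IsPrime → 𝔭 ≠ ⊥ → ∀ t : 𝓞 K, 3 * t ^ 2 + a ∈ 𝔭 →
      t ^ 3 + a * t + b ∉ 𝔭 ^ 2 ∧ (2 ∈ 𝔭 → ∀ e : 𝓞 K, t ^ 3 + a * t + b + e ^ 2 ∉ 𝔭 ^ 2)) :
    Smooth (map (algebraMap (𝓞 K) K) (ell a b)) ∧
      Smooth (map (algebraMap (𝓞 K) K) (sect (ell a b))) ∧
      ∀ 𝔭 : Ideal (𝓞 K), 𝔭.IsPrime → 𝔭 ≠ ⊥ →
        Reg 𝔭 (ell a b) ∧ Reg 𝔭 (sect (ell a b)) ∧ Wild 𝔭 3 (ell a b) := by
  have hinj : Function.Injective (algebraMap (𝓞 K) K) := IsFractionRing.injective (𝓞 K) K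
  refine ⟨?_, ?_, ?_⟩
  · rw [ell_map]
    refine ell_smooth _ _ ?_
    intro h1
    apply hd
    apply hinj
    rw [map_zero, ← h1, map_add, map_mul, map_mul, map_pow, map_pow, map_ofNat, map_ofNat]
  · rw [ell_sect, map_mul, map_C, map_pow, map_X, map_one]
    exact smooth_zero 3 (by norm_num) _ one_ne_zero
  · intro 𝔭 hp h0
    have hm := Ideal.IsPrime.isMaximal hp h0
    have hfin := Ideal.finiteQuotientOfFreeOfNeBot 𝔭 h0
    refine ⟨(ell_crit 𝔭 hm hfin a b fun t ht => (h 𝔭 hp h0 t ht).1).reg, ?_,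
      ell_wild 𝔭 hm hfin a b fun h2 t ht => (h 𝔭 hp h0 t ht).2 h2⟩
    rw [ell_sect]
    refine reg_zero 𝔭 hm 3 1 fun h1 => ?_
    exact (Ideal.ne_top_iff_one 𝔭).1 hm.ne_top (Ideal.pow_le_self (by norm_num) h1)

end Pool.Agent.TH214.RM
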