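import Pool.Agent.TH214.RM.Cyc2

/-! Coefficients over the rational numbers. -/

set_option autoImplicit false
set_option linter.unusedSectionVars false
set_option linter.unusedVariables false

open MvPolynomial NumberField

namespace Pool.Agent.TH214.RM

theorem rat_notMem_sq (n : ℕ) (hn : Squarefree n) (𝔭 : Ideal (𝓞 ℚ)) (hp : 𝔭.IsPrime) :
    (n : 𝓞 ℚ) ∉ 𝔭 ^ 2 := by
  intro h
  let φ : 𝓞 ℚ ≃+* ℤ := Rat.ringOfIntegersEquiv
  let I : Ideal ℤ := 𝔭.comap φ.symm.toRingHom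
  have hI : I.IsPrime := Ideal.comap_isPrime _ _
  have hφ : ∀ x ∈ 𝔭 ^ 2, φ x ∈ I ^ 2 := by
    intro x hx
    have h1 : (𝔭 ^ 2).map φ.toRingHom ≤ I ^ 2 := by
      rw [Ideal.map_pow]
      refine Ideal.pow_right_mono ?_ 2
      rw [Ideal.map_le_iff_le_comap]
      intro y hy
      change φ.symm (φ y) ∈ 𝔭
      rwa [φ.symm_apply_apply]
    exact h1 (Ideal.mem_map_of_mem _ hx)
  have h1 : (n : ℤ) ∈ I ^ 2 := by
    have h2 := hφ _ h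
    rwa [map_natCast] at h2
  obtain ⟨a, ha⟩ := (IsPrincipalIdealRing.principal I).principal
  have ha' : I = Ideal.span {a} := ha
  rw [ha', Ideal.span_singleton_pow, Ideal.mem_span_singleton, pow_two] at h1
  have h2 : Squarefree (n : ℤ) := Int.squarefree_natCast.2 hn
  have h3 := h2 a h1
  exact hI.ne_top (by rw [ha']; exact Ideal.span_singleton_eq_top.2 h3)

theorem rat_add_pow_notMem (n : ℕ) (hn : Squarefree n) (𝔭 : Ideal (𝓞 ℚ)) (hp : 𝔭.IsPrime)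
    (p : ℕ) (hp' : p.Prime) (hpn : p ∣ n) (hp𝔭 : (p : 𝓞 ℚ) ∈ 𝔭) (e : 𝓞 ℚ) :
    (n : 𝓞 ℚ) + e ^ p ∉ 𝔭 ^ 2 := by
  intro h
  have hnp : (n : 𝓞 ℚ) ∈ 𝔭 := by
    obtain ⟨m, rfl⟩ := hpn
    rw [Nat.cast_mul]
    exact 𝔭.mul_mem_right _ hp𝔭
  have h1 : e ^ p ∈ 𝔭 := by
    have h2 := 𝔭.sub_mem (Ideal.pow_le_self (by norm_num) h) hnp
    rwa [add_sub_cancel_left] at h2
  have h2 : e ∈ 𝔭 := hp.mem_of_pow_mem _ h1
  have h3 : e ^ p ∈ 𝔭 ^ 2 := Ideal.pow_le_pow_right hp'.two_le (Ideal.pow_mem_pow h2 p)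
  have h4 := (𝔭 ^ 2).sub_mem h h3
  rw [add_sub_cancel_right] at h4
  exact rat_notMem_sq n hn 𝔭 hp h4

end Pool.Agent.TH214.RM
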