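import Pool.Agent.TH214.RM.Crit
import Pool.Agent.W418.Diag1
import Pool.Agent.W418.Scale2

/-! The global module of a projective hypersurface with regular local equations. -/

set_option autoImplicit false
set_option linter.unusedSectionVars false
set_option linter.unusedVariables false

open scoped Pointwise

namespace Pool.Agent.TH214.RM

open Pool.Agent.H918R2.Quad Pool.Agent.H945R2.E Pool.Agent.W418 MvPolynomial

section

variable {O K F : Type} [CommRing O] [IsDedekindDomain O] [Field K] [Algebra O K]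
  [IsFractionRing O K] [Field F] [Algebra K F] [Algebra O F] [IsScalarTower O K F]

include K in
theorem regAt_of_crit (𝔭 : Ideal O) [𝔭.IsPrime] {n : ℕ} (G : MvPolynomial (Fin (n + 2)) O)
    (hG0 : G ≠ 0) (d : ℕ) (hGd : G.IsHomogeneous d) (hcrit : Crit 𝔭 G)
    (x : Fin (n + 2) → F) (hx0 : x 0 = 1)
    (hgen : IntermediateField.adjoin K (Set.range x) = ⊤)
    (b : Fin n → F) (htb : IsTranscendenceBasis K b)
    (x' : Fin (n + 2) → F) (u : Fin (n + 2) → Fin (n + 2) → K)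
    (hu : ∀ i, x i = ∑ j, algebraMap K F (u i j) * x' j) (hrel : aeval x' G = 0)
    (D : ℕ) (hD : 1 ≤ D)
    (M : Submodule O F) (hM : M ≤ Submodule.span O (Set.range x' ^ D))
    (hM2 : ∀ y ∈ Submodule.span O (Set.range x' ^ D), ∃ s, s ∉ 𝔭 ∧ s • y ∈ M) : RegAt 𝔭 M := by
  intro f hfM hf q hqp hq
  let R := Localization.subalgebra.ofField K 𝔭.primeCompl 𝔭.primeCompl_le_nonZeroDivisors
  have : IsLocalization.AtPrime R 𝔭 := Localization.subalgebra.isLocalization_ofField K _ _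
  have : IsFractionRing R K := Localization.subalgebra.isFractionRing_ofField K _ _
  have : IsDedekindDomain R := IsLocalization.isDedekindDomain O
    𝔭.primeCompl_le_nonZeroDivisors R
  have : IsScalarTower O R F := IsScalarTower.of_algebraMap_eq fun r => by
    rw [IsScalarTower.algebraMap_apply O K F]; rfl
  have : IsScalarTower R K F := IsScalarTower.of_algebraMap_eq fun r => rfl
  have hMG : ∀ y ∈ M, y ∈ Submodule.span R (Set.range x' ^ D) := by
    intro y hy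
    have h3 := hM hy
    exact Submodule.span_subset_span O R _ h3
  have hGM : ∀ y ∈ Submodule.span R (Set.range x' ^ D), ∃ s, s ∉ 𝔭 ∧ s • y ∈ M := by
    intro y hy
    obtain ⟨s, hs, hsy⟩ := clear_denom 𝔭 (Set.range x' ^ D) y hy
    obtain ⟨t, ht, hty⟩ := hM2 _ hsy
    refine ⟨t * s, fun h => (Ideal.IsPrime.mem_or_mem ‹𝔭.IsPrime› h).elim ht hs, ?_⟩
    rw [mul_smul]
    exact hty
  obtain ⟨𝒪, hloc, hR, hRU, hloc2, hG, hreg⟩ :=
    transfer (R := R) 𝔭 M (Set.range x' ^ D) hMG hGM f q hq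
  apply hreg
  have hinjOR : Function.Injective (algebraMap O R) :=
    IsLocalization.injective R 𝔭.primeCompl_le_nonZeroDivisors
  have hinj : Function.Injective (algebraMap R K) := IsFractionRing.injective R K
  have hrel' : aeval x' (map (algebraMap O R) G) = 0 := by
    rw [aeval_map_algebraMap, hrel]
  have hind : ∀ s, x' s ≠ 0 → ∃ j₀ : {i : Fin (n + 2) // i ≠ s},
      AlgebraicIndependent R
        (fun i : {i : {i : Fin (n + 2) // i ≠ s} // i ≠ j₀} => x' i / x' s) := by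
    intro s hs
    obtain ⟨j₀, hj₀⟩ := hind_of (K := K) (ι := Fin (n + 2)) (by simp) x hx0 hgen b htb x' u hu s hs
    exact ⟨j₀, hj₀.restrictScalars hinj⟩
  have hG0' : map (algebraMap O R) G ≠ 0 := fun h =>
    hG0 (map_injective _ hinjOR (by rw [h, map_zero]))
  exact gdg 𝒪 hloc hR hRU (map (algebraMap O R) G) hG0' d (hGd.map _)
    (fun s Q hQ hGQ hC => crit_loc 𝔭 hinjOR G hcrit s Q hQ hGQ hC) x' hrel' hind D hD f hf
    (hMG f hfM) hG hloc2

theorem span_pow_le {ι : Type} (x x' : ι → F)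
    (h : ∀ i, x' i ∈ Submodule.span K (Set.range x)) (D : ℕ) :
    Submodule.span K (Set.range x' ^ D) ≤ Submodule.span K (Set.range x ^ D) := by
  rw [← Submodule.span_pow, ← Submodule.span_pow]
  refine pow_le_pow_left' ?_ D
  rw [Submodule.span_le]
  rintro _ ⟨i, rfl⟩
  exact h i

include K in
theorem locMod_lin {ι : Type} [Finite ι] (𝔭 : Ideal O) [𝔭.IsPrime] (h0 : 𝔭 ≠ ⊥)
    (x x' : ι → F) (h1 : ∀ i, x' i ∈ Submodule.span K (Set.range x))
    (h2 : ∀ i, x i ∈ Submodule.span K (Set.range x')) (h : LocMod 𝔭 x') : LocMod 𝔭 x := by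
  have hOK : Function.Injective (algebraMap O K) := IsFractionRing.injective O K
  have hOF : Function.Injective (algebraMap O F) := by
    rw [IsScalarTower.algebraMap_eq O K F]
    exact (algebraMap K F).injective.comp hOK
  have h1𝔭 : (1 : O) ∉ 𝔭 := (Ideal.ne_top_iff_one 𝔭).1 Ideal.IsPrime.ne_top'
  have hmul : ∀ s t : O, s ∉ 𝔭 → t ∉ 𝔭 → s * t ∉ 𝔭 := fun s t hs ht h =>
    (Ideal.IsPrime.mem_or_mem ‹𝔭.IsPrime› h).elim hs ht
  obtain ⟨D₀, hD₀⟩ := h
  refine ⟨D₀, fun D hD => ?_⟩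
  obtain ⟨P', hP1, ⟨k', hP2⟩, hP3⟩ := hD₀ D hD
  obtain ⟨c₀, hc₀, hc₀N⟩ := exists_common (O := O) (K := K) (range_pow_finite x' D)
    (span_pow_le x x' h1 D)
  obtain ⟨c₁, hc₁, hc₁N⟩ := exists_common (O := O) (K := K) (range_pow_finite x D)
    (span_pow_le x' x h2 D)
  set N := Submodule.span O (Set.range x ^ D) with hN
  set N' := Submodule.span O (Set.range x' ^ D) with hN'
  have hc₀F : algebraMap O F c₀ ≠ 0 := fun h => hc₀ (hOF (by rw [h, map_zero]))
  let P : Submodule O F :=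
    { carrier := {y | y ∈ N ∧ ∃ s : O, s ∉ 𝔭 ∧ ∃ p ∈ P', s • y = c₀ • p}
      zero_mem' := ⟨N.zero_mem, 1, h1𝔭, 0, P'.zero_mem, by rw [smul_zero, smul_zero]⟩
      add_mem' := by
        rintro y z ⟨hy, s, hs, p, hp, hsy⟩ ⟨hz, t, ht, q, hq, htz⟩
        refine ⟨N.add_mem hy hz, s * t, hmul s t hs ht, t • p + s • q,
          P'.add_mem (P'.smul_mem _ hp) (P'.smul_mem _ hq), ?_⟩
        rw [smul_add, smul_add, smul_comm c₀ t p, smul_comm c₀ s q, ← hsy, ← htz, smul_smul,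
          smul_smul, mul_comm t s]
      smul_mem' := by
        rintro r y ⟨hy, s, hs, p, hp, hsy⟩
        refine ⟨N.smul_mem r hy, s, hs, r • p, P'.smul_mem _ hp, ?_⟩
        rw [smul_comm s r y, hsy, smul_comm] }
  have hPmem : ∀ y, y ∈ P ↔ y ∈ N ∧ ∃ s : O, s ∉ 𝔭 ∧ ∃ p ∈ P', s • y = c₀ • p :=
    fun y => Iff.rfl
  refine ⟨P, ?_, ?_, ?_⟩
  · intro y hy
    exact ⟨1, h1𝔭, by rw [one_smul]; exact hy.1⟩
  · obtain ⟨k, hk⟩ := exists_pow_dvd 𝔭 h0 (c₀ * c₁) (mul_ne_zero hc₀ hc₁) k'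
    refine ⟨k, fun c hc y hy => ?_⟩
    obtain ⟨s, hs, d, hd, hscd⟩ := hk c hc
    refine ⟨N.smul_mem _ hy, s, hs, d • (c₁ • y), hP2 d hd _ (hc₁N y hy), ?_⟩
    rw [smul_smul, hscd, smul_smul, smul_smul]
    congr 1
    ring
  · intro M hMP hPM
    have hreg := hP3 P' le_rfl fun y hy => ⟨1, h1𝔭, by rw [one_smul]; exact hy⟩
    refine regAt_congr 𝔭 P' M (algebraMap O F c₀)⁻¹ (inv_ne_zero hc₀F) ?_ ?_ hreg
    · intro y hy
      obtain ⟨_, s, hs, p, hp, hsy⟩ := (hPmem y).1 (hMP hy)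
      refine ⟨s, hs, ?_⟩
      have h2 : s • ((algebraMap O F c₀)⁻¹ * y) = p := by
        rw [← mul_smul_comm, hsy, Algebra.smul_def, ← mul_assoc, inv_mul_cancel₀ hc₀F, one_mul]
      rw [h2]
      exact hp
    · intro y hy
      rw [inv_inv]
      obtain ⟨s₁, hs₁, hs₁y⟩ := hP1 y hy
      have h2 : s₁ • (algebraMap O F c₀ * y) ∈ P := by
        refine ⟨?_, 1, h1𝔭, s₁ • y, P'.smul_mem _ hy, ?_⟩
        · rw [← Algebra.smul_def, smul_comm]
          exact hc₀N _ hs₁y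
        · rw [one_smul, ← Algebra.smul_def, smul_comm]
      obtain ⟨s₂, hs₂, hs₂y⟩ := hPM _ h2
      exact ⟨s₂ * s₁, hmul _ _ hs₂ hs₁, by rw [mul_smul]; exact hs₂y⟩

include K in
/-- The local module at a prime with a regular equation. -/
theorem locMod_of_crit (𝔭 : Ideal O) [𝔭.IsPrime] (h0 : 𝔭 ≠ ⊥) {n : ℕ}
    (G : MvPolynomial (Fin (n + 2)) O)
    (hG0 : G ≠ 0) (d : ℕ) (hGd : G.IsHomogeneous d) (hcrit : Crit 𝔭 G)
    (x : Fin (n + 2) → F) (hx0 : x 0 = 1)
    (hgen : IntermediateField.adjoin K (Set.range x) = ⊤)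
    (b : Fin n → F) (htb : IsTranscendenceBasis K b)
    (x' : Fin (n + 2) → F) (u u' : Fin (n + 2) → Fin (n + 2) → K)
    (hu : ∀ i, x i = ∑ j, algebraMap K F (u i j) * x' j)
    (hu' : ∀ i, x' i = ∑ j, algebraMap K F (u' i j) * x j) (hrel : aeval x' G = 0) :
    LocMod 𝔭 x := by
  refine locMod_lin (K := K) 𝔭 h0 x x' ?_ ?_ ?_
  · intro i
    rw [hu']
    refine Submodule.sum_mem _ fun j _ => ?_
    rw [← Algebra.smul_def]
    exact Submodule.smul_mem _ _ (Submodule.subset_span ⟨j, rfl⟩)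
  · intro i
    rw [hu]
    refine Submodule.sum_mem _ fun j _ => ?_
    rw [← Algebra.smul_def]
    exact Submodule.smul_mem _ _ (Submodule.subset_span ⟨j, rfl⟩)
  · have h1𝔭 : (1 : O) ∉ 𝔭 := (Ideal.ne_top_iff_one 𝔭).1 Ideal.IsPrime.ne_top'
    refine ⟨1, fun D hD => ⟨Submodule.span O (Set.range x' ^ D), ?_, ⟨0, ?_⟩, ?_⟩⟩
    · intro y hy
      exact ⟨1, h1𝔭, by rw [one_smul]; exact hy⟩
    · intro c _ y hy
      exact Submodule.smul_mem _ _ hy
    · intro M hM hM2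
      exact regAt_of_crit (K := K) 𝔭 G hG0 d hGd hcrit x hx0 hgen b htb x' u hu hrel D hD M hM hM2

end

end Pool.Agent.TH214.RM
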