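import Pool.Agent.H945R2.D.GD1
import Pool.Agent.H918R2.Quad.Trans

/-! Regular hypersurfaces over a regular ring: the local rings of the charts. -/

set_option autoImplicit false
set_option linter.unusedSectionVars false
set_option linter.unusedVariables false

open scoped Pointwise

namespace Pool.Agent.TH214.RM

open Pool.Agent.H918R2.Quad Pool.Agent.H945R2.D MvPolynomial

/-- Substitute `X s = 1`. -/
noncomputable def deh {ι R : Type} [CommRing R] [DecidableEq ι] (s : ι) (G : MvPolynomial ι R) :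
    MvPolynomial {j : ι // j ≠ s} R := aeval (tau s) G

theorem aeval_scale {R A ι : Type} [CommRing R] [CommRing A] [Algebra R A] (x : ι → A) (T : A)
    (d : ℕ) (P : MvPolynomial ι R) (hP : P.IsHomogeneous d) :
    aeval (fun j => x j * T) P = aeval x P * T ^ d := by
  classical
  rw [aeval_def, eval₂_eq, aeval_def, eval₂_eq, Finset.sum_mul]
  refine Finset.sum_congr rfl fun s hs => ?_
  have h1 : s.degree = d := by
    by_contra hne
    exact (mem_support_iff.1 hs) (hP.coeff_eq_zero hne)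
  simp only [mul_pow]
  rw [Finset.prod_mul_distrib, Finset.prod_pow_eq_pow_sum, ← h1, mul_assoc]
  rfl

theorem aeval_deh {R A ι : Type} [CommRing R] [CommRing A] [Algebra R A] [DecidableEq ι] (s : ι)
    (t : ι → A) (hs : t s = 1) (G : MvPolynomial ι R) :
    aeval (fun j : {j : ι // j ≠ s} => t j) (deh s G) = aeval t G := by
  unfold deh
  rw [← AlgHom.comp_apply]
  congr 1
  apply MvPolynomial.algHom_ext
  intro j
  rw [AlgHom.comp_apply, aeval_X, aeval_X]
  exact aeval_tau' s t hs j

theorem deh_ne_zero {R ι : Type} [CommRing R] [IsDomain R] [DecidableEq ι] (s : ι)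
    (G : MvPolynomial ι R) (hG : G ≠ 0) (d : ℕ) (hGd : G.IsHomogeneous d) : deh s G ≠ 0 := by
  intro h
  let L := MvPolynomial ι R
  let Ω := FractionRing L
  have hinj : Function.Injective (algebraMap L Ω) := IsFractionRing.injective L Ω
  let T : Ω := (algebraMap L Ω (X s))⁻¹
  have hXs : algebraMap L Ω (X s) ≠ 0 := by
    rw [Ne, map_eq_zero_iff _ hinj]
    exact X_ne_zero s
  let t : ι → Ω := fun i => algebraMap L Ω (X i) * T
  have hts : t s = 1 := mul_inv_cancel₀ hXs
  have h1 := aeval_deh s t hts G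
  rw [h, map_zero, aeval_scale _ T d G hGd] at h1
  have h2 : aeval (fun i => algebraMap L Ω (X i)) G = algebraMap L Ω G := by
    have h3 : (aeval (fun i => algebraMap L Ω (X i)) : MvPolynomial ι R →ₐ[R] Ω) =
        (IsScalarTower.toAlgHom R L Ω) := by
      apply MvPolynomial.algHom_ext
      intro j
      rw [aeval_X]
      rfl
    rw [h3]
    rfl
  rw [h2] at h1
  have h4 : T ^ d ≠ 0 := pow_ne_zero _ (inv_ne_zero hXs)
  have h5 : algebraMap L Ω G = 0 := by
    rcases mul_eq_zero.1 h1.symm with h | h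
    · exact h
    · exact absurd h h4
  exact hG ((map_eq_zero_iff _ hinj).1 h5)

/-- Regularity of the local rings of the projective hypersurface `G = 0` over `R`. -/
theorem gdg {R F ι : Type} [CommRing R] [IsDomain R] [IsRegularRing R] [Field F]
    [Algebra R F] [Fintype ι] [DecidableEq ι] (𝒪 : Subring F) (hloc : IsLoc 𝒪)
    (hR : ∀ r : R, algebraMap R F r ∈ 𝒪) (hRU : ∀ r : R, U 𝒪 (algebraMap R F r) → IsUnit r)
    (G : MvPolynomial ι R) (hG0 : G ≠ 0) (d : ℕ) (hGd : G.IsHomogeneous d)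
    (hreg : ∀ (s : ι) (Q : Ideal (MvPolynomial {j : ι // j ≠ s} R)), Q.IsPrime → deh s G ∈ Q →
      (∀ r : R, C r ∈ Q ↔ ¬ IsUnit r) → (∃ j, pderiv j (deh s G) ∉ Q) ∨
        ∀ h, h ∉ Q → h * deh s G ∉ Q ^ 2)
    (x : ι → F) (hrel : aeval x G = 0)
    (hind : ∀ s, x s ≠ 0 → ∃ j₀ : {i : ι // i ≠ s},
      AlgebraicIndependent R (fun i : {i : {i : ι // i ≠ s} // i ≠ j₀} => x i / x s))
    (D : ℕ) (hD : 1 ≤ D) (f : F) (hf : f ≠ 0) (hfG : f ∈ Submodule.span R (Set.range x ^ D))
    (hG : ∀ h ∈ Set.range x ^ D, h / f ∈ 𝒪)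
    (hloc2 : IsLocOf 𝒪 (chart R (Submodule.span R (Set.range x ^ D)) f)) :
    IsRegularLocalRing 𝒪 := by
  obtain ⟨g, hg, hU⟩ := exists_U_gen hloc hR _ f hf hG hfG
  obtain ⟨s, hs, hz, hfh⟩ := Pool.Agent.H945R2.D.GD1aux.exists_coord 𝒪 x D hD f hG g hg hU
  obtain ⟨j₀, hj₀⟩ := hind s hs
  set t : ι → F := fun j => x j / x s with ht
  have hts : t s = 1 := div_self hs
  set E : MvPolynomial {j : ι // j ≠ s} R := deh s G with hE
  let I : Ideal (MvPolynomial {j : ι // j ≠ s} R) := Ideal.span {E}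
  let eW : MvPolynomial {j : ι // j ≠ s} R →ₐ[R] F :=
    aeval (fun j : {j : ι // j ≠ s} => t j)
  have heC : ∀ r, eW (C r) = algebraMap R F r := fun r => aeval_C _ r
  have heX : ∀ j, eW (X j) = t j := fun j => aeval_X _ j
  have heW : ∀ w, eW w ∈ 𝒪 := by
    intro w
    induction w using MvPolynomial.induction_on with
    | C r => rw [heC]; exact hR r
    | add p q hp hq => rw [map_add]; exact 𝒪.add_mem hp hq
    | mul_X p j hp => rw [map_mul, heX]; exact 𝒪.mul_mem hp (hz _)
  have hmap : ∀ j, eW (tau s j) = t j := fun j => aeval_tau' s t hts j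
  have hEt : eW E = 0 := by
    rw [hE, aeval_deh s t hts G]
    have h1 : t = fun j => x j * (x s)⁻¹ := by
      funext j
      simp only [ht]
      rw [div_eq_mul_inv]
    rw [h1, aeval_scale x _ d G hGd, hrel, zero_mul]
  have hI : ∀ w ∈ I, eW w = 0 := by
    intro w hw
    obtain ⟨c, rfl⟩ := Ideal.mem_span_singleton.1 hw
    rw [map_mul, hEt, zero_mul]
  have hzt : ∀ j, x j = x s * eW (tau s j) := by
    intro j
    rw [hmap]
    simp only [ht]
    field_simp
  have hG' : ∀ g ∈ Set.range x ^ D, ∃ w, g = x s ^ D * eW w := by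
    intro g hg
    obtain ⟨φ, rfl⟩ := (Pool.Agent.H945R2.D.GD1aux.mem_range_pow x D g).1 hg
    refine ⟨∏ i, tau s (φ i), ?_⟩
    rw [map_prod]
    have h1 : ∏ i, x (φ i) = ∏ i, (x s * eW (tau s (φ i))) :=
      Finset.prod_congr rfl fun i _ => hzt (φ i)
    rw [h1, Finset.prod_mul_distrib, Finset.prod_const, Finset.card_univ, Fintype.card_fin]
  have hfrac := frac_of_chart eW heW (Set.range x ^ D) f (x s ^ D) (pow_ne_zero D hs) hG' hfG hfh
    hloc2
  have hEne : E ≠ 0 := deh_ne_zero s G hG0 d hGd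
  obtain ⟨A, _, _, pr, hpr, hprk, hpr0⟩ := exists_quot (R := R) I
  have haev : ∀ p : MvPolynomial {j : ι // j ≠ s} R,
      aeval (fun j : {j : ι // j ≠ s} => (X j : MvPolynomial {j : ι // j ≠ s} R)) p = p := by
    intro p
    rw [aeval_X_left_apply]
  refine regular_of_pres 𝒪 hloc pr hpr eW ?_ heW hfrac ?_
    (fun j : {j : ι // j ≠ s} => X j) E hEne ?_ j₀ ?_ ?_
  · intro w hw
    exact hI w ((hpr0 w).1 hw)
  · intro q hq hqm
    have hEq : pr E = 0 := (hpr0 E).2 (Ideal.mem_span_singleton_self _)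
    let Q : Ideal (MvPolynomial {j : ι // j ≠ s} R) := q.comap (pr : _ →+* A)
    have hQ : Q.IsPrime := Ideal.comap_isPrime _ _
    have hEQ : E ∈ Q := by
      change pr E ∈ q
      rw [hEq]
      exact q.zero_mem
    have hCQ : ∀ r : R, C r ∈ Q ↔ ¬ IsUnit r := by
      intro r
      change pr (C r) ∈ q ↔ _
      rw [hqm, heC]
      refine not_congr ⟨hRU r, fun h => ?_⟩
      obtain ⟨u, rfl⟩ := h
      have h1 : algebraMap R F (u : R) * algebraMap R F ((u⁻¹ : Rˣ) : R) = 1 := by
        rw [← map_mul, Units.mul_inv, map_one]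
      refine ⟨left_ne_zero_of_mul_eq_one h1, hR _, ?_⟩
      rw [inv_eq_of_mul_eq_one_right h1]
      exact hR _
    rcases hreg s Q hQ hEQ hCQ with ⟨j, hj⟩ | h
    · exact regular_of_pderiv E (pr : _ →+* A) hpr hprk q j hj
    · have hid : (q.comap (pr : _ →+* A)).map (RingHom.id _) = Q := Ideal.map_id _
      refine reg_crit_one (W := MvPolynomial {j : ι // j ≠ s} R) (pr : _ →+* A) hpr {E}
        (by rw [Finset.coe_singleton]; exact hprk) q (RingHom.id _)
        (fun z => ⟨z, rfl⟩) ?_ ∅ (by simp) ?_ E hEq ?_ ?_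
      · intro z hz
        have h0 : z = 0 := by simpa using hz
        rw [h0]
        exact Ideal.zero_mem _
      · intro z hz
        have h0 : z = 0 := by simpa using hz
        refine ⟨1, ?_, ?_⟩
        · rw [map_one]
          exact (Ideal.ne_top_iff_one q).1 hq.ne_top
        · rw [h0, mul_zero, map_zero]
          exact Ideal.zero_mem _
      · intro c hc
        rw [hid] at hc ⊢
        exact h c hc
      · simp
  · rw [haev, hpr0]
    exact Ideal.mem_span_singleton_self _
  · convert hj₀ using 2 with j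
    exact heX _
  · intro w
    refine ⟨w, 1, by simp, ?_⟩
    rw [haev 1, one_mul, haev]

end Pool.Agent.TH214.RM
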