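import Mathlib

/-! Squares of primes of a polynomial ring. -/

set_option autoImplicit false
set_option linter.unusedSectionVars false
set_option linter.unusedVariables false

namespace Pool.Agent.TH214.RM

/-- An ideal between `q ^ 2` and `q` of colength one, complementary to `f`. -/
theorem exists_compl {A : Type} [CommRing A] [IsNoetherianRing A] (q : Ideal A)
    (hq : q.IsMaximal) (f : A) (hfq : f ∈ q) (hf : f ∉ q ^ 2) :
    ∃ J : Ideal A, q ^ 2 ≤ J ∧ J ≤ q ∧ (∀ a, a * f ∈ J → a ∈ q) ∧ q ≤ J ⊔ Ideal.span {f} := by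
  have hinv : ∀ a, a ∉ q → ∃ b, ∃ c ∈ q, b * a + c = 1 := by
    intro a ha
    have h1 : q ⊔ Ideal.span {a} = ⊤ := by
      refine hq.1.2 _ (lt_of_le_of_ne le_sup_left fun h => ha ?_)
      rw [h]
      exact Ideal.mem_sup_right (Ideal.mem_span_singleton_self a)
    have h2 : (1 : A) ∈ q ⊔ Ideal.span {a} := by rw [h1]; trivial
    obtain ⟨c, hc, y, hy, hcy⟩ := Submodule.mem_sup.1 h2
    obtain ⟨b, rfl⟩ := Ideal.mem_span_singleton'.1 hy
    exact ⟨b, c, hc, by rw [← hcy]; ring⟩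
  let S : Set (Ideal A) := {J | q ^ 2 ≤ J ∧ J ≤ q ∧ f ∉ J}
  obtain ⟨J, ⟨hJ1, hJ2, hJ3⟩, hJ4⟩ := WellFounded.has_min
    (wellFounded_gt : WellFounded ((· > ·) : Ideal A → Ideal A → Prop)) S
    ⟨q ^ 2, le_rfl, Ideal.pow_le_self (by norm_num), hf⟩
  have hmul : ∀ a ∈ q, ∀ b ∈ q, a * b ∈ J := by
    intro a ha b hb
    apply hJ1
    rw [pow_two]
    exact Ideal.mul_mem_mul ha hb
  have hcol : ∀ a, a * f ∈ J → a ∈ q := by
    intro a haf
    by_contra ha
    obtain ⟨b, c, hc, hbc⟩ := hinv a ha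
    apply hJ3
    have h1 : f = b * (a * f) + c * f := by
      rw [← mul_assoc, ← add_mul, hbc, one_mul]
    rw [h1]
    exact J.add_mem (J.mul_mem_left _ haf) (hmul c hc f hfq)
  refine ⟨J, hJ1, hJ2, hcol, ?_⟩
  intro g hg
  by_cases hgJ : g ∈ J
  · exact Ideal.mem_sup_left hgJ
  · have h1 : f ∈ J ⊔ Ideal.span {g} := by
      by_contra hcon
      refine hJ4 (J ⊔ Ideal.span {g}) ⟨hJ1.trans le_sup_left, sup_le hJ2 ?_, hcon⟩ ?_
      · rw [Ideal.span_le]
        rintro _ rfl
        exact hg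
      · refine lt_of_le_of_ne le_sup_left fun h => hgJ ?_
        rw [h]
        exact Ideal.mem_sup_right (Ideal.mem_span_singleton_self g)
    obtain ⟨j, hj, y, hy, hjy⟩ := Submodule.mem_sup.1 h1
    obtain ⟨u, rfl⟩ := Ideal.mem_span_singleton'.1 hy
    have hu : u ∉ q := by
      intro hu
      apply hJ3
      rw [← hjy]
      exact J.add_mem hj (hmul u hu g hg)
    obtain ⟨b, c, hc, hbc⟩ := hinv u hu
    have h2 : g = (c * g - b * j) + b * f := by
      rw [← hjy]
      have h3 : g = (b * u + c) * g := by rw [hbc, one_mul]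
      nth_rewrite 1 [h3]
      ring
    rw [h2]
    exact Ideal.add_mem _ (Ideal.mem_sup_left (J.sub_mem (hmul c hc g hg) (J.mul_mem_left _ hj)))
      (Ideal.mem_sup_right (Ideal.mem_span_singleton'.2 ⟨b, rfl⟩))

theorem lemL {A : Type} [CommRing A] [IsNoetherianRing A] (q : Ideal A) (hq : q.IsMaximal)
    (f : A) (hfq : f ∈ q) (hf : f ∉ q ^ 2) (Q : Ideal (Polynomial A)) (hQ : Q.IsPrime)
    (hQA : ∀ a, Polynomial.C a ∈ Q ↔ a ∈ q) (h : Polynomial A) (hh : h ∉ Q) :
    h * Polynomial.C f ∉ Q ^ 2 := by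
  intro hcon
  obtain ⟨J, hJ1, hJ2, hcol, hqJ⟩ := exists_compl q hq f hfq hf
  let _ : Field (A ⧸ q) := Ideal.Quotient.field q
  let π : Polynomial A →+* Polynomial (A ⧸ q) := Polynomial.mapRingHom (Ideal.Quotient.mk q)
  have hπs : Function.Surjective π :=
    Polynomial.map_surjective _ Ideal.Quotient.mk_surjective
  have hπ0 : ∀ w, π w = 0 ↔ w ∈ q.map (Polynomial.C : A →+* Polynomial A) := by
    intro w
    rw [Ideal.mem_map_C_iff]
    constructor
    · intro h1 n
      have h2 := congrArg (fun p => Polynomial.coeff p n) h1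
      simp only [π, Polynomial.coe_mapRingHom, Polynomial.coeff_map, Polynomial.coeff_zero] at h2
      exact Ideal.Quotient.eq_zero_iff_mem.1 h2
    · intro h1
      ext n
      simp only [π, Polynomial.coe_mapRingHom, Polynomial.coeff_map, Polynomial.coeff_zero]
      exact Ideal.Quotient.eq_zero_iff_mem.2 (h1 n)
  have hqQ : q.map (Polynomial.C : A →+* Polynomial A) ≤ Q := by
    rw [Ideal.map_le_iff_le_comap]
    intro a ha
    exact (hQA a).2 ha
  have hcolJ : ∀ w : Polynomial A, w * Polynomial.C f ∈ J.map (Polynomial.C : A →+* Polynomial A) →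
      w ∈ Q := by
    intro w hw
    apply hqQ
    rw [Ideal.mem_map_C_iff] at hw ⊢
    intro n
    have h1 := hw n
    rw [Polynomial.coeff_mul_C] at h1
    exact hcol _ h1
  have hqJC : q.map (Polynomial.C : A →+* Polynomial A) ≤
      J.map (Polynomial.C : A →+* Polynomial A) ⊔ Ideal.span {Polynomial.C f} := by
    have h1 := Ideal.map_mono (f := (Polynomial.C : A →+* Polynomial A)) hqJ
    rw [Ideal.map_sup, Ideal.map_span, Set.image_singleton] at h1
    exact h1
  obtain ⟨gb, hgb⟩ := IsPrincipalIdealRing.principal (Q.map π)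
  rw [← Ideal.span] at hgb
  have hgbm : gb ∈ Q.map π := by
    rw [hgb]
    exact Ideal.mem_span_singleton_self gb
  obtain ⟨g, hgQ, rfl⟩ := (Ideal.mem_map_iff_of_surjective π hπs).1 hgbm
  have hQle : Q ≤ Ideal.span {g} ⊔ q.map (Polynomial.C : A →+* Polynomial A) := by
    intro w hw
    have h1 : π w ∈ Q.map π := Ideal.mem_map_of_mem π hw
    rw [hgb] at h1
    obtain ⟨cb, hcb⟩ := Ideal.mem_span_singleton'.1 h1
    obtain ⟨c, rfl⟩ := hπs cb
    have h2 : w - c * g ∈ q.map (Polynomial.C : A →+* Polynomial A) := by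
      rw [← hπ0, map_sub, map_mul, hcb, sub_self]
    have h3 : w = c * g + (w - c * g) := by ring
    rw [h3]
    exact Ideal.add_mem _ (Ideal.mem_sup_left (Ideal.mem_span_singleton'.2 ⟨c, rfl⟩))
      (Ideal.mem_sup_right h2)
  have hJsq : (q.map (Polynomial.C : A →+* Polynomial A)) ^ 2 ≤
      J.map (Polynomial.C : A →+* Polynomial A) := by
    rw [← Ideal.map_pow]
    exact Ideal.map_mono hJ1
  by_cases hg0 : π g = 0
  · apply hh
    apply hcolJ
    apply hJsq
    refine Ideal.pow_right_mono ?_ 2 hcon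
    refine hQle.trans (sup_le ?_ le_rfl)
    rw [Ideal.span_le]
    intro y hy
    rw [Set.mem_singleton_iff.1 hy]
    exact (hπ0 g).1 hg0
  · -- the expansion of an element of the square
    have hQ2 : ∀ y ∈ Q ^ 2, ∃ b c : Polynomial A, y - g ^ 2 * c - g * Polynomial.C f * b ∈
        J.map (Polynomial.C : A →+* Polynomial A) := by
      intro y hy
      rw [pow_two] at hy
      refine Submodule.mul_induction_on hy ?_ ?_
      · intro w₁ hw₁ w₂ hw₂
        obtain ⟨y₁, hy₁, r₁, hr₁, rfl⟩ := Submodule.mem_sup.1 (hQle hw₁)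
        obtain ⟨y₂, hy₂, r₂, hr₂, rfl⟩ := Submodule.mem_sup.1 (hQle hw₂)
        obtain ⟨c₁, rfl⟩ := Ideal.mem_span_singleton'.1 hy₁
        obtain ⟨c₂, rfl⟩ := Ideal.mem_span_singleton'.1 hy₂
        have h1 : c₁ * r₂ + c₂ * r₁ ∈ q.map (Polynomial.C : A →+* Polynomial A) :=
          Ideal.add_mem _ (Ideal.mul_mem_left _ _ hr₂) (Ideal.mul_mem_left _ _ hr₁)
        obtain ⟨j, hj, z, hz, hjz⟩ := Submodule.mem_sup.1 (hqJC h1)
        obtain ⟨b, rfl⟩ := Ideal.mem_span_singleton'.1 hz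
        refine ⟨b, c₁ * c₂, ?_⟩
        have h2 : (c₁ * g + r₁) * (c₂ * g + r₂) - g ^ 2 * (c₁ * c₂) - g * Polynomial.C f * b =
            g * (c₁ * r₂ + c₂ * r₁) - g * Polynomial.C f * b + r₁ * r₂ := by ring
        rw [h2, ← hjz]
        have h3 : g * (j + b * Polynomial.C f) - g * Polynomial.C f * b + r₁ * r₂ =
            g * j + r₁ * r₂ := by ring
        rw [h3]
        refine Ideal.add_mem _ (Ideal.mul_mem_left _ _ hj) (hJsq ?_)
        rw [pow_two]
        exact Ideal.mul_mem_mul hr₁ hr₂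
      · rintro y₁ y₂ ⟨b₁, c₁, h₁⟩ ⟨b₂, c₂, h₂⟩
        refine ⟨b₁ + b₂, c₁ + c₂, ?_⟩
        have h3 := Ideal.add_mem _ h₁ h₂
        convert h3 using 1
        ring
    obtain ⟨b, c, hbc⟩ := hQ2 _ hcon
    have hJq : J.map (Polynomial.C : A →+* Polynomial A) ≤
        q.map (Polynomial.C : A →+* Polynomial A) := Ideal.map_mono hJ2
    have hfq' : π (Polynomial.C f) = 0 := by
      rw [hπ0]
      exact Ideal.mem_map_of_mem _ hfq
    have h1 := (hπ0 _).2 (hJq hbc)
    rw [map_sub, map_sub, map_mul, map_mul, map_mul, map_mul, map_pow, hfq', mul_zero, mul_zero,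
      zero_mul, sub_zero, zero_sub, neg_eq_zero] at h1
    have h2 : π c = 0 := (mul_eq_zero.1 h1).resolve_left (pow_ne_zero 2 hg0)
    obtain ⟨j, hj, z, hz, hjz⟩ := Submodule.mem_sup.1 (hqJC ((hπ0 c).1 h2))
    obtain ⟨c', rfl⟩ := Ideal.mem_span_singleton'.1 hz
    have h3 : h - g ^ 2 * c' - g * b ∈ Q := by
      apply hcolJ
      have h4 : (h - g ^ 2 * c' - g * b) * Polynomial.C f =
          (h * Polynomial.C f - g ^ 2 * c - g * Polynomial.C f * b) + g ^ 2 * j := by
        rw [← hjz]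
        ring
      rw [h4]
      exact Ideal.add_mem _ hbc (Ideal.mul_mem_left _ _ hj)
    apply hh
    have h4 : h = (h - g ^ 2 * c' - g * b) + (g * (g * c' + b)) := by ring
    rw [h4]
    exact Q.add_mem h3 (Q.mul_mem_right _ hgQ)

end Pool.Agent.TH214.RM
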