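import Pool.Agent.TH214.RM.Glob

/-! The global module of a smooth hypersurface which is regular in suitable local coordinates. -/

set_option autoImplicit false
set_option linter.unusedSectionVars false
set_option linter.unusedVariables false

open scoped Pointwise

namespace Pool.Agent.TH214.RM

open Pool.Agent.H918R2.Quad Pool.Agent.H945R2.E Pool.Agent.W418 MvPolynomial

theorem deh_hom {O ι : Type} [CommRing O] [DecidableEq ι] (s : ι) (P Q : MvPolynomial ι O) :
    deh s (P * Q) = deh s P * deh s Q := map_mul _ _ _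

/-- All the partial derivatives are in `Q` if those in the chart are. -/
theorem all_pderiv_mem {O ι : Type} [CommRing O] [Fintype ι] [DecidableEq ι]
    (G : MvPolynomial ι O) (d : ℕ) (hG : G.IsHomogeneous d) (s : ι)
    (Q : Ideal (MvPolynomial {j : ι // j ≠ s} O)) (hGQ : deh s G ∈ Q)
    (h : ∀ j : {j : ι // j ≠ s}, pderiv j (deh s G) ∈ Q) (j : ι) : deh s (pderiv j G) ∈ Q := by
  by_cases hj : j = s
  · subst hj
    have h1 := congrArg (aeval (tau j) : MvPolynomial ι O →ₐ[O] MvPolynomial _ O)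
      hG.sum_X_mul_pderiv
    rw [map_sum, map_nsmul] at h1
    rw [Finset.sum_eq_add_sum_sdiff_singleton_of_mem (Finset.mem_univ j)] at h1
    simp only [map_mul, aeval_X] at h1
    have h2 : (tau j j : MvPolynomial {i : ι // i ≠ j} O) = 1 := by
      unfold tau
      rw [dif_pos rfl]
    rw [h2, one_mul] at h1
    have h3 : deh j (pderiv j G) = d • deh j G -
        ∑ i ∈ Finset.univ \ {j}, tau j i * deh j (pderiv i G) := by
      rw [eq_sub_iff_add_eq]
      exact h1
    rw [h3]
    refine Ideal.sub_mem _ (Submodule.smul_of_tower_mem _ _ hGQ) (Ideal.sum_mem _ fun i hi => ?_)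
    refine Ideal.mul_mem_left _ _ ?_
    have hij : i ≠ j := by
      intro h4
      rw [h4] at hi
      simp at hi
    have h5 := h ⟨i, hij⟩
    rwa [pderiv_deh] at h5
  · have h5 := h ⟨j, hj⟩
    rwa [pderiv_deh] at h5

theorem crit_of_smooth {O ι : Type} [CommRing O] [Fintype ι] [DecidableEq ι] (𝔭 : Ideal O)
    (G : MvPolynomial ι O) (d : ℕ) (hG : G.IsHomogeneous d)
    (h : ∀ i, ∃ c : O, c ∉ 𝔭 ∧ ∃ k : ℕ, C c * X i ^ k ∈ Ideal.span (Set.range fun j => pderiv j G)) :
    Crit 𝔭 G := by
  intro s Q hQ hCQ hGQ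
  left
  by_contra hcon
  push Not at hcon
  have hall := all_pderiv_mem G d hG s Q hGQ hcon
  obtain ⟨c, hc, k, hk⟩ := h s
  have h1 : Ideal.span (Set.range fun j => pderiv j G) ≤ Q.comap
      ((aeval (tau s) : MvPolynomial ι O →ₐ[O] MvPolynomial {j : ι // j ≠ s} O) : _ →+* _) := by
    rw [Ideal.span_le]
    rintro _ ⟨j, rfl⟩
    exact hall j
  have h2 : (aeval (tau s) : MvPolynomial ι O →ₐ[O] MvPolynomial {j : ι // j ≠ s} O)
      (C c * X s ^ k) ∈ Q := h1 hk
  have h3 : (tau s s : MvPolynomial {i : ι // i ≠ s} O) = 1 := by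
    unfold tau
    rw [dif_pos rfl]
  rw [map_mul, map_pow, aeval_X, h3, one_pow, mul_one, aeval_C] at h2
  exact hc ((hCQ c).1 h2)

section

variable {O K F : Type} [CommRing O] [IsDedekindDomain O] [Field K] [Algebra O K]
  [IsFractionRing O K] [Field F] [Algebra K F] [Algebra O F] [IsScalarTower O K F]

/-- The partial derivatives of `G` have no common zero. -/
def Smooth {K ι : Type} [Field K] (G : MvPolynomial ι K) : Prop :=
  ∀ i, X i ∈ (Ideal.span (Set.range fun j => pderiv j G)).radical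

/-- Over each nonzero prime the hypersurface has a regular equation in suitable coordinates. -/
def LocReg (O : Type) {K : Type} [CommRing O] [Field K] [Algebra O K] {n : ℕ}
    (G : MvPolynomial (Fin (n + 2)) K) : Prop :=
  ∀ 𝔭 : Ideal O, 𝔭.IsPrime → 𝔭 ≠ ⊥ →
    ∃ (H : MvPolynomial (Fin (n + 2)) O) (l : K) (T T' : Matrix (Fin (n + 2)) (Fin (n + 2)) K),
      l ≠ 0 ∧ T * T' = 1 ∧
      map (algebraMap O K) H = C l * aeval (fun i => ∑ j, C (T i j) * X j) G ∧ Crit 𝔭 H

include K in
theorem goodModule_of_locReg {n : ℕ} (G : MvPolynomial (Fin (n + 2)) K) (hG0 : G ≠ 0)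
    (d : ℕ) (hGd : G.IsHomogeneous d) (hsm : Smooth G) (hloc : LocReg O G)
    (x : Fin (n + 2) → F) (hx0 : x 0 = 1) (hrel : aeval x G = 0)
    (hgen : IntermediateField.adjoin K (Set.range x) = ⊤)
    (b : Fin n → F) (htb : IsTranscendenceBasis K b) : GoodModule O x := by
  classical
  have hOK : Function.Injective (algebraMap O K) := IsFractionRing.injective O K
  obtain ⟨s₀, hs₀, G₀, hG₀⟩ := clear_poly (R := K) (nonZeroDivisors O) G
  have hs₀0 : s₀ ≠ 0 := nonZeroDivisors.ne_zero hs₀
  have hs₀K : algebraMap O K s₀ ≠ 0 := fun h => hs₀0 (hOK (by rw [h, map_zero]))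
  have hG₀0 : G₀ ≠ 0 := by
    rintro rfl
    rw [map_zero] at hG₀
    have h1 : (C (algebraMap O K s₀) : MvPolynomial (Fin (n + 2)) K) ≠ 0 := by
      rwa [Ne, C_eq_zero]
    exact (mul_ne_zero h1 hG0) hG₀.symm
  have hG₀d : G₀.IsHomogeneous d := by
    refine IsHomogeneous.of_map (f := algebraMap O K) hOK ?_
    rw [hG₀]
    have h1 := (isHomogeneous_C (Fin (n + 2)) (algebraMap O K s₀)).mul hGd
    rwa [zero_add] at h1
  have hrelG₀ : aeval x G₀ = 0 := by
    rw [← aeval_map_algebraMap K x G₀, hG₀, map_mul, hrel, mul_zero]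
  have hspan : Ideal.span (Set.range fun j => pderiv j G) =
      Ideal.span (map (algebraMap O K) '' (Set.range fun j => pderiv j G₀)) := by
    apply le_antisymm
    · rw [Ideal.span_le]
      rintro _ ⟨j, rfl⟩
      change pderiv j G ∈ Ideal.span _
      have h1 : pderiv j G = C (algebraMap O K s₀)⁻¹ * map (algebraMap O K) (pderiv j G₀) := by
        rw [← pderiv_map, hG₀, pderiv_C_mul, ← mul_assoc, ← C_mul, inv_mul_cancel₀ hs₀K, C_1,
          one_mul]
      rw [h1]
      exact Ideal.mul_mem_left _ _ (Ideal.subset_span ⟨_, ⟨j, rfl⟩, rfl⟩)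
    · rw [Ideal.span_le]
      rintro _ ⟨_, ⟨j, rfl⟩, rfl⟩
      have h1 : map (algebraMap O K) (pderiv j G₀) = C (algebraMap O K s₀) * pderiv j G := by
        rw [← pderiv_map, hG₀, pderiv_C_mul]
      rw [SetLike.mem_coe]
      change map (algebraMap O K) (pderiv j G₀) ∈ _
      rw [h1]
      exact Ideal.mul_mem_left _ _ (Ideal.subset_span ⟨j, rfl⟩)
  have hex : ∀ i, ∃ c : O, c ≠ 0 ∧ ∃ k : ℕ,
      C c * X i ^ k ∈ Ideal.span (Set.range fun j => pderiv j G₀) := by
    intro i
    obtain ⟨k, hk⟩ := hsm i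
    rw [hspan] at hk
    obtain ⟨c, hc, y, hy, hyc⟩ := clear_span (R := K) (nonZeroDivisors O) _ _ hk
    refine ⟨c, nonZeroDivisors.ne_zero hc, k, ?_⟩
    have h1 : y = C c * X i ^ k := by
      apply map_injective _ hOK
      rw [hyc, map_mul, map_C, map_pow, map_X]
    rwa [← h1]
  choose c hc k hk using hex
  have hc0 : ∏ i, c i ≠ 0 := by
    rw [Finset.prod_ne_zero_iff]
    exact fun i _ => hc i
  have hDspan : Ideal.span {∏ i, c i} ≠ ⊥ := by
    rw [Ne, Ideal.span_singleton_eq_bot]
    exact hc0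
  let S : Finset (Ideal O) :=
    (UniqueFactorizationMonoid.normalizedFactors (Ideal.span {∏ i, c i})).toFinset
  have hS : ∀ 𝔭, 𝔭 ∈ S ↔ 𝔭.IsPrime ∧ ∏ i, c i ∈ 𝔭 := by
    intro 𝔭
    rw [Multiset.mem_toFinset, Ideal.mem_normalizedFactors_iff hDspan,
      Ideal.span_singleton_le_iff_mem]
  have hS0 : ∀ 𝔭 ∈ S, 𝔭 ≠ ⊥ := by
    intro 𝔭 h𝔭 h
    have h1 := ((hS 𝔭).1 h𝔭).2
    rw [h] at h1
    exact hc0 h1
  refine goodModule_of_loc (K := K) x hx0 S (fun 𝔭 h𝔭 =>
    ⟨Ideal.IsPrime.isMaximal ((hS 𝔭).1 h𝔭).1 (hS0 𝔭 h𝔭), hS0 𝔭 h𝔭⟩) ?_ ?_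
  · intro 𝔭 h𝔭
    have hpp := ((hS 𝔭).1 h𝔭).1
    have h0 := hS0 𝔭 h𝔭
    obtain ⟨H, l, T, T', hl, hTT, hH, hcrit⟩ := hloc 𝔭 hpp h0
    let x' : Fin (n + 2) → F := fun i => ∑ j, algebraMap K F (T' i j) * x j
    have hxx' : ∀ i, x i = ∑ j, algebraMap K F (T i j) * x' j := by
      intro i
      have h1 : ∑ j, algebraMap K F (T i j) * x' j =
          ∑ m, (∑ j, algebraMap K F (T i j) * algebraMap K F (T' j m)) * x m := by
        simp only [x', Finset.mul_sum, Finset.sum_mul]
        rw [Finset.sum_comm]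
        refine Finset.sum_congr rfl fun m _ => Finset.sum_congr rfl fun j _ => ?_
        ring
      have h2 : ∀ m, ∑ j, algebraMap K F (T i j) * algebraMap K F (T' j m) =
          if i = m then 1 else 0 := by
        intro m
        have h3 : (T * T') i m = (1 : Matrix (Fin (n + 2)) (Fin (n + 2)) K) i m := by rw [hTT]
        rw [Matrix.mul_apply, Matrix.one_apply] at h3
        have h4 := congrArg (algebraMap K F) h3
        rw [map_sum] at h4
        simp only [map_mul] at h4
        rw [h4]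
        split_ifs <;> simp
      rw [h1]
      simp only [h2, ite_mul, one_mul, zero_mul, Finset.sum_ite_eq, Finset.mem_univ, if_true]
    have hH0 : H ≠ 0 := by
      rintro rfl
      rw [map_zero] at hH
      have h1 : (aeval (fun i => ∑ j, C (T i j) * X j) :
          MvPolynomial (Fin (n + 2)) K →ₐ[K] MvPolynomial (Fin (n + 2)) K) G = 0 := by
        rcases mul_eq_zero.1 hH.symm with h | h
        · exact absurd (C_eq_zero.1 h) hl
        · exact h
      have hTT' : T' * T = 1 := mul_eq_one_comm.1 hTT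
      have h2 : (aeval (fun i => ∑ j, C (T' i j) * X j) :
          MvPolynomial (Fin (n + 2)) K →ₐ[K] MvPolynomial (Fin (n + 2)) K)
          ((aeval (fun i => ∑ j, C (T i j) * X j) :
          MvPolynomial (Fin (n + 2)) K →ₐ[K] MvPolynomial (Fin (n + 2)) K) G) = G := by
        rw [← AlgHom.comp_apply]
        have h3 : (aeval (fun i => ∑ j, C (T' i j) * X j) :
          MvPolynomial (Fin (n + 2)) K →ₐ[K] MvPolynomial (Fin (n + 2)) K).comp
          (aeval (fun i => ∑ j, C (T i j) * X j) :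
          MvPolynomial (Fin (n + 2)) K →ₐ[K] MvPolynomial (Fin (n + 2)) K) = AlgHom.id K _ := by
          apply MvPolynomial.algHom_ext
          intro i
          rw [AlgHom.comp_apply, aeval_X, map_sum, AlgHom.id_apply]
          simp only [map_mul, aeval_X, aeval_C, algebraMap_eq]
          have h1 : ∑ j, C (T i j) * ∑ m, C (T' j m) * X m =
              ∑ m, C (∑ j, T i j * T' j m) * (X m : MvPolynomial (Fin (n + 2)) K) := by
            simp only [Finset.mul_sum, Finset.sum_mul, map_sum]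
            rw [Finset.sum_comm]
            refine Finset.sum_congr rfl fun m _ => Finset.sum_congr rfl fun j _ => ?_
            rw [C_mul]
            ring
          rw [h1]
          have h2 : ∀ m, ∑ j, T i j * T' j m = if i = m then 1 else 0 := by
            intro m
            rw [← Matrix.mul_apply, hTT, Matrix.one_apply]
          simp only [h2]
          simp
        rw [h3, AlgHom.id_apply]
      rw [h1, map_zero] at h2
      exact hG0 h2.symm
    have hHd : H.IsHomogeneous d := by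
      refine IsHomogeneous.of_map (f := algebraMap O K) hOK ?_
      rw [hH]
      have h1 : ((aeval (fun i => ∑ j, C (T i j) * X j) :
          MvPolynomial (Fin (n + 2)) K →ₐ[K] MvPolynomial (Fin (n + 2)) K) G).IsHomogeneous
            (1 * d) := by
        refine hGd.aeval _ fun i => ?_
        refine IsHomogeneous.sum _ _ _ fun j _ => ?_
        have h2 := (isHomogeneous_C (Fin (n + 2)) (T i j)).mul (isHomogeneous_X K j)
        rwa [zero_add] at h2
      have h2 := (isHomogeneous_C (Fin (n + 2)) l).mul h1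
      rwa [zero_add, one_mul] at h2
    have hrelH : aeval x' H = 0 := by
      rw [← aeval_map_algebraMap K x' H, hH, map_mul]
      have h1 : aeval x' ((aeval (fun i => ∑ j, C (T i j) * X j) :
          MvPolynomial (Fin (n + 2)) K →ₐ[K] MvPolynomial (Fin (n + 2)) K) G) = aeval x G := by
        rw [← AlgHom.comp_apply]
        congr 1
        apply MvPolynomial.algHom_ext
        intro i
        rw [AlgHom.comp_apply, aeval_X, aeval_X, map_sum, hxx' i]
        refine Finset.sum_congr rfl fun j _ => ?_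
        rw [map_mul, aeval_X, aeval_C]
      rw [h1, hrel, mul_zero]
    exact locMod_of_crit (K := K) 𝔭 h0 H hH0 d hHd hcrit x hx0 hgen b htb x' (fun i j => T i j)
      (fun i j => T' i j) hxx' (fun i => rfl) hrelH
  · intro 𝔭 hpp h𝔭 D hD M hM hM2
    have hprod : ∏ i, c i ∉ 𝔭 := fun h => h𝔭 ((hS 𝔭).2 ⟨hpp, h⟩)
    have hcp : ∀ i, c i ∉ 𝔭 := fun i h => hprod
      (Ideal.mem_of_dvd 𝔭 (Finset.dvd_prod_of_mem c (Finset.mem_univ i)) h)
    refine regAt_of_crit (K := K) 𝔭 G₀ hG₀0 d hG₀d
      (crit_of_smooth 𝔭 G₀ d hG₀d fun i => ⟨c i, hcp i, k i, hk i⟩) x hx0 hgen b htb x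
      (fun i j => if i = j then 1 else 0) ?_ hrelG₀ D hD M hM hM2
    intro i
    simp only [apply_ite (algebraMap K F), map_one, map_zero, ite_mul, one_mul, zero_mul,
      Finset.sum_ite_eq, Finset.mem_univ, if_true]

end

end Pool.Agent.TH214.RM
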