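import Pool.Agent.TH214.RM.ChartC
import Pool.Agent.TH214.RM.LemL

/-! The hypersurface `x ^ (d - 1) * y_0 + F(y) = 0`. -/

set_option autoImplicit false
set_option linter.unusedSectionVars false
set_option linter.unusedVariables false

namespace Pool.Agent.TH214.RM

open Pool.Agent.H918R2.Quad MvPolynomial

/-- The section of `F = 0` by `y_0 = 0` is smooth over the base. -/
def Sec {O : Type} [CommRing O] {r : ℕ} (F : MvPolynomial (Fin (r + 1)) O) : Prop :=
  ∀ j, X j ∈ (Ideal.span ({P | P = X 0 ∨ P = F ∨ ∃ i, i ≠ 0 ∧ P = pderiv i F} :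
    Set (MvPolynomial (Fin (r + 1)) O))).radical

theorem Sec.map' {O K : Type} [CommRing O] [CommRing K] (φ : O →+* K) {r : ℕ}
    (F : MvPolynomial (Fin (r + 1)) O) (h : Sec F) : Sec (map φ F) := by
  intro j
  obtain ⟨k, hk⟩ := h j
  refine ⟨k, ?_⟩
  have h1 := Ideal.mem_map_of_mem (map φ : MvPolynomial (Fin (r + 1)) O →+* _) hk
  rw [map_pow, map_X, Ideal.map_span] at h1
  refine Ideal.span_mono ?_ h1
  rintro _ ⟨P, hP, rfl⟩
  rcases hP with rfl | rfl | ⟨i, hi, rfl⟩
  · exact Or.inl (map_X _ _)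
  · exact Or.inr (Or.inl rfl)
  · exact Or.inr (Or.inr ⟨i, hi, by rw [pderiv_map]⟩)

/-- All the coordinates are in a prime containing the equations of the section. -/
theorem Sec.mem {O : Type} [CommRing O] {r : ℕ} {F : MvPolynomial (Fin (r + 1)) O} (h : Sec F)
    (P : Ideal (MvPolynomial (Fin (r + 1)) O)) (hP : P.IsPrime) (h0 : X 0 ∈ P) (hF : F ∈ P)
    (hp : ∀ i, i ≠ 0 → pderiv i F ∈ P) (j : Fin (r + 1)) : X j ∈ P := by
  refine (Ideal.IsPrime.radical_le_iff hP).2 ?_ (h j)
  rw [Ideal.span_le]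
  rintro _ (rfl | rfl | ⟨i, hi, rfl⟩)
  · exact h0
  · exact hF
  · exact hp i hi

theorem mem_of_homog {O σ : Type} [CommRing O] (I : Ideal (MvPolynomial σ O))
    (hX : ∀ j, X j ∈ I) (P : MvPolynomial σ O) (N : ℕ) (hN : 1 ≤ N) (hP : P.IsHomogeneous N) :
    P ∈ I := by
  have h3 : ∀ P : MvPolynomial σ O, P - C (constantCoeff P) ∈ I := by
    intro P
    induction P using MvPolynomial.induction_on with
    | C a => simp
    | add p q hp hq =>
      rw [map_add, map_add]
      have h4 : p + q - (C (constantCoeff p) + C (constantCoeff q)) =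
        (p - C (constantCoeff p)) + (q - C (constantCoeff q)) := by ring
      rw [h4]
      exact Ideal.add_mem _ hp hq
    | mul_X p i hp =>
      rw [map_mul, constantCoeff_X, mul_zero, map_zero, sub_zero]
      exact Ideal.mul_mem_left _ _ (hX i)
  have h4 := h3 P
  have h5 : constantCoeff P = 0 := by
    rw [constantCoeff_eq]
    by_contra h
    have h1 := hP h
    simp only [map_zero] at h1
    omega
  rwa [h5, map_zero, sub_zero] at h4

theorem exists_prime_mem {O : Type} [CommRing O] (𝔭 : Ideal O) [𝔭.IsPrime] (n : ℕ) (hn : 1 ≤ n)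
    (h : (n : O) ∈ 𝔭) : ∃ p : ℕ, p.Prime ∧ p ∣ n ∧ (p : O) ∈ 𝔭 := by
  induction n using Nat.strong_induction_on with
  | _ n ih =>
    by_cases h1 : n = 1
    · rw [h1, Nat.cast_one] at h
      exact absurd h ((Ideal.ne_top_iff_one 𝔭).1 Ideal.IsPrime.ne_top')
    · obtain ⟨p, hp, m, rfl⟩ := Nat.exists_prime_and_dvd h1
      rw [Nat.cast_mul] at h
      rcases Ideal.IsPrime.mem_or_mem ‹𝔭.IsPrime› h with h | h
      · exact ⟨p, hp, dvd_mul_right _ _, h⟩
      · have hm : 1 ≤ m := by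
          rcases Nat.eq_zero_or_pos m with h2 | h2
          · rw [h2, mul_zero] at hn
            omega
          · exact h2
        obtain ⟨p', hp', h3, h4⟩ := ih m (by have := hp.two_le; nlinarith) hm h
        exact ⟨p', hp', h3.trans (dvd_mul_left _ _), h4⟩

section retract

variable {O : Type} [CommRing O] {m : ℕ} (s' : Fin (m + 1))

/-- The inclusion of a chart. -/
noncomputable def iot : MvPolynomial {j // j ≠ s'} O →ₐ[O] MvPolynomial {j // j ≠ s'.succ} O :=
  rename (fun j => ⟨j.1.succ, fun h => j.2 (Fin.succ_injective _ h)⟩)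

theorem iot_deh (P : MvPolynomial (Fin (m + 1)) O) :
    iot s' (deh s' P) = deh s'.succ (rename Fin.succ P) := by
  induction P using MvPolynomial.induction_on with
  | C a =>
    rw [rename_C]
    simp [deh, iot]
  | add p q hp hq => rw [deh_add, map_add, hp, hq, map_add, deh_add]
  | mul_X p i hp =>
    rw [deh_mul, map_mul, hp, map_mul, deh_mul, rename_X, deh_X, deh_X]
    congr 1
    by_cases hi : i = s'
    · subst hi
      rw [tau_self, tau_self, map_one]
    · rw [tau_ne s' i hi, tau_ne s'.succ i.succ (fun h => hi (Fin.succ_injective _ h))]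
      change rename _ (X _) = _
      rw [rename_X]

end retract

/-- Where the first coordinate vanishes. -/
theorem crit_retract {O : Type} [CommRing O] (𝔭 : Ideal O) (d : ℕ) (hd : 3 ≤ d) {m : ℕ}
    (F : MvPolynomial (Fin (m + 1)) O) (h : Crit 𝔭 F) (s : Fin (m + 2))
    (Q : Ideal (MvPolynomial {j // j ≠ s} O)) (hQ : Q.IsPrime)
    (hCQ : ∀ r : O, C r ∈ Q ↔ r ∈ 𝔭) (hGQ : deh s (up d F) ∈ Q)
    (hall : ∀ j, deh s (pderiv j (up d F)) ∈ Q)
    (ha0 : (tau s 0 : MvPolynomial {i // i ≠ s} O) ∈ Q)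
    (f : MvPolynomial {i // i ≠ s} O) (hf : f ∉ Q) : f * deh s (up d F) ∉ Q ^ 2 := by
  intro hfG
  have hs0 : s ≠ 0 := by
    rintro rfl
    rw [tau_self] at ha0
    exact hQ.ne_top ((Ideal.eq_top_iff_one _).2 ha0)
  obtain ⟨s', rfl⟩ := Fin.exists_succ_eq.2 hs0
  let ι : MvPolynomial {j // j ≠ s'} O →ₐ[O] MvPolynomial {j // j ≠ s'.succ} O := iot s'
  let σ : MvPolynomial {j // j ≠ s'.succ} O →ₐ[O] MvPolynomial {j // j ≠ s'} O :=
    aeval (fun j => Fin.cases (motive := fun _ => MvPolynomial {j // j ≠ s'} O) 0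
      (fun i => tau s' i) j.1)
  have hιdeh : ∀ P, ι (deh s' P) = deh s'.succ (rename Fin.succ P) := iot_deh s'
  have hσtau : ∀ i, σ (tau s'.succ i.succ) = tau s' i := by
    intro i
    by_cases hi : i = s'
    · subst hi
      rw [tau_self, tau_self, map_one]
    · rw [tau_ne s'.succ i.succ (fun h => hi (Fin.succ_injective _ h))]
      change aeval _ (X _) = _
      rw [aeval_X]
      rfl
  have hσdeh : ∀ P, σ (deh s'.succ (rename Fin.succ P)) = deh s' P := by
    intro P
    induction P using MvPolynomial.induction_on with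
    | C a =>
      rw [rename_C]
      simp [deh, σ]
    | add p q hp hq => rw [map_add, deh_add, map_add, hp, hq, deh_add]
    | mul_X p i hp =>
      rw [map_mul, deh_mul, map_mul, hp, rename_X, deh_X, hσtau, deh_mul, deh_X]
  have hσ0 : σ (tau s'.succ 0) = 0 := by
    rw [tau_ne s'.succ 0 (Fin.succ_ne_zero s').symm]
    change aeval _ (X _) = _
    rw [aeval_X]
    rfl
  have hισ : ∀ f, f - ι (σ f) ∈ Q := by
    intro f
    have h1 : ((Ideal.Quotient.mkₐ O Q).comp (ι.comp σ)) = Ideal.Quotient.mkₐ O Q := by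
      apply MvPolynomial.algHom_ext
      rintro ⟨j, hj⟩
      rw [AlgHom.comp_apply, AlgHom.comp_apply]
      have h2 : (X ⟨j, hj⟩ : MvPolynomial {j // j ≠ s'.succ} O) = tau s'.succ j :=
        (tau_ne s'.succ j hj).symm
      rw [h2]
      refine Fin.cases ?_ (fun i => ?_) j
      · rw [hσ0, map_zero, map_zero]
        exact (Ideal.Quotient.eq_zero_iff_mem.2 ha0).symm
      · rw [hσtau, ← deh_X, hιdeh, rename_X, deh_X]
    have h2 := congrArg (fun g => g f) h1
    simp only [AlgHom.comp_apply] at h2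
    exact Ideal.Quotient.eq.1 h2.symm
  let Q' : Ideal (MvPolynomial {j // j ≠ s'} O) := Q.comap ι.toRingHom
  have hQ' : Q'.IsPrime := Ideal.comap_isPrime _ _
  have hmem' : ∀ P, P ∈ Q' ↔ ι P ∈ Q := fun P => Iff.rfl
  have hσQ : ∀ f, f ∈ Q ↔ σ f ∈ Q' := by
    intro f
    rw [hmem']
    constructor
    · intro hfQ
      have h1 := Q.sub_mem hfQ (hισ f)
      rwa [sub_sub_cancel] at h1
    · intro hfQ
      have h1 := Q.add_mem (hισ f) hfQ
      rwa [sub_add_cancel] at h1
  have hσQ2 : ∀ f ∈ Q ^ 2, σ f ∈ Q' ^ 2 := by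
    intro f hf
    have h1 : (Q ^ 2).map σ.toRingHom ≤ Q' ^ 2 := by
      rw [Ideal.map_pow]
      refine Ideal.pow_right_mono ?_ 2
      rw [Ideal.map_le_iff_le_comap]
      intro g hg
      exact (hσQ g).1 hg
    exact h1 (Ideal.mem_map_of_mem _ hf)
  have hσG : σ (deh s'.succ (up d F)) = deh s' F := by
    have h1 : deh s'.succ (up d F) = tau s'.succ 0 ^ (d - 1) * tau s'.succ 1 +
        deh s'.succ (rename Fin.succ F) := by
      unfold up
      rw [deh_add, deh_mul, deh_pow, deh_X, deh_X]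
    rw [h1, map_add, map_mul, map_pow, hσ0, zero_pow (by omega), zero_mul, zero_add, hσdeh]
  have hC' : ∀ r : O, C r ∈ Q' ↔ r ∈ 𝔭 := by
    intro r
    rw [hmem']
    change rename _ (C r) ∈ Q ↔ _
    rw [rename_C]
    exact hCQ r
  have hF' : deh s' F ∈ Q' := by
    rw [← hσG]
    exact (hσQ _).1 hGQ
  rcases h s' Q' hQ' hC' hF' with ⟨j, hj⟩ | h2
  · apply hj
    rw [pderiv_deh, hmem', hιdeh]
    by_cases hj0 : (j : Fin (m + 1)) = 0
    · rw [hj0]
      have h3 := hall 1
      rw [pderiv_one_up, deh_add, deh_pow, deh_X] at h3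
      have h4 : tau s'.succ 0 ^ (d - 1) ∈ Q := Ideal.pow_mem_of_mem _ ha0 _ (by omega)
      have h5 := Q.sub_mem h3 h4
      rwa [add_sub_cancel_left] at h5
    · rw [← pderiv_succ_up d F j hj0]
      exact hall _
  · refine h2 (σ f) (fun h3 => hf ((hσQ f).2 h3)) ?_
    rw [← hσG, ← map_mul]
    exact hσQ2 _ hfG

/-- The wild case, in the chart `y_0 = 1`. -/
theorem crit_wild {O : Type} [CommRing O] [IsNoetherianRing O] (𝔭 : Ideal O) [𝔭.IsPrime]
    (d : ℕ) (hd : 3 ≤ d) {r : ℕ} (F : MvPolynomial (Fin (r + 1)) O) (p : ℕ) (hp : p.Prime)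
    (hpd : p ∣ d - 1) (hp𝔭 : (p : O) ∈ 𝔭)
    (hw : ∀ q : Ideal (MvPolynomial {j : Fin (r + 1) // j ≠ 0} O), q.IsPrime →
      (∀ r, C r ∈ q ↔ r ∈ 𝔭) → (∀ j, pderiv j (deh 0 F) ∈ q) →
      Finite (MvPolynomial {j : Fin (r + 1) // j ≠ 0} O ⧸ q) ∧ ∀ g, deh 0 F + g ^ p ∉ q ^ 2)
    (Q : Ideal (MvPolynomial {j // j ≠ (0 : Fin (r + 1)).succ} O)) (hQ : Q.IsPrime)
    (hCQ : ∀ r : O, C r ∈ Q ↔ r ∈ 𝔭) (hGQ : deh (0 : Fin (r + 1)).succ (up d F) ∈ Q)
    (hall : ∀ j, deh (0 : Fin (r + 1)).succ (pderiv j (up d F)) ∈ Q)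
    (h : MvPolynomial {i // i ≠ (0 : Fin (r + 1)).succ} O) (hh : h ∉ Q) :
    h * deh (0 : Fin (r + 1)).succ (up d F) ∉ Q ^ 2 := by
  intro hcon
  let t : Fin (r + 2) := (0 : Fin (r + 1)).succ
  let A := MvPolynomial {j : Fin (r + 1) // j ≠ 0} O
  let ι : A →ₐ[O] MvPolynomial {j // j ≠ t} O := iot 0
  have h0t : (0 : Fin (r + 2)) ≠ t := (Fin.succ_ne_zero _).symm
  let x : MvPolynomial {j // j ≠ t} O := X ⟨0, h0t⟩
  let f : A := deh 0 F
  have hG : deh t (up d F) = x ^ (d - 1) + ι f := by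
    unfold up
    rw [deh_add, deh_mul, deh_pow, deh_X, deh_X, tau_ne t 0 h0t]
    have h1 : (tau t 1 : MvPolynomial {j // j ≠ t} O) = 1 := tau_self t
    rw [h1, mul_one]
    congr 1
    exact (iot_deh 0 F).symm
  let q : Ideal A := Q.comap ι.toRingHom
  have hq : q.IsPrime := Ideal.comap_isPrime _ _
  have hmem : ∀ P, P ∈ q ↔ ι P ∈ Q := fun P => Iff.rfl
  have hCq : ∀ r : O, C r ∈ q ↔ r ∈ 𝔭 := by
    intro r
    rw [hmem]
    change rename _ (C r) ∈ Q ↔ _
    rw [rename_C]
    exact hCQ r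
  have hpq : ∀ j, pderiv j (deh 0 F) ∈ q := by
    intro j
    rw [pderiv_deh, hmem]
    change iot 0 (deh 0 _) ∈ Q
    rw [iot_deh, ← pderiv_succ_up d F j j.2]
    exact hall _
  obtain ⟨hfin, hg⟩ := hw q hq hCq hpq
  have hpA : (p : A) ∈ q := by
    have h1 := (hCq (p : O)).2 hp𝔭
    rwa [map_natCast] at h1
  have hpQ : (p : MvPolynomial {j // j ≠ t} O) ∈ Q := by
    have h1 := (hCQ (p : O)).2 hp𝔭
    rwa [map_natCast] at h1
  have hqmax : q.IsMaximal := by
    have : IsDomain (A ⧸ q) := Ideal.Quotient.isDomain q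
    exact Ideal.Quotient.maximal_of_isField q (Finite.isField_of_domain (A ⧸ q))
  -- `-f` is a `p`-th power modulo `q`
  obtain ⟨g, hgq⟩ : ∃ g : A, f + g ^ p ∈ q := by
    have : IsDomain (A ⧸ q) := Ideal.Quotient.isDomain q
    have : Fact p.Prime := ⟨hp⟩
    have : CharP (A ⧸ q) p := by
      rw [CharP.charP_iff_prime_eq_zero hp]
      have h1 := Ideal.Quotient.eq_zero_iff_mem.2 hpA
      rwa [map_natCast] at h1
    have hs : Function.Surjective (frobenius (A ⧸ q) p) :=
      Finite.injective_iff_surjective.1 (frobenius_inj (A ⧸ q) p)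
    obtain ⟨gb, hgb⟩ := hs (Ideal.Quotient.mk q (-f))
    obtain ⟨g, rfl⟩ := Ideal.Quotient.mk_surjective gb
    refine ⟨g, ?_⟩
    rw [← Ideal.Quotient.eq_zero_iff_mem, map_add, map_pow]
    rw [frobenius_def] at hgb
    rw [hgb, map_neg, add_neg_cancel]
  obtain ⟨e', he'⟩ := hpd
  let z : MvPolynomial {j // j ≠ t} O := x ^ e'
  have hz : x ^ (d - 1) = z ^ p := by
    rw [he', mul_comm, pow_mul]
  set w := z - ι g with hw'
  obtain ⟨ρ, hρ⟩ := exists_add_pow_prime_eq hp (ι g) w
  have hzw : ι g + w = z := by rw [hw']; ring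
  rw [hzw] at hρ
  have hwQ : w ∈ Q := by
    apply hQ.mem_of_pow_mem p
    have h1 : z ^ p + ι f ∈ Q := by rw [← hz, ← hG]; exact hGQ
    have h2 : ι (f + g ^ p) ∈ Q := hgq
    rw [map_add, map_pow] at h2
    have h3 : w ^ p = (z ^ p + ι f) - (ι f + ι g ^ p) - (p : MvPolynomial {j // j ≠ t} O) *
        ι g * w * ρ := by
      rw [hρ]
      ring
    rw [h3]
    refine Q.sub_mem (Q.sub_mem h1 h2) ?_
    rw [mul_assoc, mul_assoc]
    exact Q.mul_mem_right _ hpQ
  have hdiff : z ^ p + ι f - ι (f + g ^ p) ∈ Q ^ 2 := by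
    have h3 : z ^ p + ι f - ι (f + g ^ p) = w ^ p + (p : MvPolynomial {j // j ≠ t} O) *
        w * (ι g * ρ) := by
      rw [hρ, map_add, map_pow]
      ring
    rw [h3]
    refine Ideal.add_mem _ ?_ (Ideal.mul_mem_right _ _ ?_)
    · exact Ideal.pow_le_pow_right hp.two_le (Ideal.pow_mem_pow hwQ p)
    · rw [pow_two]
      exact Ideal.mul_mem_mul hpQ hwQ
  have hcon2 : h * ι (f + g ^ p) ∈ Q ^ 2 := by
    rw [hG, hz] at hcon
    have h3 : h * ι (f + g ^ p) = h * (z ^ p + ι f) - h * (z ^ p + ι f - ι (f + g ^ p)) := by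
      ring
    rw [h3]
    exact Ideal.sub_mem _ hcon (Ideal.mul_mem_left _ _ hdiff)
  -- transport to the polynomial ring over `A`
  let e : MvPolynomial {j // j ≠ t} O →ₐ[O] Polynomial A :=
    aeval (fun j => Fin.cases (motive := fun _ => Polynomial A) Polynomial.X
      (fun i => Polynomial.C (tau 0 i)) j.1)
  let ψ : Polynomial A →+* MvPolynomial {j // j ≠ t} O := Polynomial.eval₂RingHom ι.toRingHom x
  have hψC : ∀ a : A, ψ (Polynomial.C a) = ι a := fun a => Polynomial.eval₂_C _ _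
  have hψX : ψ Polynomial.X = x := Polynomial.eval₂_X _ _
  have hψe : ∀ w, ψ (e w) = w := by
    intro w
    induction w using MvPolynomial.induction_on with
    | C a =>
      change ψ (aeval _ (C a)) = _
      rw [aeval_C]
      change ψ (Polynomial.C (C a)) = _
      rw [hψC]
      change rename _ (C a) = _
      rw [rename_C]
    | add p q hp hq => rw [map_add, map_add, hp, hq]
    | mul_X p i hp =>
      rw [map_mul, map_mul, hp]
      congr 1
      change ψ (aeval _ (X i)) = _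
      rw [aeval_X]
      obtain ⟨j, hj⟩ := i
      revert hj
      refine Fin.cases ?_ (fun i => ?_) j
      · intro hj
        exact hψX
      · intro hj
        have hi : i ≠ 0 := fun h2 => hj (by rw [h2])
        change ψ (Polynomial.C (tau 0 i)) = _
        rw [hψC, tau_ne 0 i hi]
        change rename _ (X _) = _
        rw [rename_X]
  have heι : ∀ a : A, e (ι a) = Polynomial.C a := by
    intro a
    induction a using MvPolynomial.induction_on with
    | C a =>
      change e (rename _ (C a)) = _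
      rw [rename_C]
      change aeval _ (C a) = _
      rw [aeval_C]
      rfl
    | add p q hp hq => rw [map_add, map_add, hp, hq, map_add]
    | mul_X p i hp =>
      rw [map_mul, map_mul, hp, map_mul]
      congr 1
      change e (rename _ (X i)) = _
      rw [rename_X]
      change aeval _ (X _) = _
      rw [aeval_X]
      change Polynomial.C (tau 0 (i : Fin (r + 1))) = _
      rw [tau_ne (0 : Fin (r + 1)) (i : Fin (r + 1)) i.2]
  let Qh : Ideal (Polynomial A) := Q.comap ψ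
  have hQh : Qh.IsPrime := Ideal.comap_isPrime _ _
  have hA : ∀ a, Polynomial.C a ∈ Qh ↔ a ∈ q := by
    intro a
    rw [Ideal.mem_comap, hψC, hmem]
  have heh : e h ∉ Qh := by
    rw [Ideal.mem_comap, hψe]
    exact hh
  apply lemL q hqmax (f + g ^ p) hgq (hg g) Qh hQh hA (e h) heh
  rw [← heι, ← map_mul]
  have h2 : (Q ^ 2).map e.toRingHom ≤ Qh ^ 2 := by
    rw [Ideal.map_pow]
    refine Ideal.pow_right_mono ?_ 2
    rw [Ideal.map_le_iff_le_comap]
    intro g hg
    change ψ (e g) ∈ Q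
    rw [hψe]
    exact hg
  exact h2 (Ideal.mem_map_of_mem _ hcon2)

/-- The wild condition at `𝔭`. -/
def Wild {O : Type} [CommRing O] (𝔭 : Ideal O) (d : ℕ) {r : ℕ}
    (F : MvPolynomial (Fin (r + 1)) O) : Prop :=
  ∀ p : ℕ, p.Prime → p ∣ d - 1 → (p : O) ∈ 𝔭 →
    ∀ q : Ideal (MvPolynomial {j : Fin (r + 1) // j ≠ 0} O), q.IsPrime →
      (∀ r, C r ∈ q ↔ r ∈ 𝔭) → (∀ j, pderiv j (deh 0 F) ∈ q) →
      Finite (MvPolynomial {j : Fin (r + 1) // j ≠ 0} O ⧸ q) ∧ ∀ g, deh 0 F + g ^ p ∉ q ^ 2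

/-- Regularity of `x ^ (d - 1) * y_0 + F(y) = 0`. -/
theorem crit_susp {O : Type} [CommRing O] [IsNoetherianRing O] (𝔭 : Ideal O) [𝔭.IsPrime]
    (d : ℕ) (hd : 3 ≤ d) {r : ℕ} (F : MvPolynomial (Fin (r + 1)) O) (hF : F.IsHomogeneous d)
    (hsec : Sec F) (hreg : Crit 𝔭 F) (hw : Wild 𝔭 d F) : Crit 𝔭 (up d F) := by
  intro s Q hQ hCQ hGQ
  by_contra hcon
  push Not at hcon
  obtain ⟨hpd, f, hf, hfG⟩ := hcon
  have hGh := isHomogeneous_up d (by omega) F hF
  have hall := all_pderiv_mem _ d hGh s Q hGQ hpd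
  by_cases ha0 : (tau s 0 : MvPolynomial {i // i ≠ s} O) ∈ Q
  · exact crit_retract 𝔭 d hd F hreg s Q hQ hCQ hGQ hall ha0 f hf hfG
  · -- the coordinate `y_0` is invertible
    have ha1 : (tau s 1 : MvPolynomial {i // i ≠ s} O) ∉ Q := by
      intro ha1
      apply ha0
      let ρ : MvPolynomial (Fin (r + 1)) O →ₐ[O] MvPolynomial {j // j ≠ s} O :=
        (aeval (tau s)).comp (rename Fin.succ)
      have hρ : ∀ P, ρ P = deh s (rename Fin.succ P) := fun P => rfl
      let P₀ : Ideal (MvPolynomial (Fin (r + 1)) O) := Q.comap ρ.toRingHom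
      have hP₀ : P₀.IsPrime := Ideal.comap_isPrime _ _
      have hmem : ∀ P, P ∈ P₀ ↔ deh s (rename Fin.succ P) ∈ Q := fun P => Iff.rfl
      have hX0 : X 0 ∈ P₀ := by
        rw [hmem, rename_X, deh_X]
        exact ha1
      have hFP : F ∈ P₀ := by
        rw [hmem]
        have h1 := hGQ
        unfold up at h1
        rw [deh_add, deh_mul, deh_X] at h1
        have h2 := Q.sub_mem h1 (Q.mul_mem_left (deh s (X 0 ^ (d - 1))) ha1)
        rwa [add_sub_cancel_left] at h2
      have hpP : ∀ i, i ≠ 0 → pderiv i F ∈ P₀ := by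
        intro i hi
        rw [hmem, ← pderiv_succ_up d F i hi]
        exact hall _
      have hX := hsec.mem P₀ hP₀ hX0 hFP hpP
      have h3 : pderiv 0 F ∈ P₀ :=
        mem_of_homog P₀ hX _ (d - 1) (by omega) hF.pderiv
      rw [hmem] at h3
      have h4 := hall 1
      rw [pderiv_one_up, deh_add, deh_pow, deh_X] at h4
      have h5 := Q.sub_mem h4 h3
      rw [add_sub_cancel_right] at h5
      exact hQ.mem_of_pow_mem _ h5
    have hd1 : ((d - 1 : ℕ) : O) ∈ 𝔭 := by
      have h0 := hall 0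
      rw [pderiv_zero_up, deh_mul, deh_mul, deh_pow, deh_natCast, deh_X, deh_X] at h0
      have h1 := (hQ.mem_or_mem h0).resolve_right ha1
      have h2 := (hQ.mem_or_mem h1).resolve_right (fun h => ha0 (hQ.mem_of_pow_mem _ h))
      rw [← hCQ, map_natCast]
      exact h2
    obtain ⟨p, hp, hpdvd, hp𝔭⟩ := exists_prime_mem 𝔭 (d - 1) (by omega) hd1
    obtain ⟨Q', hQ', hCQ', hiff, hmain⟩ := chart_change 𝔭 s (0 : Fin (r + 1)).succ Q hQ hCQ ha1
    refine hmain (up d F) d hGh ?_ f hf hfG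
    intro h hh
    refine crit_wild 𝔭 d hd F p hp hpdvd hp𝔭 (hw p hp hpdvd hp𝔭) Q' hQ' hCQ'
      ((hiff _ d hGh).2 hGQ) (fun j => (hiff _ (d - 1) hGh.pderiv).2 (hall j)) h hh

/-- Smoothness of `x ^ (d - 1) * y_0 + F(y) = 0` over a field of characteristic zero. -/
theorem smooth_susp {K : Type} [Field K] [CharZero K] (d : ℕ) (hd : 3 ≤ d) {r : ℕ}
    (F : MvPolynomial (Fin (r + 1)) K) (hF : F.IsHomogeneous d) (hsm : Smooth F)
    (hsec : Sec F) : Smooth (up d F) := by
  have key : ∀ P : Ideal (MvPolynomial (Fin (r + 2)) K), P.IsPrime →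
      (∀ j, pderiv j (up d F) ∈ P) → ∀ i, X i ∈ P := by
    intro P hP hall
    let P' : Ideal (MvPolynomial (Fin (r + 1)) K) := P.comap (rename Fin.succ :
      MvPolynomial (Fin (r + 1)) K →ₐ[K] MvPolynomial (Fin (r + 2)) K).toRingHom
    have hP' : P'.IsPrime := Ideal.comap_isPrime _ _
    have hmem' : ∀ f, f ∈ P' ↔ rename Fin.succ f ∈ P := fun f => Iff.rfl
    have hpj : ∀ j, j ≠ 0 → pderiv j F ∈ P' := by
      intro j hj
      rw [hmem', ← pderiv_succ_up d _ j hj]
      exact hall _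
    have h1 := hall 1
    rw [pderiv_one_up] at h1
    have hd0 : ((d - 1 : ℕ) : MvPolynomial (Fin (r + 2)) K) ∉ P := by
      intro h
      have h2 : IsUnit ((d - 1 : ℕ) : MvPolynomial (Fin (r + 2)) K) := by
        have h3 : ((d - 1 : ℕ) : K) ≠ 0 := by
          rw [Nat.cast_ne_zero]
          omega
        have h4 := (Ne.isUnit h3).map (C : K →+* MvPolynomial (Fin (r + 2)) K)
        rwa [map_natCast] at h4
      exact hP.ne_top (Ideal.eq_top_of_isUnit_mem _ h h2)
    have h0 := hall 0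
    rw [pderiv_zero_up] at h0
    have hstep : (X 0 : MvPolynomial (Fin (r + 2)) K) ∈ P → ∀ i, X i ∈ P := by
      intro ha0 i
      refine Fin.cases ha0 (fun i => ?_) i
      have h2 : Ideal.span (Set.range fun j => pderiv j F) ≤ P' := by
        rw [Ideal.span_le]
        rintro _ ⟨j, rfl⟩
        by_cases hj : j = 0
        · change pderiv j F ∈ P'
          rw [hj, hmem']
          have h5 := P.sub_mem h1 (Ideal.pow_mem_of_mem _ ha0 (d - 1) (by omega))
          rwa [add_sub_cancel_left] at h5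
        · exact hpj j hj
      have h3 := (Ideal.IsPrime.radical_le_iff hP').2 h2 (hsm i)
      rw [hmem', rename_X] at h3
      exact h3
    rcases hP.mem_or_mem h0 with h2 | h2
    · have h3 := (hP.mem_or_mem h2).resolve_left hd0
      exact hstep (hP.mem_of_pow_mem _ h3)
    · have hX0 : X 0 ∈ P' := by
        rw [hmem', rename_X]
        exact h2
      have hFP : F ∈ P' := by
        have h3 := hF.sum_X_mul_pderiv
        have h4 : ∑ i, X i * pderiv i F ∈ P' := by
          refine Ideal.sum_mem _ fun i _ => ?_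
          by_cases hi : i = 0
          · rw [hi]
            exact Ideal.mul_mem_right _ _ hX0
          · exact Ideal.mul_mem_left _ _ (hpj i hi)
        rw [h3, nsmul_eq_mul] at h4
        refine (hP'.mem_or_mem h4).resolve_left fun h5 => ?_
        have h6 : IsUnit ((d : ℕ) : MvPolynomial (Fin (r + 1)) K) := by
          have h7 : ((d : ℕ) : K) ≠ 0 := by
            rw [Nat.cast_ne_zero]
            omega
          have h8 := (Ne.isUnit h7).map (C : K →+* MvPolynomial (Fin (r + 1)) K)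
          rwa [map_natCast] at h8
        exact hP'.ne_top (Ideal.eq_top_of_isUnit_mem _ h5 h6)
      have hX := hsec.mem P' hP' hX0 hFP hpj
      have h3 : pderiv 0 F ∈ P' := mem_of_homog P' hX _ (d - 1) (by omega) hF.pderiv
      rw [hmem'] at h3
      have h5 := P.sub_mem h1 h3
      rw [add_sub_cancel_right] at h5
      exact hstep (hP.mem_of_pow_mem _ h5)
  intro i
  rw [Ideal.radical_eq_sInf, Submodule.mem_sInf]
  rintro P ⟨hPle, hP⟩
  exact key P hP (fun j => hPle (Ideal.subset_span ⟨j, rfl⟩)) i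

end Pool.Agent.TH214.RM
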