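import Pool.Agent.TH214.RM.Smooth

/-! Towers of regular hypersurfaces. -/

set_option autoImplicit false
set_option linter.unusedSectionVars false
set_option linter.unusedVariables false

namespace Pool.Agent.TH214.RM

open Pool.Agent.H918R2.Quad MvPolynomial

/-- One more variable. -/
noncomputable def up {O : Type} [CommRing O] (d : ℕ) {m : ℕ} (F : MvPolynomial (Fin (m + 1)) O) :
    MvPolynomial (Fin (m + 2)) O := X 0 ^ (d - 1) * X 1 + rename Fin.succ F

theorem deh_X {O ι : Type} [CommRing O] [DecidableEq ι] (s j : ι) :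
    deh s (X j : MvPolynomial ι O) = tau s j := aeval_X _ _

theorem deh_add {O ι : Type} [CommRing O] [DecidableEq ι] (s : ι) (P Q : MvPolynomial ι O) :
    deh s (P + Q) = deh s P + deh s Q := map_add _ _ _

theorem deh_mul {O ι : Type} [CommRing O] [DecidableEq ι] (s : ι) (P Q : MvPolynomial ι O) :
    deh s (P * Q) = deh s P * deh s Q := map_mul _ _ _

theorem deh_pow {O ι : Type} [CommRing O] [DecidableEq ι] (s : ι) (P : MvPolynomial ι O) (k : ℕ) :
    deh s (P ^ k) = deh s P ^ k := map_pow _ _ _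

theorem deh_natCast {O ι : Type} [CommRing O] [DecidableEq ι] (s : ι) (k : ℕ) :
    deh s (k : MvPolynomial ι O) = k := map_natCast _ _

theorem tau_self {O ι : Type} [CommRing O] [DecidableEq ι] (s : ι) :
    (tau s s : MvPolynomial {i : ι // i ≠ s} O) = 1 := by
  unfold tau
  rw [dif_pos rfl]

theorem tau_ne {O ι : Type} [CommRing O] [DecidableEq ι] (s j : ι) (h : j ≠ s) :
    (tau s j : MvPolynomial {i : ι // i ≠ s} O) = X ⟨j, h⟩ := by
  unfold tau
  rw [dif_neg h]

theorem pderiv_rename_succ {O : Type} [CommRing O] {m : ℕ} (j : Fin m)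
    (F : MvPolynomial (Fin m) O) :
    pderiv j.succ (rename Fin.succ F) = rename Fin.succ (pderiv j F) :=
  pderiv_rename (Fin.succ_injective m) j F

theorem pderiv_zero_rename_succ {O : Type} [CommRing O] {m : ℕ}
    (F : MvPolynomial (Fin m) O) :
    pderiv 0 (rename Fin.succ F) = 0 := by
  apply pderiv_eq_zero_of_notMem_vars
  intro h
  obtain ⟨i, _, hi⟩ := mem_vars_rename _ _ h
  exact Fin.succ_ne_zero i hi

theorem pderiv_zero_up {O : Type} [CommRing O] (d : ℕ) {m : ℕ} (F : MvPolynomial (Fin (m + 1)) O) :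
    pderiv 0 (up d F) = ((d - 1 : ℕ) : MvPolynomial (Fin (m + 2)) O) * X 0 ^ (d - 2) * X 1 := by
  unfold up
  rw [map_add, pderiv_zero_rename_succ, add_zero, Derivation.leibniz, Derivation.leibniz_pow,
    pderiv_X_self, pderiv_X_of_ne (by simp : (1 : Fin (m + 2)) ≠ 0)]
  simp only [smul_eq_mul, mul_zero, nsmul_eq_mul, mul_one, zero_add]
  rw [Nat.sub_sub]
  ring

theorem pderiv_one_up {O : Type} [CommRing O] (d : ℕ) {m : ℕ} (F : MvPolynomial (Fin (m + 1)) O) :
    pderiv 1 (up d F) = X 0 ^ (d - 1) + rename Fin.succ (pderiv 0 F) := by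
  unfold up
  have h1 : (1 : Fin (m + 2)) = Fin.succ 0 := rfl
  rw [map_add]
  congr 1
  · rw [Derivation.leibniz, Derivation.leibniz_pow, pderiv_X_self,
      pderiv_X_of_ne (by simp : (0 : Fin (m + 2)) ≠ 1)]
    simp
  · rw [h1, pderiv_rename_succ]

theorem pderiv_succ_up {O : Type} [CommRing O] (d : ℕ) {m : ℕ} (F : MvPolynomial (Fin (m + 1)) O)
    (j : Fin (m + 1)) (hj : j ≠ 0) :
    pderiv j.succ (up d F) = rename Fin.succ (pderiv j F) := by
  unfold up
  have h1 : (1 : Fin (m + 2)) ≠ j.succ := by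
    intro h
    apply hj
    have h2 : (Fin.succ 0 : Fin (m + 2)) = j.succ := h
    exact (Fin.succ_injective _ h2).symm
  rw [map_add, pderiv_rename_succ, Derivation.leibniz, Derivation.leibniz_pow, pderiv_X_of_ne h1,
    pderiv_X_of_ne (Fin.succ_ne_zero j).symm]
  simp

/-- The first coordinate vanishes at the singular points. -/
theorem zero_mem {S : Type} [CommRing S] (Q : Ideal S) [hQ : Q.IsPrime] (d : ℕ) (hd : 3 ≤ d)
    (a₀ a₁ a₂ : S) (h0 : ((d - 1 : ℕ) : S) * a₀ ^ (d - 2) * a₁ ∈ Q)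
    (h1 : a₀ ^ (d - 1) + ((d - 1 : ℕ) : S) * a₁ ^ (d - 2) * a₂ ∈ Q) : a₀ ∈ Q := by
  by_contra hcon
  have h2 : a₀ ^ (d - 2) ∉ Q := fun h => hcon (hQ.mem_of_pow_mem _ h)
  have h3 : ((d - 1 : ℕ) : S) * a₁ ∈ Q := by
    have h4 : ((d - 1 : ℕ) : S) * a₀ ^ (d - 2) * a₁ = a₀ ^ (d - 2) * (((d - 1 : ℕ) : S) * a₁) := by
      ring
    rw [h4] at h0
    exact (hQ.mem_or_mem h0).resolve_left h2
  have h5 : ((d - 1 : ℕ) : S) * a₁ ^ (d - 2) * a₂ ∈ Q := by
    obtain ⟨e, he⟩ : ∃ e, d - 2 = e + 1 := ⟨d - 3, by omega⟩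
    have h4 : ((d - 1 : ℕ) : S) * a₁ ^ (d - 2) * a₂ =
        (((d - 1 : ℕ) : S) * a₁) * (a₁ ^ e * a₂) := by
      rw [he, pow_succ]
      ring
    rw [h4]
    exact Ideal.mul_mem_right _ _ h3
  have h6 : a₀ ^ (d - 1) ∈ Q := by
    have h7 := Q.sub_mem h1 h5
    rwa [add_sub_cancel_right] at h7
  exact hcon (hQ.mem_of_pow_mem _ h6)

theorem isHomogeneous_up {O : Type} [CommRing O] (d : ℕ) (hd : 1 ≤ d) {m : ℕ}
    (F : MvPolynomial (Fin (m + 1)) O) (hF : F.IsHomogeneous d) : (up d F).IsHomogeneous d := by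
  unfold up
  refine IsHomogeneous.add ?_ (hF.rename_isHomogeneous)
  have h1 := ((isHomogeneous_X O (0 : Fin (m + 2))).pow (d - 1)).mul
    (isHomogeneous_X O (1 : Fin (m + 2)))
  have h2 : 1 * (d - 1) + 1 = d := by omega
  rwa [h2] at h1

/-- The tower: if `up d F₀` is regular, so is `up d (up d F₀)`. -/
theorem crit_up {O : Type} [CommRing O] (𝔭 : Ideal O) (d : ℕ) (hd : 3 ≤ d) {m : ℕ}
    (F₀ : MvPolynomial (Fin (m + 1)) O) (hF₀ : F₀.IsHomogeneous d)
    (h : Crit 𝔭 (up d F₀)) : Crit 𝔭 (up d (up d F₀)) := by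
  intro s Q hQ hCQ hGQ
  by_contra hcon
  push Not at hcon
  obtain ⟨hpd, f, hf, hfG⟩ := hcon
  have hGh := isHomogeneous_up d (by omega) _ (isHomogeneous_up d (by omega) F₀ hF₀)
  have hall := all_pderiv_mem _ d hGh s Q hGQ hpd
  set F := up d F₀ with hFdef
  -- the first coordinate
  have ha0 : (tau s 0 : MvPolynomial {i // i ≠ s} O) ∈ Q := by
    have h0 := hall 0
    have h1 := hall 1
    rw [pderiv_zero_up, deh_mul, deh_mul, deh_pow, deh_natCast, deh_X, deh_X] at h0
    rw [pderiv_one_up, hFdef, pderiv_zero_up, map_mul, map_mul, map_pow, map_natCast, rename_X,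
      rename_X, deh_add, deh_mul, deh_mul, deh_pow, deh_pow, deh_natCast, deh_X, deh_X,
      deh_X] at h1
    exact zero_mem Q d hd _ _ _ h0 h1
  have hs0 : s ≠ 0 := by
    rintro rfl
    rw [tau_self] at ha0
    exact hQ.ne_top ((Ideal.eq_top_iff_one _).2 ha0)
  obtain ⟨s', rfl⟩ := Fin.exists_succ_eq.2 hs0
  let ι : MvPolynomial {j // j ≠ s'} O →ₐ[O] MvPolynomial {j // j ≠ s'.succ} O :=
    rename (fun j => ⟨j.1.succ, fun h => j.2 (Fin.succ_injective _ h)⟩)
  let σ : MvPolynomial {j // j ≠ s'.succ} O →ₐ[O] MvPolynomial {j // j ≠ s'} O :=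
    aeval (fun j => Fin.cases (motive := fun _ => MvPolynomial {j // j ≠ s'} O) 0
      (fun i => tau s' i) j.1)
  have hιdeh : ∀ P, ι (deh s' P) = deh s'.succ (rename Fin.succ P) := by
    intro P
    induction P using MvPolynomial.induction_on with
    | C a =>
      rw [rename_C]
      simp [deh, ι]
    | add p q hp hq => rw [deh_add, map_add, hp, hq, map_add, deh_add]
    | mul_X p i hp =>
      rw [deh_mul, map_mul, hp, map_mul, deh_mul, rename_X, deh_X, deh_X]
      congr 1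
      by_cases hi : i = s'
      · subst hi
        rw [tau_self, tau_self, map_one]
      · rw [tau_ne s' i hi, tau_ne s'.succ i.succ (fun h => hi (Fin.succ_injective _ h))]
        change rename _ (X _) = _
        rw [rename_X]
  have hσtau : ∀ i, σ (tau s'.succ i.succ) = tau s' i := by
    intro i
    by_cases hi : i = s'
    · subst hi
      rw [tau_self, tau_self, map_one]
    · rw [tau_ne s'.succ i.succ (fun h => hi (Fin.succ_injective _ h))]
      change aeval _ (X _) = _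
      rw [aeval_X]
      rfl
  have hσdeh : ∀ P, σ (deh s'.succ (rename Fin.succ P)) = deh s' P := by
    intro P
    induction P using MvPolynomial.induction_on with
    | C a =>
      rw [rename_C]
      simp [deh, σ]
    | add p q hp hq => rw [map_add, deh_add, map_add, hp, hq, deh_add]
    | mul_X p i hp =>
      rw [map_mul, deh_mul, map_mul, hp, rename_X, deh_X, hσtau, deh_mul, deh_X]
  have hσ0 : σ (tau s'.succ 0) = 0 := by
    rw [tau_ne s'.succ 0 (Fin.succ_ne_zero s').symm]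
    change aeval _ (X _) = _
    rw [aeval_X]
    rfl
  have hισ : ∀ f, f - ι (σ f) ∈ Q := by
    intro f
    have h1 : ((Ideal.Quotient.mkₐ O Q).comp (ι.comp σ)) = Ideal.Quotient.mkₐ O Q := by
      apply MvPolynomial.algHom_ext
      rintro ⟨j, hj⟩
      rw [AlgHom.comp_apply, AlgHom.comp_apply]
      have h2 : (X ⟨j, hj⟩ : MvPolynomial {j // j ≠ s'.succ} O) = tau s'.succ j :=
        (tau_ne s'.succ j hj).symm
      rw [h2]
      refine Fin.cases ?_ (fun i => ?_) j
      · rw [hσ0, map_zero, map_zero]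
        exact (Ideal.Quotient.eq_zero_iff_mem.2 ha0).symm
      · rw [hσtau, ← deh_X, hιdeh, rename_X, deh_X]
    have h2 := congrArg (fun g => g f) h1
    simp only [AlgHom.comp_apply] at h2
    exact Ideal.Quotient.eq.1 h2.symm
  let Q' : Ideal (MvPolynomial {j // j ≠ s'} O) := Q.comap ι.toRingHom
  have hQ' : Q'.IsPrime := Ideal.comap_isPrime _ _
  have hmem' : ∀ P, P ∈ Q' ↔ ι P ∈ Q := fun P => Iff.rfl
  have hσQ : ∀ f, f ∈ Q ↔ σ f ∈ Q' := by
    intro f
    rw [hmem']
    constructor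
    · intro hfQ
      have h1 := Q.sub_mem hfQ (hισ f)
      rwa [sub_sub_cancel] at h1
    · intro hfQ
      have h1 := Q.add_mem (hισ f) hfQ
      rwa [sub_add_cancel] at h1
  have hσQ2 : ∀ f ∈ Q ^ 2, σ f ∈ Q' ^ 2 := by
    intro f hf
    have h1 : (Q ^ 2).map σ.toRingHom ≤ Q' ^ 2 := by
      rw [Ideal.map_pow]
      refine Ideal.pow_right_mono ?_ 2
      rw [Ideal.map_le_iff_le_comap]
      intro g hg
      exact (hσQ g).1 hg
    exact h1 (Ideal.mem_map_of_mem _ hf)
  have hσG : σ (deh s'.succ (up d F)) = deh s' F := by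
    have h1 : deh s'.succ (up d F) = tau s'.succ 0 ^ (d - 1) * tau s'.succ 1 +
        deh s'.succ (rename Fin.succ F) := by
      unfold up
      rw [deh_add, deh_mul, deh_pow, deh_X, deh_X]
    rw [h1, map_add, map_mul, map_pow, hσ0, zero_pow (by omega), zero_mul, zero_add, hσdeh]
  have hC' : ∀ r : O, C r ∈ Q' ↔ r ∈ 𝔭 := by
    intro r
    rw [hmem']
    change rename _ (C r) ∈ Q ↔ _
    rw [rename_C]
    exact hCQ r
  have hF' : deh s' F ∈ Q' := by
    rw [← hσG]
    exact (hσQ _).1 hGQ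
  rcases h s' Q' hQ' hC' hF' with ⟨j, hj⟩ | h2
  · apply hj
    rw [pderiv_deh, hmem', hιdeh]
    by_cases hj0 : (j : Fin (m + 2)) = 0
    · rw [hj0]
      have h3 := hall 1
      rw [pderiv_one_up, deh_add, deh_pow, deh_X] at h3
      have h4 : tau s'.succ 0 ^ (d - 1) ∈ Q := Ideal.pow_mem_of_mem _ ha0 _ (by omega)
      have h5 := Q.sub_mem h3 h4
      rwa [add_sub_cancel_left] at h5
    · rw [← pderiv_succ_up d F j hj0]
      exact hall _
  · refine h2 (σ f) (fun h3 => hf ((hσQ f).2 h3)) ?_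
    rw [← hσG, ← map_mul]
    exact hσQ2 _ hfG

/-- The tower over a field: if `up d F₀` is smooth, so is `up d (up d F₀)`. -/
theorem smooth_up {K : Type} [Field K] (d : ℕ) (hd : 3 ≤ d) {m : ℕ}
    (F₀ : MvPolynomial (Fin (m + 1)) K) (h : Smooth (up d F₀)) : Smooth (up d (up d F₀)) := by
  have key : ∀ P : Ideal (MvPolynomial (Fin (m + 3)) K), P.IsPrime →
      (∀ j, pderiv j (up d (up d F₀)) ∈ P) → ∀ i, X i ∈ P := by
    intro P hP hall
    have ha0 : (X 0 : MvPolynomial (Fin (m + 3)) K) ∈ P := by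
      have h0 := hall 0
      have h1 := hall 1
      rw [pderiv_zero_up] at h0
      rw [pderiv_one_up, pderiv_zero_up, map_mul, map_mul, map_pow, map_natCast, rename_X,
        rename_X] at h1
      exact zero_mem P d hd _ _ _ h0 h1
    let P' : Ideal (MvPolynomial (Fin (m + 2)) K) := P.comap (rename Fin.succ :
      MvPolynomial (Fin (m + 2)) K →ₐ[K] MvPolynomial (Fin (m + 3)) K).toRingHom
    have hP' : P'.IsPrime := Ideal.comap_isPrime _ _
    have hmem' : ∀ f, f ∈ P' ↔ rename Fin.succ f ∈ P := fun f => Iff.rfl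
    have h1 : Ideal.span (Set.range fun j => pderiv j (up d F₀)) ≤ P' := by
      rw [Ideal.span_le]
      rintro _ ⟨j, rfl⟩
      change rename Fin.succ (pderiv j (up d F₀)) ∈ P
      by_cases hj0 : j = 0
      · rw [hj0]
        have h3 := hall 1
        rw [pderiv_one_up] at h3
        have h4 : (X 0 : MvPolynomial (Fin (m + 3)) K) ^ (d - 1) ∈ P :=
          Ideal.pow_mem_of_mem _ ha0 _ (by omega)
        have h5 := P.sub_mem h3 h4
        rwa [add_sub_cancel_left] at h5
      · rw [← pderiv_succ_up d _ j hj0]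
        exact hall _
    intro i
    refine Fin.cases ha0 (fun i => ?_) i
    have h2 := (Ideal.IsPrime.radical_le_iff hP').2 h1 (h i)
    rw [hmem', rename_X] at h2
    exact h2
  intro i
  rw [Ideal.radical_eq_sInf, Submodule.mem_sInf]
  rintro P ⟨hPle, hP⟩
  exact key P hP (fun j => hPle (Ideal.subset_span ⟨j, rfl⟩)) i

end Pool.Agent.TH214.RM
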